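import Pool.Agent.TH167.SM.Pos2

set_option autoImplicit false

/-!
# The general member of a system with an irreducible member is smooth
-/

namespace Pool.Agent.TH167.SM

open MvPolynomial Pool.Agent.W609 Pool.Agent.W609.CR Pool.Agent.TH167.SH Pool.Agent.TH167.TT
  Pool.Agent.TH167.DD Pool.Agent.H248R5 Pool.Agent.H248R6 Pool.Agent.W641.CR

theorem wwt_big {s m : ℕ} (w : Fin s → ℕ) {u : Fin m → ℕ} (hu : ∀ k, u k ≤ 2) :
    ∑ j ∈ Finset.univ.filter (fun j => 2 < wwt w u j), wwt w u j =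
      ∑ i ∈ Finset.univ.filter (fun i => 2 < w i), w i := by
  rw [Finset.sum_filter, Finset.sum_filter]
  have h1 := wwt_sum w u (fun n => if 2 < n then (n : ℤ) else 0)
  have h2 : ∑ k, (if 2 < u k then (u k : ℤ) else 0) = 0 :=
    Finset.sum_eq_zero fun k _ => if_neg (not_lt.2 (hu k))
  rw [h2, add_zero] at h1
  have h3 : ((∑ j, (if 2 < wwt w u j then wwt w u j else 0) : ℕ) : ℤ) =
      ((∑ i, (if 2 < w i then w i else 0) : ℕ) : ℤ) := by
    push_cast
    exact h1
  exact_mod_cast h3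

theorem wwt_choose {s n : ℕ} (w : Fin s → ℕ) :
    ∑ j, (wwt w (fun k : Fin (n + 4) => if k.1 < n then 1 else 0) j + 1).choose 2 =
      ∑ i, (w i + 1).choose 2 + n := by
  have h1 := wwt_sum w (fun k : Fin (n + 4) => if k.1 < n then 1 else 0)
    (fun n => ((n + 1).choose 2 : ℤ))
  have h2 : ∑ k : Fin (n + 4), (((if k.1 < n then 1 else 0) + 1 : ℕ).choose 2 : ℤ) = n := by
    rw [Fin.sum_univ_add]
    have h3 : ∀ i : Fin n, (((if (Fin.castAdd 4 i).1 < n then 1 else 0) + 1 : ℕ).choose 2 : ℤ) =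
        1 := by
      intro i
      rw [if_pos (show (Fin.castAdd 4 i).1 < n from i.2)]
      rfl
    have h4 : ∀ i : Fin 4, (((if (Fin.natAdd n i).1 < n then 1 else 0) + 1 : ℕ).choose 2 : ℤ) =
        0 := by
      intro i
      rw [if_neg (show ¬ (Fin.natAdd n i).1 < n by simp)]
      rfl
    simp only [h3, h4]
    simp
  have h5 : ((∑ j, (wwt w (fun k : Fin (n + 4) => if k.1 < n then 1 else 0) j + 1).choose 2 : ℕ) :
      ℤ) = ((∑ i, (w i + 1).choose 2 + n : ℕ) : ℤ) := by
    push_cast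
    rw [h2] at h1
    exact h1
  exact_mod_cast h5

/-- Singular points of a rigid irreducible curve lie at the points of multiplicity at least two. -/
theorem rigid_finP' {K : Type} [Field K] [CharZero K] [IsAlgClosed K] {r : ℕ}
    {P : Fin (r + 4) → Fin 2 → K}
    (hP : AlgebraicIndependent ℚ (fun ij : Fin (r + 4) × Fin 2 => P ij.1 ij.2)) {d : ℕ}
    {w : Fin (r + 4) → ℕ} (hw : ∑ j ∈ Finset.univ.filter (fun i => 2 < w i), w j < 3 * d)
    (h1 : Module.finrank K ↥(VS (fun j => aff (P j)) w d) = 1)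
    {f : MvPolynomial (Fin 3) K} (hf : f ∈ VS (fun j => aff (P j)) w d) (hirr : Irreducible f)
    {q : Fin 3 → K} (hq0 : q ≠ 0)
    (hq : ∀ j, 1 < w j → ∀ c : K, q ≠ c • aff (P j)) : ¬ Van q 2 f := by
  classical
  intro hv
  by_cases hex : ∃ j, ∃ c : K, q = c • aff (P j)
  · obtain ⟨j, c, hc⟩ := hex
    have hc0 : c ≠ 0 := by
      rintro rfl
      rw [zero_smul] at hc
      exact hq0 hc
    have hwj : w j ≤ 1 := by
      by_contra hlt
      exact hq j (by omega) c hc
    rw [hc, (t_lin K).2 f d ((mem_VS _ _ _ _).1 hf).1 c hc0] at hv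
    exact (exact_ord hP h1 hf hirr.ne_zero j).2 (van_mono (by omega) hv)
  · push Not at hex
    exact rigid_finP hP hw h1 hf hirr hq0 hex hv

/-- The data over the large field. -/
theorem gen_smoothP {K : Type} [Field K] [CharZero K] [IsAlgClosed K] {s : ℕ}
    {P : Fin s → Fin 2 → K}
    (hP : AlgebraicIndependent ℚ (fun ij : Fin s × Fin 2 => P ij.1 ij.2)) {w : Fin s → ℕ}
    {d n : ℕ} (hd2 : 2 ≤ d) (hw : ∑ j ∈ Finset.univ.filter (fun i => 2 < w i), w j < 3 * d)
    (b : Module.Basis (Fin (n + 1)) K ↥(VS (fun j => aff (P j)) w d))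
    {f : MvPolynomial (Fin 3) K} (hf : f ∈ VS (fun j => aff (P j)) w d) (hirr : Irreducible f) :
    (n + 1 : ℤ) = chi d w ∧
    ∃ (L : Type) (_ : Field L) (_ : Algebra K L) (_ : IsAlgClosed L) (t : Fin (n + 1) → L),
      AlgebraicIndependent K t ∧
      (∀ q : Fin 3 → L, q ≠ 0 →
        (∀ i, ∀ c : L, q ≠ c • aff (fun a => algebraMap K L (P i a))) →
        ¬ (eval q (∑ j, C (t j) * map (algebraMap K L) (b j : MvPolynomial (Fin 3) K)) = 0 ∧
          ∀ a, eval q (pderiv a (∑ j, C (t j) *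
            map (algebraMap K L) (b j : MvPolynomial (Fin 3) K))) = 0)) ∧
      ∀ i (v y : Fin 2 → L), v 0 * y 1 - v 1 * y 0 ≠ 0 →
        ¬ ∀ k, coeff (c3e (w i) k) (chart (fun a => algebraMap K L (P i a)) v y
          (∑ j, C (t j) * map (algebraMap K L) (b j : MvPolynomial (Fin 3) K))) = 0 := by
  classical
  obtain ⟨L, i1, i2, i3, i4, Q, t, D, hPQ, hD, hK, hN, h1, hG⟩ := gen_member hP b
  obtain ⟨G, hGd⟩ : ∃ G, G = ∑ j, C (t j) *
    map (algebraMap K L) (b j : MvPolynomial (Fin 3) K) := ⟨_, rfl⟩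
  rw [← hGd] at hG
  have hfm := (mem_VS _ _ _ _).1 hf
  have hli : LinearIndependent K (fun j => (b j : MvPolynomial (Fin 3) K)) :=
    b.linearIndependent.map' (Submodule.subtype _) (Submodule.ker_subtype _)
  have hG0 : G ≠ 0 := by
    intro h0
    rw [hGd] at h0
    have h2 := congrFun (lin_ind_map hli h0) 0
    have h3 := hD 0 0
    rw [h2, Pi.zero_apply, map_zero, if_pos rfl] at h3
    exact zero_ne_one h3
  -- special points
  have hfr : Module.finrank K ↥(VS (fun j => aff (P j)) w d) = n + 1 := by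
    rw [Module.finrank_eq_card_basis b, Fintype.card_fin]
  obtain ⟨Q0, hQ0, hQ1⟩ := pick hirr hfm.1 hd2 n (VS (fun j => aff (P j)) w d)
    (fun g hg => ((mem_VS _ _ _ _).1 hg).1) hf hfr
  obtain ⟨Q2, hQ2⟩ : ∃ Q2 : Fin (n + 4) → Fin 2 → K, ∀ (k : Fin (n + 4)) (h : k.1 < n),
      Q2 k = Q0 ⟨k.1, h⟩ :=
    ⟨fun k => if h : k.1 < n then Q0 ⟨k.1, h⟩ else 0, fun k h => dif_pos h⟩
  have hmem : ∀ g : MvPolynomial (Fin 3) K, g ∈ VS (fun j => aff (PPt P Q2 j))
      (wwt w (fun k : Fin (n + 4) => if k.1 < n then 1 else 0)) d ↔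
      g ∈ VS (fun j => aff (P j)) w d ∧ ∀ k, eval (aff (Q0 k)) g = 0 := by
    intro g
    rw [mem_PPt]
    refine and_congr Iff.rfl ⟨fun h k => ?_, fun h k => ?_⟩
    · have h2 := h (Fin.castAdd 4 k)
      rw [if_pos (show (Fin.castAdd 4 k).1 < n from k.2), hQ2 _ k.2] at h2
      exact van_one.1 h2
    · split_ifs with hk
      · rw [hQ2 k hk]
        exact van_one.2 (h _)
      · exact van_zero _ _
  have hfs := (hmem f).2 ⟨hf, hQ0⟩
  have h1s : Module.finrank K ↥(VS (fun j => aff (PPt P Q2 j))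
      (wwt w (fun k : Fin (n + 4) => if k.1 < n then 1 else 0)) d) = 1 := by
    refine (finrank_eq_one_iff_of_nonzero' ⟨f, hfs⟩
      (fun h => hirr.ne_zero (congrArg Subtype.val h))).2 fun g => ?_
    obtain ⟨g1, g2⟩ := (hmem g.1).1 g.2
    obtain ⟨c, hc⟩ := hQ1 g.1 g1 g2
    exact ⟨c, Subtype.ext hc⟩
  have hGi : Irreducible G := irr_of_special hPQ h1s hfs hirr hG hG0
  have hw1 : ∑ j ∈ Finset.univ.filter (fun j =>
      2 < wwt w (fun k : Fin (n + 4) => if k.1 < n then 1 else 0) j),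
      wwt w (fun k : Fin (n + 4) => if k.1 < n then 1 else 0) j < 3 * d := by
    rw [wwt_big w (fun k => by split_ifs <;> omega)]
    exact hw
  have hchi := rigid_chiP (r := s + n) hPQ hw1 h1 hG hGi
  have hsm := rigid_smoothP (r := s + n) hPQ hw1 h1 hG hGi
  refine ⟨?_, L, i1, i3, i4, t, jac_ind hD hK, ?_, ?_⟩
  · have h2 := wwt_choose (n := n) w
    have h3 : (d + 2).choose 2 = 1 + (∑ i, (w i + 1).choose 2 + n) := by
      rw [← h2]
      exact hchi
    rw [chi_cast, h3]
    push_cast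
    ring
  · rintro q hq0 hq ⟨h2, h3⟩
    rw [← hGd] at h2 h3
    have h5 : ∀ j : Fin (s + (n + 4)),
        1 < wwt w (fun k : Fin (n + 4) => if k.1 < n then 1 else 0) j →
        ∀ c : L, q ≠ c • aff (PPt P Q j) := by
      intro j hj c
      obtain ⟨y, rfl⟩ := (finSumFinEquiv (m := s) (n := n + 4)).surjective j
      rcases y with i | k
      · have := hq i c
        rw [← PPt_inl P Q i] at this
        exact this
      · have h4 : wwt w (fun k : Fin (n + 4) => if k.1 < n then 1 else 0)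
            (finSumFinEquiv (Sum.inr k)) ≤ 1 := by
          rw [wwt_inr]
          split_ifs <;> omega
        exact absurd hj (not_lt.2 h4)
    exact rigid_finP' (r := s + n) hPQ hw1 h1 hG hGi hq0 h5
      (Pool.Agent.TH167.TT.van_two h2 h3)
  · intro i v y hvy hcon
    rw [← hGd] at hcon
    obtain ⟨H, hH, hs⟩ := hsm.2 ((finSumFinEquiv (m := s) (n := n + 4)) (Sum.inl i)) v y hvy
    have e1 : PPt P Q (finSumFinEquiv (Sum.inl i)) = fun a => algebraMap K L (P i a) :=
      PPt_inl P Q i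
    have e2 : wwt w (fun k : Fin (n + 4) => if k.1 < n then 1 else 0)
        (finSumFinEquiv (Sum.inl i)) = w i := wwt_inl _ _ _
    rw [e1, e2] at hH
    exact (smooth_coef hH).1 hs hcon

/-- If a linear system at generic points has an irreducible member and the sum of its
multiplicities larger than two is less than three times the degree, then it is nonspecial and its
general member is smooth on the blow-up. -/
theorem general_smoothP {K : Type} [Field K] [CharZero K] [IsAlgClosed K] {s : ℕ}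
    {P : Fin s → Fin 2 → K}
    (hP : AlgebraicIndependent ℚ (fun ij : Fin s × Fin 2 => P ij.1 ij.2)) {w : Fin s → ℕ}
    {d : ℕ} (hw : ∑ j ∈ Finset.univ.filter (fun i => 2 < w i), w j < 3 * d)
    {f : MvPolynomial (Fin 3) K} (hf : f ∈ VS (fun j => aff (P j)) w d)
    (hirr : Irreducible f) :
    (Module.finrank K ↥(VS (fun j => aff (P j)) w d) : ℤ) = chi d w ∧
      GeneralMember (VS (fun j => aff (P j)) w d) (SmoothOn P w) := by
  classical
  rcases Nat.lt_or_ge d 2 with hd2 | hd2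
  · refine general_smooth hP ?_ hf hirr.squarefree
    have h2 : (Finset.univ.filter fun i => 2 < w i).card ≤ 0 := by
      by_contra hcon
      obtain ⟨j, hj⟩ : (Finset.univ.filter fun i => 2 < w i).Nonempty := by
        rw [← Finset.card_pos]
        omega
      have h3 := Finset.single_le_sum (f := w) (fun _ _ => Nat.zero_le _) hj
      have h4 := (Finset.mem_filter.1 hj).2
      omega
    omega
  have hfin := vs_fin (fun j => aff (P j)) w d
  have hpos := pos_of_mem hf hirr.ne_zero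
  obtain ⟨n, hn⟩ : ∃ n, Module.finrank K ↥(VS (fun j => aff (P j)) w d) = n + 1 :=
    ⟨Module.finrank K ↥(VS (fun j => aff (P j)) w d) - 1, by omega⟩
  let b : Module.Basis (Fin (n + 1)) K ↥(VS (fun j => aff (P j)) w d) :=
    Module.finBasisOfFinrankEq K _ hn
  obtain ⟨h0, L, i1, i2, i3, t, ht, h1, h2⟩ := gen_smoothP hP hd2 hw b hf hirr
  refine ⟨by rw [hn, ← h0]; push_cast; rfl, general_of_basis b ?_⟩
  obtain ⟨Φ1, hΦ1, hΦ1'⟩ := elim_fin (P := P) (fun j => (b j : MvPolynomial (Fin 3) K)) ht h1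
  have h3 := fun i => elim_chart (p := P i) (w i) (fun j => (b j : MvPolynomial (Fin 3) K)) ht
    (h2 i)
  choose Φ2 hΦ2 hΦ2' using h3
  refine ⟨Φ1 * ∏ i, Φ2 i, mul_ne_zero hΦ1 (Finset.prod_ne_zero_iff.2 fun i _ => hΦ2 i),
    fun t0 ht0 => ?_⟩
  rw [map_mul] at ht0
  have k1 := left_ne_zero_of_mul ht0
  have k2 := right_ne_zero_of_mul ht0
  rw [map_prod, Finset.prod_ne_zero_iff] at k2
  have e : ∑ j, t0 j • (b j : MvPolynomial (Fin 3) K) =
      ∑ j, C (t0 j) * (b j : MvPolynomial (Fin 3) K) :=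
    Finset.sum_congr rfl fun j _ => by rw [smul_eq_C_mul]
  have hmem : ∑ j, t0 j • (b j : MvPolynomial (Fin 3) K) ∈ VS (fun j => aff (P j)) w d :=
    Submodule.sum_mem _ fun j _ => Submodule.smul_mem _ _ (b j).2
  have hm := (mem_VS _ _ _ _).1 hmem
  refine ⟨fun Q hQ0 hQ => ?_, fun i v y hvy => ?_⟩
  · rw [e]
    exact hΦ1' t0 k1 Q hQ0 hQ
  · obtain ⟨H, hH⟩ := chart_div hm.1 (hm.2 i) v y
    refine ⟨H, hH, ?_⟩
    rw [smooth_coef hH, e]
    exact hΦ2' i t0 (k2 i (Finset.mem_univ i)) v y hvy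

end Pool.Agent.TH167.SM
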