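import Pool.Agent.TH167.SM.Pos

set_option autoImplicit false

/-!
# The generic member of a system with an irreducible member is irreducible
-/

namespace Pool.Agent.TH167.SM

open MvPolynomial Pool.Agent.W609 Pool.Agent.W609.CR Pool.Agent.TH167.SH Pool.Agent.TH167.TT
  Pool.Agent.TH167.DD Pool.Agent.H248R5 Pool.Agent.H248R6 Pool.Agent.W641.CR

theorem not_unit_deg {K : Type} [Field K] {f : MvPolynomial (Fin 3) K} {d : ℕ}
    (hf : f.IsHomogeneous d) (hf0 : f ≠ 0) (hu : ¬ IsUnit f) : d ≠ 0 := by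
  rintro rfl
  apply hu
  have h1 := hf.totalDegree hf0
  rw [MvPolynomial.isUnit_iff_totalDegree_of_isReduced]
  refine ⟨?_, h1⟩
  rw [isUnit_iff_ne_zero]
  intro h3
  have h2 := MvPolynomial.totalDegree_eq_zero_iff_eq_C.1 h1
  rw [h2, h3, C_0] at hf0
  exact hf0 rfl

theorem unit_deg {K : Type} [Field K] {f : MvPolynomial (Fin 3) K} {d : ℕ}
    (hf : f.IsHomogeneous d) (hf0 : f ≠ 0) (hu : IsUnit f) : d = 0 := by
  have h1 := hf.totalDegree hf0
  rw [← h1]
  exact (MvPolynomial.isUnit_iff_totalDegree_of_isReduced.1 hu).2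

/-- If the generator of a rigid system at special points is irreducible, then so is the generator
at generic points. -/
theorem irr_of_special {K K0 : Type} [Field K] [CharZero K] [Field K0] [CharZero K0] {s : ℕ}
    {P0 : Fin s → Fin 2 → K0}
    (hP0 : AlgebraicIndependent ℚ (fun ij : Fin s × Fin 2 => P0 ij.1 ij.2))
    {P : Fin s → Fin 2 → K} {w : Fin s → ℕ} {d : ℕ}
    (h1 : Module.finrank K ↥(VS (fun j => aff (P j)) w d) = 1)
    {G : MvPolynomial (Fin 3) K} (hG : G ∈ VS (fun j => aff (P j)) w d)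
    (hirr : Irreducible G) {f : MvPolynomial (Fin 3) K0} (hf : f ∈ VS (fun j => aff (P0 j)) w d)
    (hf0 : f ≠ 0) : Irreducible f := by
  classical
  have hG0 := hirr.ne_zero
  have hfm := (mem_VS _ _ _ _).1 hf
  have hGm := (mem_VS _ _ _ _).1 hG
  refine ⟨fun hu => ?_, ?_⟩
  · have h2 := unit_deg hfm.1 hf0 hu
    exact not_unit_deg hGm.1 hG0 hirr.not_isUnit h2
  · intro x h hh
    by_contra hcon
    push Not at hcon
    obtain ⟨hxu, hhu⟩ := hcon
    have hx0 : x ≠ 0 := fun h0 => hf0 (by rw [hh, h0, zero_mul])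
    have hh0 : h ≠ 0 := fun h0 => hf0 (by rw [hh, h0, mul_zero])
    have hxe := Pool.Agent.Chud.homog_of_dvd hfm.1 hf0 (⟨h, hh⟩ : x ∣ f)
    have hhe := Pool.Agent.Chud.homog_of_dvd hfm.1 hf0 (⟨x, by rw [hh]; ring⟩ : h ∣ f)
    obtain ⟨a, ha⟩ : ∃ a, a = x.totalDegree := ⟨_, rfl⟩
    obtain ⟨b, hb⟩ : ∃ b, b = h.totalDegree := ⟨_, rfl⟩
    rw [← ha] at hxe
    rw [← hb] at hhe
    have ha0 := not_unit_deg hxe hx0 hxu
    have hb0 := not_unit_deg hhe hh0 hhu
    choose u hu using fun j => exists_ord (p := P0 j) hx0 hxe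
    choose v hv using fun j => exists_ord (p := P0 j) hh0 hhe
    have hdeg : a + b = d := by
      have h2 := hxe.mul hhe
      rw [← hh] at h2
      exact h2.inj_right hfm.1 hf0
    have hle : ∀ j, w j ≤ u j + v j := by
      intro j
      have h2 := ord_mul (hu j) (hv j)
      rw [← hh] at h2
      by_contra hcon
      push Not at hcon
      exact h2.2 (van_mono (by omega) (hfm.2 j))
    have hxm : x ∈ VS (fun j => aff (P0 j)) u a := (mem_VS _ _ _ _).2 ⟨hxe, fun j => (hu j).1⟩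
    have hhm : h ∈ VS (fun j => aff (P0 j)) v b := (mem_VS _ _ _ _).2 ⟨hhe, fun j => (hv j).1⟩
    obtain ⟨y, hy, hy0⟩ := exists_mem (lt_of_lt_of_le (pos_of_mem hxm hx0) (semi hP0 P u a))
    obtain ⟨z, hz, hz0⟩ := exists_mem (lt_of_lt_of_le (pos_of_mem hhm hh0) (semi hP0 P v b))
    have hyz : y * z ∈ VS (fun j => aff (P j)) w d := by
      rw [mem_VS] at hy hz ⊢
      refine ⟨?_, fun j => ?_⟩
      · rw [← hdeg]
        exact hy.1.mul hz.1
      · exact van_mono (hle j) (van_mul (hy.2 j) (hz.2 j))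
    have hyz0 : y * z ≠ 0 := mul_ne_zero hy0 hz0
    obtain ⟨c, hc⟩ : ∃ c : K, c • (⟨G, hG⟩ : ↥(VS (fun j => aff (P j)) w d)) = ⟨_, hyz⟩ := by
      have h3 := (finrank_eq_one_iff_of_nonzero' (⟨G, hG⟩ : ↥(VS (fun j => aff (P j)) w d))
        (fun h => hG0 (congrArg Subtype.val h))).1 h1
      exact h3 _
    have hc' : c • G = y * z := congrArg Subtype.val hc
    have hc0 : c ≠ 0 := by
      rintro rfl
      rw [zero_smul] at hc'
      exact hyz0 hc'.symm
    have hGe : G = (C c⁻¹ * y) * z := by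
      have : G = C c⁻¹ * (c • G) := by
        rw [smul_eq_C_mul, ← mul_assoc, ← C_mul, inv_mul_cancel₀ hc0, C_1, one_mul]
      rw [this, hc']
      ring
    rcases hirr.isUnit_or_isUnit hGe with h2 | h2
    · exact ha0 (unit_deg ((mem_VS _ _ _ _).1 hy).1 hy0 (isUnit_of_mul_isUnit_right h2))
    · exact hb0 (unit_deg ((mem_VS _ _ _ _).1 hz).1 hz0 h2)

/-- An irreducible form is the only member of the system through suitable points on it. -/
theorem pick {K : Type} [Field K] [CharZero K] [IsAlgClosed K] {f : MvPolynomial (Fin 3) K}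
    {d : ℕ} (hirr : Irreducible f) (hfd : f.IsHomogeneous d) (hd2 : 2 ≤ d) :
    ∀ (n : ℕ) (V : Submodule K (MvPolynomial (Fin 3) K)), (∀ g ∈ V, g.IsHomogeneous d) → f ∈ V →
      Module.finrank K ↥V = n + 1 → ∃ Q : Fin n → Fin 2 → K, (∀ k, eval (aff (Q k)) f = 0) ∧
        ∀ g ∈ V, (∀ k, eval (aff (Q k)) g = 0) → ∃ c : K, c • f = g := by
  classical
  intro n
  induction n with
  | zero =>
    intro V _ hfV h1
    refine ⟨fun k => k.elim0, fun k => k.elim0, fun g hg _ => ?_⟩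
    obtain ⟨c, hc⟩ := (finrank_eq_one_iff_of_nonzero' (⟨f, hfV⟩ : ↥V)
      (fun h => hirr.ne_zero (congrArg Subtype.val h))).1 h1 ⟨g, hg⟩
    exact ⟨c, congrArg Subtype.val hc⟩
  | succ n ih =>
    intro V hV hfV h1
    have hfin : Module.Finite K ↥V := Module.finite_of_finrank_pos (by omega)
    obtain ⟨h, hh, hnd⟩ : ∃ h ∈ V, ¬ f ∣ h := by
      by_contra hcon
      push Not at hcon
      have hM := mult_finite f 0
      have h3 : V ≤ mult f 0 := by
        intro g hg
        exact mem_mult hfd hirr.ne_zero (hV g hg) (hcon g hg) fun _ => by omega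
      have h4 := Submodule.finrank_mono h3
      rw [mult_finrank hirr.ne_zero, h1] at h4
      have h5 : (0 + 2).choose 2 = 1 := rfl
      omega
    obtain ⟨q, hq1, hq2⟩ := exists_point_on hirr hfd hd2 (hV h hh) hnd
    obtain ⟨φ, hφ⟩ : ∃ φ : ↥V →ₗ[K] K, ∀ g : ↥V, φ g = eval (aff q) (g : MvPolynomial (Fin 3) K) :=
      ⟨(MvPolynomial.aeval (aff q) : MvPolynomial (Fin 3) K →ₐ[K] K).toLinearMap.comp V.subtype,
        fun g => by
          show aeval (aff q) (g : MvPolynomial (Fin 3) K) = _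
          rw [MvPolynomial.aeval_eq_eval]⟩
    have hsurj : Function.Surjective φ := by
      intro c
      refine ⟨(c * (eval (aff q) h)⁻¹) • ⟨h, hh⟩, ?_⟩
      rw [map_smul, hφ, smul_eq_mul, mul_assoc, inv_mul_cancel₀ hq2, mul_one]
    have hrn := φ.finrank_range_add_finrank_ker
    rw [LinearMap.range_eq_top.2 hsurj, finrank_top, Module.finrank_self, h1] at hrn
    have hker : Module.finrank K ↥((LinearMap.ker φ).map V.subtype) = n + 1 := by
      rw [Submodule.finrank_map_subtype_eq]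
      omega
    obtain ⟨Q, hQ1, hQ2⟩ := ih ((LinearMap.ker φ).map V.subtype) (by
      rintro g ⟨g', -, rfl⟩
      exact hV _ g'.2) ⟨⟨f, hfV⟩, by
        rw [SetLike.mem_coe, LinearMap.mem_ker, hφ]
        exact hq1, rfl⟩ hker
    refine ⟨Fin.cons q Q, fun k => ?_, fun g hg hk => ?_⟩
    · refine Fin.cases ?_ (fun k => ?_) k
      · exact hq1
      · exact hQ1 k
    · refine hQ2 g ⟨⟨g, hg⟩, ?_, rfl⟩ fun k => hk k.succ
      rw [SetLike.mem_coe, LinearMap.mem_ker, hφ]
      exact hk 0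

end Pool.Agent.TH167.SM
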