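import Pool.Agent.TH167.SM.Smooth

set_option autoImplicit false

/-!
# A large algebraically closed field with derivations
-/

namespace Pool.Agent.TH167.SM

open MvPolynomial Pool.Agent.W609 Pool.Agent.W609.CR Pool.Agent.TH167.SH Pool.Agent.TH167.TT
  Pool.Agent.TH167.DD Pool.Agent.H248R5 Pool.Agent.H248R6 Pool.Agent.W641.CR

theorem exists_big (K : Type) [Field K] [CharZero K] (ι : Type) [DecidableEq ι] :
    ∃ (L : Type) (_ : Field L) (_ : CharZero L) (_ : Algebra K L) (_ : IsAlgClosed L) (x : ι → L)
      (D : ι → Derivation ℚ L L), AlgebraicIndependent K x ∧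
      (∀ i j, D i (x j) = if i = j then 1 else 0) ∧ ∀ i (a : K), D i (algebraMap K L a) = 0 := by
  classical
  let A := MvPolynomial ι K
  let F := FractionRing A
  let L := AlgebraicClosure F
  have hinj : Function.Injective (algebraMap A L) := by
    rw [IsScalarTower.algebraMap_eq A F L]
    exact (algebraMap F L).injective.comp (IsFractionRing.injective A F)
  have hinj2 : Function.Injective (algebraMap K L) := (algebraMap K L).injective
  have hc : CharZero L := charZero_of_injective_algebraMap hinj2
  have hcF : CharZero F := charZero_of_injective_algebraMap (algebraMap K F).injective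
  have : Algebra.FormallyEtale F L := Algebra.FormallyEtale.of_isSeparable F L
  have : Algebra.FormallyEtale A F :=
    Algebra.FormallyEtale.of_isLocalization (nonZeroDivisors A)
  have : Algebra.FormallyEtale A L := Algebra.FormallyEtale.comp A F L
  have hex : ∀ i : ι, ∃ D' : Derivation K L L,
      ∀ a : A, D' (algebraMap A L a) = algebraMap A L (pderiv i a) :=
    fun i => exists_derivation (pderiv i)
  choose D hD using hex
  have htower : IsScalarTower ℚ K L := by infer_instance
  refine ⟨L, inferInstance, hc, inferInstance, inferInstance, fun i => algebraMap A L (X i),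
    fun i => (D i).restrictScalars ℚ, ?_, ?_, ?_⟩
  · rw [algebraicIndependent_iff_injective_aeval]
    have : (aeval (fun i => algebraMap A L (X i)) : MvPolynomial ι K →ₐ[K] L) =
        IsScalarTower.toAlgHom K A L := by
      apply MvPolynomial.algHom_ext
      intro i
      rw [aeval_X]
      rfl
    rw [this]
    exact hinj
  · intro i j
    show D i (algebraMap A L (X j)) = _
    rw [hD, pderiv_X]
    by_cases hij : i = j
    · subst hij
      rw [Pi.single_eq_same, if_pos rfl, map_one]
    · rw [Pi.single_eq_of_ne (Ne.symm hij), if_neg hij, map_zero]
  · intro i a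
    show D i (algebraMap K L a) = 0
    exact (D i).map_algebraMap a

end Pool.Agent.TH167.SM
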