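import Pool.Agent.TH167.SM.Gene2
import Pool.Agent.TH167.SM.Spr

set_option autoImplicit false

/-!
# The charts in families
-/

namespace Pool.Agent.TH167.SM

open MvPolynomial Pool.Agent.W609 Pool.Agent.W609.CR Pool.Agent.TH167.SH Pool.Agent.TH167.TT
  Pool.Agent.TH167.DD Pool.Agent.H248R5 Pool.Agent.H248R6 Pool.Agent.W641.CR

/-- The chart over a ring. -/
noncomputable def chartR {S : Type} [CommRing S] (p v y : Fin 2 → S) :
    MvPolynomial (Fin 3) S →ₐ[S] MvPolynomial (Fin 2) S :=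
  aeval ![C (p 0) + X 0 * (C (v 0) + C (y 0) * X 1), C (p 1) + X 0 * (C (v 1) + C (y 1) * X 1), 1]

theorem chartR_field {K : Type} [Field K] (p v y : Fin 2 → K) : chartR p v y = chart p v y := rfl

theorem chartR_map {S T : Type} [CommRing S] [CommRing T] (φ : S →+* T) (p v y : Fin 2 → S)
    (f : MvPolynomial (Fin 3) S) :
    map φ (chartR p v y f) =
      chartR (fun a => φ (p a)) (fun a => φ (v a)) (fun a => φ (y a)) (map φ f) := by
  have : (map φ).comp (chartR p v y : MvPolynomial (Fin 3) S →+* MvPolynomial (Fin 2) S) =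
      (chartR (fun a => φ (p a)) (fun a => φ (v a)) (fun a => φ (y a)) :
        MvPolynomial (Fin 3) T →+* MvPolynomial (Fin 2) T).comp (map φ) := by
    apply MvPolynomial.ringHom_ext
    · intro c
      simp [chartR, algHom_C]
    · intro i
      fin_cases i <;> simp [chartR]
  exact RingHom.congr_fun this f

/-- The three coefficients of the chart which decide smoothness. -/
noncomputable def c3e (m : ℕ) (k : Fin 3) : Fin 2 →₀ ℕ :=
  Finsupp.single 0 m + (![0, Finsupp.single 0 1, Finsupp.single 1 1] : Fin 3 → (Fin 2 →₀ ℕ)) k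

theorem smooth_coef {K : Type} [Field K] {F H : MvPolynomial (Fin 2) K} {m : ℕ}
    (hH : F = X 0 ^ m * H) :
    (eval 0 H ≠ 0 ∨ ∃ a, eval 0 (pderiv a H) ≠ 0) ↔ ¬ ∀ k, coeff (c3e m k) F = 0 := by
  classical
  have e : ∀ G : MvPolynomial (Fin 2) K, eval 0 G = coeff 0 G := by
    intro G
    rw [← constantCoeff_eq, MvPolynomial.eval_zero]
  have e1 : ∀ a, eval 0 (pderiv a H) = coeff (Finsupp.single a 1) H := by
    intro a
    rw [e, MvPolynomial.coeff_pderiv]
    simp
  have hc : ∀ α, coeff (Finsupp.single 0 m + α) F = coeff α H := by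
    intro α
    rw [hH, X_pow_eq_monomial, coeff_monomial_mul, one_mul]
  have h0 : coeff (c3e m 0) F = coeff 0 H := hc 0
  have h1 : coeff (c3e m 1) F = coeff (Finsupp.single 0 1) H := hc _
  have h2 : coeff (c3e m 2) F = coeff (Finsupp.single 1 1) H := hc _
  rw [Fin.forall_fin_succ, Fin.forall_fin_succ, Fin.forall_fin_succ]
  have h0' : coeff (c3e m 0) F = 0 ↔ coeff 0 H = 0 := by rw [h0]
  have h1' : coeff (c3e m (Fin.succ 0)) F = 0 ↔ coeff (Finsupp.single 0 1) H = 0 := by
    rw [← h1]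
    rfl
  have h2' : coeff (c3e m (Fin.succ (Fin.succ 0))) F = 0 ↔ coeff (Finsupp.single 1 1) H = 0 := by
    rw [← h2]
    rfl
  rw [h0', h1', h2', e]
  have h3 : (∃ a, eval 0 (pderiv a H) ≠ 0) ↔
      (coeff (Finsupp.single 0 1) H ≠ 0 ∨ coeff (Finsupp.single 1 1) H ≠ 0) := by
    simp only [e1]
    constructor
    · rintro ⟨a, ha⟩
      fin_cases a
      · exact Or.inl ha
      · exact Or.inr ha
    · rintro (h | h)
      · exact ⟨0, h⟩
      · exact ⟨1, h⟩
  rw [h3]
  have h4 : (∀ i : Fin 0, coeff (c3e m i.succ.succ.succ) F = 0) := fun i => i.elim0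
  tauto

end Pool.Agent.TH167.SM
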