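import Pool.Agent.TH167.SM.Hom

set_option autoImplicit false

/-!
# The anticanonical degree on nine of the points
-/

namespace Pool.Agent.TH167.SM

open MvPolynomial Pool.Agent.W609 Pool.Agent.W609.CR Pool.Agent.TH167.SH Pool.Agent.TH167.TT
  Pool.Agent.TH167.DD

theorem van_pow {K : Type} [Field K] {v : Fin 3 → K} {f : MvPolynomial (Fin 3) K}
    (h : Van v 1 f) (m : ℕ) : Van v m (f ^ m) := by
  unfold Van at *
  rw [pow_one] at h
  exact Ideal.pow_mem_pow h m

/-- The multiples of the cubic through nine generic points. -/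
theorem nine_eq {K : Type} [Field K] [CharZero K] {r e m : ℕ} {u : Fin (r + 4) → ℕ}
    {T : Finset (Fin (r + 4))} {P : Fin (r + 4) → Fin 2 → K}
    (hP : AlgebraicIndependent ℚ (fun ij : Fin (r + 4) × Fin 2 => P ij.1 ij.2))
    {G : MvPolynomial (Fin 3) K} (hG : Irreducible G) (hGe : G.IsHomogeneous e)
    (hord : ∀ j, Ord (aff (P j)) (u j) G)
    (hSc : (Finset.univ.filter fun j => 2 < u j).card ≤ 9) (hT : T.card = 9)
    (hm : ∀ j ∈ T, u j = m) (he : e = 3 * m) : m = 1 := by
  classical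
  obtain ⟨h1, h2⟩ := prime9 hSc (fun j hj => by
    rw [Finset.mem_filter] at hj
    push Not at hj
    exact hj (Finset.mem_univ j)) hP hG hGe hord
  have he0 := deg_pos hG hGe
  -- the other multiplicities vanish
  have s1 : ∑ j, (u j : ℤ) = 9 * m + ∑ j ∈ Finset.univ.filter (fun j => j ∉ T), (u j : ℤ) := by
    rw [← Finset.sum_filter_add_sum_filter_not Finset.univ (fun j => j ∈ T)]
    congr 1
    rw [Finset.filter_mem_eq_inter, Finset.univ_inter, Finset.sum_congr rfl (g := fun _ => (m : ℤ))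
      (fun j hj => by rw [hm j hj]), Finset.sum_const, hT]
    simp
  have s2 : ∑ j, (u j : ℤ) * u j = 9 * (m * m) +
      ∑ j ∈ Finset.univ.filter (fun j => j ∉ T), (u j : ℤ) * u j := by
    rw [← Finset.sum_filter_add_sum_filter_not Finset.univ (fun j => j ∈ T)]
    congr 1
    rw [Finset.filter_mem_eq_inter, Finset.univ_inter,
      Finset.sum_congr rfl (g := fun _ => (m : ℤ) * m)
      (fun j hj => by rw [hm j hj]), Finset.sum_const, hT]
    simp
  have s3 : 0 ≤ ∑ j ∈ Finset.univ.filter (fun j => j ∉ T), (u j : ℤ) :=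
    Finset.sum_nonneg fun j _ => by positivity
  have hu : ∀ j, j ∉ T → u j = 0 := by
    by_contra hcon
    push Not at hcon
    obtain ⟨j, hj, hj0⟩ := hcon
    have s4 : (1 : ℤ) ≤ ∑ j ∈ Finset.univ.filter (fun j => j ∉ T), (u j : ℤ) * u j := by
      have : (u j : ℤ) * u j ≤ ∑ j ∈ Finset.univ.filter (fun j => j ∉ T), (u j : ℤ) * u j :=
        Finset.single_le_sum (f := fun j => (u j : ℤ) * u j) (fun i _ => by positivity)
          (Finset.mem_filter.2 ⟨Finset.mem_univ j, hj⟩)
      have h3 : (1 : ℤ) ≤ u j := by exact_mod_cast Nat.one_le_iff_ne_zero.2 hj0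
      nlinarith
    have hneg : ip e u e u < 0 := by
      unfold ip
      rw [s2, he]
      push_cast
      nlinarith
    have h3 := (h2 hneg).2
    unfold kk at h3
    rw [s1, he] at h3
    push_cast at h3
    omega
  have huT : u = fun j => if j ∈ T then m else 0 := by
    funext j
    by_cases hj : j ∈ T
    · rw [if_pos hj, hm j hj]
    · rw [if_neg hj, hu j hj]
  -- the dimension
  have hdim : Module.finrank K ↥(VS (fun j => aff (P j)) u e) = 1 := by
    have h3 := two_chi e u
    have h4 : ip e u e u = 0 := by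
      unfold ip
      rw [s2, Finset.sum_eq_zero (fun j hj => by
        rw [hu j (Finset.mem_filter.1 hj).2]
        simp), he]
      push_cast
      ring
    have h5 : kk e u = 0 := by
      unfold kk
      rw [s1, Finset.sum_eq_zero (fun j hj => by
        rw [hu j (Finset.mem_filter.1 hj).2]
        simp), he]
      push_cast
      ring
    omega
  -- the cubic
  obtain ⟨g, hg, hg0⟩ : ∃ g ∈ VS (fun j => aff (P j)) (fun j => if j ∈ T then 1 else 0) 3,
      g ≠ 0 := by
    refine exists_mem ?_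
    have h3 := le_dim (fun j => if j ∈ T then 1 else 0) P 3
    rw [← vs_eq_forms] at h3
    have h4 : ∑ j, ((if j ∈ T then 1 else 0) + 1).choose 2 = 9 := by
      have h6 : ∀ j : Fin (r + 4), ((if j ∈ T then 1 else 0) + 1).choose 2 =
          if j ∈ T then 1 else 0 := by
        intro j
        by_cases hj : j ∈ T
        · rw [if_pos hj]
          rfl
        · rw [if_neg hj]
          rfl
      rw [Finset.sum_congr rfl fun j _ => h6 j, Finset.sum_ite_mem, Finset.univ_inter,
        Finset.sum_const, hT]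
      rfl
    have h5 : (3 + 2).choose 2 = 10 := rfl
    omega
  rw [mem_VS] at hg
  have hgm : g ^ m ∈ VS (fun j => aff (P j)) u e := by
    rw [mem_VS, he]
    refine ⟨hg.1.pow m, fun j => ?_⟩
    have h3 := hg.2 j
    rw [huT]
    show Van _ (if j ∈ T then m else 0) _
    by_cases hj : j ∈ T
    · rw [if_pos hj] at h3 ⊢
      exact van_pow h3 m
    · rw [if_neg hj]
      exact van_zero _ _
  have hGm : G ∈ VS (fun j => aff (P j)) u e := (mem_VS _ _ _ _).2 ⟨hGe, fun j => (hord j).1⟩
  obtain ⟨c, hc⟩ := (finrank_eq_one_iff_of_nonzero' (⟨G, hGm⟩ : ↥(VS (fun j => aff (P j)) u e))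
    (fun h => hG.ne_zero (congrArg Subtype.val h))).1 hdim ⟨g ^ m, hgm⟩
  have hc' : c • G = g ^ m := congrArg Subtype.val hc
  have hc0 : c ≠ 0 := by
    rintro rfl
    rw [zero_smul] at hc'
    exact pow_ne_zero m hg0 hc'.symm
  have hirr : Irreducible (g ^ m) := by
    rw [← hc', smul_eq_C_mul]
    have hu : IsUnit (C c : MvPolynomial (Fin 3) K) := (isUnit_iff_ne_zero.2 hc0).map C
    exact (irreducible_isUnit_mul hu).2 hG
  by_contra hm1
  exact (not_irreducible_pow hm1) hirr

/-- The anticanonical degree on at most nine points is positive, except for the cubic. -/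
theorem cub {K : Type} [Field K] [CharZero K] {r e : ℕ} {u : Fin (r + 4) → ℕ}
    {T : Finset (Fin (r + 4))} {P : Fin (r + 4) → Fin 2 → K}
    (hP : AlgebraicIndependent ℚ (fun ij : Fin (r + 4) × Fin 2 => P ij.1 ij.2))
    {G : MvPolynomial (Fin 3) K} (hG : Irreducible G) (hGe : G.IsHomogeneous e)
    (hord : ∀ j, Ord (aff (P j)) (u j) G)
    (hSc : (Finset.univ.filter fun j => 2 < u j).card ≤ 9) (hT : T.card ≤ 9)
    (hex : ¬ (T.card = 9 ∧ ∀ j ∈ T, u j = 1)) : ∑ j ∈ T, u j < 3 * e := by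
  classical
  obtain ⟨h1, h2⟩ := prime9 hSc (fun j hj => by
    rw [Finset.mem_filter] at hj
    push Not at hj
    exact hj (Finset.mem_univ j)) hP hG hGe hord
  have he0 := deg_pos hG hGe
  have hsq : ∑ j ∈ T, u j ^ 2 ≤ e ^ 2 + 1 := by
    have h3 : -1 ≤ ip e u e u := by
      by_contra hcon
      push Not at hcon
      have := (h2 (by omega)).1
      omega
    unfold ip at h3
    have h4 : ∑ j ∈ T, u j ^ 2 ≤ ∑ j, u j ^ 2 :=
      Finset.sum_le_sum_of_subset (Finset.subset_univ T)
    have h5 : ((∑ j, u j ^ 2 : ℕ) : ℤ) = ∑ j, (u j : ℤ) * u j := by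
      push_cast
      exact Finset.sum_congr rfl fun j _ => by ring
    have h6 : ((∑ j, u j ^ 2 : ℕ) : ℤ) ≤ (e : ℤ) * e + 1 := by
      rw [h5]
      linarith
    have h7 : ((∑ j, u j ^ 2 : ℕ) : ℤ) ≤ ((e ^ 2 + 1 : ℕ) : ℤ) := by
      push_cast at h6 ⊢
      linarith [sq (e : ℤ)]
    exact h4.trans (by exact_mod_cast h7)
  have hle : ∑ j ∈ T, u j ≤ ∑ j ∈ T, u j ^ 2 := Finset.sum_le_sum fun j _ => by
    rw [sq]
    exact Nat.le_mul_self _
  have hcs : (∑ j ∈ T, u j) ^ 2 ≤ T.card * ∑ j ∈ T, u j ^ 2 := sq_sum_le_card_mul_sum_sq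
  rcases Nat.lt_or_ge e 3 with he3 | he3
  · interval_cases e <;> omega
  by_contra hcon
  push Not at hcon
  have hA : (3 * e) ^ 2 ≤ (∑ j ∈ T, u j) ^ 2 := Nat.pow_le_pow_left hcon 2
  have hT9 : T.card = 9 := by
    by_contra hne
    have h8 : T.card ≤ 8 := by omega
    have : T.card * ∑ j ∈ T, u j ^ 2 ≤ 8 * (e ^ 2 + 1) := Nat.mul_le_mul h8 hsq
    nlinarith
  have hB : ∑ j ∈ T, u j = 3 * e := by
    by_contra hne
    have h9 : 3 * e + 1 ≤ ∑ j ∈ T, u j := by omega
    have h10 : (3 * e + 1) ^ 2 ≤ (∑ j ∈ T, u j) ^ 2 := Nat.pow_le_pow_left h9 2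
    rw [hT9] at hcs
    have : 9 * ∑ j ∈ T, u j ^ 2 ≤ 9 * (e ^ 2 + 1) := Nat.mul_le_mul le_rfl hsq
    nlinarith
  -- the deviations
  have hdev : ∑ j ∈ T, (3 * (u j : ℤ) - e) ^ 2 = 9 * ((∑ j ∈ T, u j ^ 2 : ℕ) : ℤ) - 9 * e ^ 2 := by
    have h3 : ∀ j, (3 * (u j : ℤ) - e) ^ 2 = 9 * (u j : ℤ) ^ 2 - 6 * e * u j + e ^ 2 := by
      intro j
      ring
    rw [Finset.sum_congr rfl fun j _ => h3 j, Finset.sum_add_distrib, Finset.sum_sub_distrib,
      ← Finset.mul_sum, ← Finset.mul_sum, Finset.sum_const, hT9]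
    have h4 : ∑ j ∈ T, (u j : ℤ) = 3 * e := by exact_mod_cast hB
    rw [h4]
    push_cast
    ring
  have hdev0 : ∑ j ∈ T, (3 * (u j : ℤ) - e) = 0 := by
    rw [Finset.sum_sub_distrib, ← Finset.mul_sum, Finset.sum_const, hT9]
    have h4 : ∑ j ∈ T, (u j : ℤ) = 3 * e := by exact_mod_cast hB
    rw [h4]
    push_cast
    ring
  have hdev9 : ∑ j ∈ T, (3 * (u j : ℤ) - e) ^ 2 ≤ 9 := by
    rw [hdev]
    have : ((∑ j ∈ T, u j ^ 2 : ℕ) : ℤ) ≤ ((e ^ 2 + 1 : ℕ) : ℤ) := by exact_mod_cast hsq
    push_cast at this ⊢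
    linarith
  -- all deviations vanish
  have hall : ∀ j ∈ T, 3 * (u j : ℤ) = e := by
    by_cases h3 : (3 : ℤ) ∣ e
    · -- multiples of three
      by_contra hne
      push Not at hne
      obtain ⟨j, hj, hj2⟩ := hne
      obtain ⟨m, hm⟩ := h3
      have h4 : ∃ i ∈ T, i ≠ j ∧ 3 * (u i : ℤ) ≠ e := by
        by_contra h5
        push Not at h5
        rw [← Finset.add_sum_erase _ _ hj, Finset.sum_eq_zero (s := T.erase j) (fun i hi => by
          rw [h5 i (Finset.mem_of_mem_erase hi) (Finset.ne_of_mem_erase hi), sub_self]),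
          add_zero, sub_eq_zero] at hdev0
        exact hj2 hdev0
      obtain ⟨i, hi, hij, hi2⟩ := h4
      have h6 : ∀ k, 3 * (u k : ℤ) ≠ e → 9 ≤ (3 * (u k : ℤ) - e) ^ 2 := by
        intro k hk
        rw [hm] at hk ⊢
        have h7 : (3 * (u k : ℤ) - 3 * m) ^ 2 = 9 * ((u k : ℤ) - m) ^ 2 := by ring
        rw [h7]
        have h8 : (u k : ℤ) - m ≠ 0 := by
          intro h
          apply hk
          linarith
        have h9 : 0 < ((u k : ℤ) - m) ^ 2 := by positivity
        linarith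
      have h10 : (3 * (u j : ℤ) - e) ^ 2 + (3 * (u i : ℤ) - e) ^ 2 ≤
          ∑ j ∈ T, (3 * (u j : ℤ) - e) ^ 2 := by
        rw [← Finset.add_sum_erase _ _ hj]
        have := Finset.single_le_sum (f := fun j => (3 * (u j : ℤ) - e) ^ 2) (s := T.erase j)
          (fun k _ => by positivity) (Finset.mem_erase.2 ⟨hij, hi⟩)
        linarith
      have h11 := h6 j hj2
      have h12 := h6 i hi2
      linarith
    · exfalso
      have h4 : ∀ j, 1 ≤ (3 * (u j : ℤ) - e) ^ 2 := by
        intro j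
        have h5 : 3 * (u j : ℤ) - e ≠ 0 := by
          intro h
          exact h3 ⟨u j, by linarith⟩
        have : 0 < (3 * (u j : ℤ) - e) ^ 2 := by positivity
        omega
      have h5 : ∀ j ∈ T, (3 * (u j : ℤ) - e) ^ 2 = 1 := by
        by_contra hne
        push Not at hne
        obtain ⟨j, hj, hj2⟩ := hne
        have h6 : 2 ≤ (3 * (u j : ℤ) - e) ^ 2 := by
          have := h4 j
          omega
        have h7 : ((T.erase j).card : ℤ) ≤ ∑ i ∈ T.erase j, (3 * (u i : ℤ) - e) ^ 2 := by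
          rw [Finset.card_eq_sum_ones]
          push_cast
          exact Finset.sum_le_sum fun i _ => h4 i
        rw [Finset.card_erase_of_mem hj, hT9] at h7
        rw [← Finset.add_sum_erase _ _ hj] at hdev9
        push_cast at h7
        linarith
      have h6 : ∀ i ∈ T, ∀ j ∈ T, 3 * (u i : ℤ) - e = 3 * (u j : ℤ) - e := by
        intro i hi j hj
        have key : ∀ x : ℤ, x ^ 2 = 1 → x = 1 ∨ x = -1 := by
          intro x hx
          have h9 : (x - 1) * (x + 1) = 0 := by
            have : (x - 1) * (x + 1) = x ^ 2 - 1 := by ring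
            rw [this, hx]
            ring
          rcases mul_eq_zero.1 h9 with h | h
          · left; omega
          · right; omega
        rcases key _ (h5 i hi) with a | a <;> rcases key _ (h5 j hj) with b | b <;> omega
      obtain ⟨j, hj⟩ : T.Nonempty := by
        rw [← Finset.card_pos]
        omega
      rw [Finset.sum_congr rfl (fun i hi => h6 i hi j hj), Finset.sum_const, hT9] at hdev0
      have h7 := h5 j hj
      have h8 : 3 * (u j : ℤ) - e = 0 := by
        simpa using hdev0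
      rw [h8] at h7
      norm_num at h7
  obtain ⟨j, hj⟩ : T.Nonempty := by
    rw [← Finset.card_pos]
    omega
  have hm : ∀ i ∈ T, u i = u j := by
    intro i hi
    have a := hall i hi
    have b := hall j hj
    omega
  have h3 := nine_eq hP hG hGe hord hSc hT9 hm (by
    have := hall j hj
    omega)
  apply hex
  exact ⟨hT9, fun i hi => (hm i hi).trans h3⟩

end Pool.Agent.TH167.SM
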