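import Pool.Agent.TH167.SM.Near
import Pool.Agent.TH167.SM.Cub
import Pool.Agent.TH167.TT.Conv9

set_option autoImplicit false

/-!
# Components of rigid reduced curves
-/

namespace Pool.Agent.TH167.SM

open MvPolynomial Pool.Agent.W609 Pool.Agent.W609.CR Pool.Agent.TH167.SH Pool.Agent.TH167.TT
  Pool.Agent.TH167.DD

section Abstract

variable {R : Type} [CommRing R] [IsDomain R]

theorem o_unit {o : R → ℕ} {F : R}
    (hmul : ∀ a b, a * b ∣ F → a ≠ 0 → b ≠ 0 → o (a * b) = o a + o b) {u : R}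
    (hu : IsUnit u) : o u = 0 := by
  have h1 := hmul 1 1 (by rw [mul_one]; exact one_dvd F) one_ne_zero one_ne_zero
  rw [mul_one] at h1
  obtain ⟨v, hv⟩ := hu.exists_right_inv
  have hv0 : v ≠ 0 := by
    rintro rfl
    rw [mul_zero] at hv
    exact zero_ne_one hv
  have h2 := hmul u v (by rw [hv]; exact one_dvd F) hu.ne_zero hv0
  rw [hv] at h2
  omega

theorem an1 [WfDvdMonoid R] {o : R → ℕ} {F : R}
    (hmul : ∀ a b, a * b ∣ F → a ≠ 0 → b ≠ 0 → o (a * b) = o a + o b) (f : R) :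
    f ∣ F → f ≠ 0 → 1 ≤ o f → ∃ G, Irreducible G ∧ G ∣ f ∧ 1 ≤ o G := by
  refine WfDvdMonoid.induction_on_irreducible f (fun _ h => absurd rfl h)
    (fun u hu _ _ h1 => ?_) (fun a i ha hi ih hd _ h1 => ?_)
  · rw [o_unit hmul hu] at h1
    omega
  · rw [hmul i a hd hi.ne_zero ha] at h1
    by_cases h2 : 1 ≤ o i
    · exact ⟨i, hi, dvd_mul_right _ _, h2⟩
    · obtain ⟨G, g1, g2, g3⟩ := ih (dvd_of_mul_left_dvd hd) ha (by omega)
      exact ⟨G, g1, g2.mul_left _, g3⟩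

theorem an2 [WfDvdMonoid R] {o : R → ℕ} {F : R}
    (hmul : ∀ a b, a * b ∣ F → a ≠ 0 → b ≠ 0 → o (a * b) = o a + o b) (f : R) :
    f ∣ F → f ≠ 0 → 2 ≤ o f → (∃ G, Irreducible G ∧ G ∣ f ∧ 2 ≤ o G) ∨
      ∃ G1 G2, Irreducible G1 ∧ Irreducible G2 ∧ G1 * G2 ∣ f ∧ 1 ≤ o G1 ∧ 1 ≤ o G2 := by
  refine WfDvdMonoid.induction_on_irreducible f (fun _ h => absurd rfl h)
    (fun u hu _ _ h1 => ?_) (fun a i ha hi ih hd _ h1 => ?_)
  · rw [o_unit hmul hu] at h1
    omega
  · rw [hmul i a hd hi.ne_zero ha] at h1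
    by_cases h2 : 2 ≤ o i
    · exact Or.inl ⟨i, hi, dvd_mul_right _ _, h2⟩
    · by_cases h3 : 1 ≤ o i
      · obtain ⟨G, g1, g2, g3⟩ := an1 hmul a (dvd_of_mul_left_dvd hd) ha (by omega)
        exact Or.inr ⟨i, G, hi, g1, mul_dvd_mul_left i g2, h3, g3⟩
      · rcases ih (dvd_of_mul_left_dvd hd) ha (by omega) with ⟨G, g1, g2, g3⟩ |
          ⟨G1, G2, g1, g2, g3, g4, g5⟩
        · exact Or.inl ⟨G, g1, g2.mul_left _, g3⟩
        · exact Or.inr ⟨G1, G2, g1, g2, g3.mul_left _, g4, g5⟩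

end Abstract

theorem od_ne {K : Type} [Field K] (v : Fin 3 → K) {f : MvPolynomial (Fin 3) K} (hf : f ≠ 0) :
    od v f ≠ ⊤ := by
  unfold od
  rw [Ne, MvPowerSeries.order_eq_top_iff]
  intro h
  apply hf
  have h1 : shift (n := 2) v f = 0 := by
    apply MvPolynomial.coe_injective
    rw [h, MvPolynomial.coe_zero]
  have h2 := shift_shift (n := 2) v f
  rw [h1, map_zero] at h2
  exact h2.symm

/-- The order as a natural number. -/
noncomputable def oq {K : Type} [Field K] (v : Fin 3 → K) (f : MvPolynomial (Fin 3) K) : ℕ :=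
  (od v f).toNat

theorem oq_cast {K : Type} [Field K] (v : Fin 3 → K) {f : MvPolynomial (Fin 3) K} (hf : f ≠ 0) :
    ((oq v f : ℕ) : ℕ∞) = od v f := ENat.natCast_toNat (od_ne v hf)

theorem oq_mul {K : Type} [Field K] (v : Fin 3 → K) {a b : MvPolynomial (Fin 3) K} (ha : a ≠ 0)
    (hb : b ≠ 0) : oq v (a * b) = oq v a + oq v b := by
  have h1 : ((oq v (a * b) : ℕ) : ℕ∞) = ((oq v a + oq v b : ℕ) : ℕ∞) := by
    rw [oq_cast v (mul_ne_zero ha hb), od_mul, Nat.cast_add, oq_cast v ha, oq_cast v hb]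
  exact_mod_cast h1

theorem oq_van {K : Type} [Field K] {v : Fin 3 → K} {f : MvPolynomial (Fin 3) K} (hf : f ≠ 0)
    (m : ℕ) : Van v m f ↔ m ≤ oq v f := by
  rw [van_iff, ← oq_cast v hf]
  exact_mod_cast Iff.rfl

theorem oq_ord {K : Type} [Field K] {v : Fin 3 → K} {f : MvPolynomial (Fin 3) K} (hf : f ≠ 0)
    (m : ℕ) : Ord v m f ↔ oq v f = m := by
  rw [ord_iff, ← oq_cast v hf]
  exact_mod_cast Iff.rfl

/-- Systems with a squarefree member are nonspecial. -/
theorem sq_nonsp {K : Type} [Field K] [CharZero K] {r : ℕ} {P : Fin (r + 4) → Fin 2 → K}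
    (hP : AlgebraicIndependent ℚ (fun ij : Fin (r + 4) × Fin 2 => P ij.1 ij.2)) {d : ℕ}
    {w : Fin (r + 4) → ℕ} (hw : (Finset.univ.filter fun i => 2 < w i).card ≤ 9)
    {f : MvPolynomial (Fin 3) K} (hf : f ∈ VS (fun j => aff (P j)) w d) (hf0 : f ≠ 0)
    (hsq : Squarefree f) : (Module.finrank K ↥(VS (fun j => aff (P j)) w d) : ℤ) = chi d w := by
  by_contra hcon
  have h1 := chi_le_dim P d w
  have h2 : SH.Special P d w := by
    rw [special_iff]
    exact ⟨pos_of_mem hf hf0, lt_of_le_of_ne h1 (Ne.symm hcon)⟩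
  rw [← special_conv, hh9_gen hP d w hw] at h2
  obtain ⟨G, e, u, h3, h4⟩ := mspecial_curve h2
  have h5 := curve_sq_dvd (SH.inj_of_alg hP) h3 h4 (f := f) (by rw [sys_eq]; exact hf)
  have h6 := (minusOne_iff.1 h3)
  rw [pow_two] at h5
  have h7 := hsq G h5
  have h8 : Irreducible G := by
    obtain ⟨a1, -, -⟩ := SH.curve_iff.1 h3.1
    exact a1
  exact h8.not_isUnit h7

/-- The divisors of the generator of a rigid system. -/
theorem comp1 {K : Type} [Field K] [CharZero K] {s : ℕ} {P : Fin s → Fin 2 → K}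
    (hP : AlgebraicIndependent ℚ (fun ij : Fin s × Fin 2 => P ij.1 ij.2)) {d : ℕ}
    {w : Fin s → ℕ} (h1 : Module.finrank K ↥(VS (fun j => aff (P j)) w d) = 1)
    {f : MvPolynomial (Fin 3) K} (hf : f ∈ VS (fun j => aff (P j)) w d) (hf0 : f ≠ 0)
    {G : MvPolynomial (Fin 3) K} (hG : G ∣ f) :
    G.IsHomogeneous G.totalDegree ∧ (∀ j, oq (aff (P j)) G ≤ w j) ∧
      Module.finrank K ↥(VS (fun j => aff (P j)) (fun j => oq (aff (P j)) G) G.totalDegree) = 1 := by
  have hfm := (mem_VS _ _ _ _).1 hf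
  obtain ⟨h, rfl⟩ := hG
  have hG0 := left_ne_zero_of_mul hf0
  have hh0 := right_ne_zero_of_mul hf0
  have a1 := Pool.Agent.Chud.homog_of_dvd hfm.1 hf0 (dvd_mul_right G h)
  have a2 := Pool.Agent.Chud.homog_of_dvd hfm.1 hf0 (dvd_mul_left h G)
  have a3 : G.totalDegree + h.totalDegree = d := (a1.mul a2).inj_right hfm.1 hf0
  have a4 : ∀ j, oq (aff (P j)) G + oq (aff (P j)) h = w j := by
    intro j
    rw [← oq_mul _ hG0 hh0]
    exact (oq_ord hf0 _).1 (exact_ord hP h1 hf hf0 j)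
  have hGm : G ∈ VS (fun j => aff (P j)) (fun j => oq (aff (P j)) G) G.totalDegree :=
    (mem_VS _ _ _ _).2 ⟨a1, fun j => (oq_van hG0 _).2 le_rfl⟩
  have hhm : h ∈ VS (fun j => aff (P j)) (fun j => oq (aff (P j)) h) h.totalDegree :=
    (mem_VS _ _ _ _).2 ⟨a2, fun j => (oq_van hh0 _).2 le_rfl⟩
  refine ⟨a1, fun j => by have := a4 j; omega, ?_⟩
  have h2 := mult_le (P := P) (w := fun j => oq (aff (P j)) G) (d := G.totalDegree) hhm hh0
  have h3 := pos_of_mem hGm hG0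
  have e1 : (fun j => oq (aff (P j)) G + oq (aff (P j)) h) = w := funext a4
  rw [e1, a3, h1] at h2
  omega

/-- The numerical data of a component. -/
theorem comp2 {K : Type} [Field K] [CharZero K] {r : ℕ} {P : Fin (r + 4) → Fin 2 → K}
    (hP : AlgebraicIndependent ℚ (fun ij : Fin (r + 4) × Fin 2 => P ij.1 ij.2)) {d : ℕ}
    {w : Fin (r + 4) → ℕ} (hw : (Finset.univ.filter fun i => 2 < w i).card ≤ 9)
    (h1 : Module.finrank K ↥(VS (fun j => aff (P j)) w d) = 1)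
    {f : MvPolynomial (Fin 3) K} (hf : f ∈ VS (fun j => aff (P j)) w d) (hf0 : f ≠ 0)
    (hsq : Squarefree f) {G : MvPolynomial (Fin 3) K} (hG : G ∣ f) :
    chi G.totalDegree (fun j => oq (aff (P j)) G) = 1 := by
  obtain ⟨a1, a2, a3⟩ := comp1 hP h1 hf hf0 hG
  have hG0 := ne_zero_of_dvd_ne_zero hf0 hG
  have h2 := sq_nonsp hP (d := G.totalDegree) (w := fun j => oq (aff (P j)) G) (by
      refine (Finset.card_le_card fun j hj => ?_).trans hw
      rw [Finset.mem_filter] at hj ⊢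
      exact ⟨hj.1, lt_of_lt_of_le hj.2 (a2 j)⟩)
    ((mem_VS _ _ _ _).2 ⟨a1, fun j => (oq_van hG0 _).2 le_rfl⟩) hG0
    (hsq.squarefree_of_dvd hG)
  rw [a3] at h2
  exact_mod_cast h2.symm

/-- Two components are disjoint. -/
theorem comp3 {K : Type} [Field K] [CharZero K] {r : ℕ} {P : Fin (r + 4) → Fin 2 → K}
    (hP : AlgebraicIndependent ℚ (fun ij : Fin (r + 4) × Fin 2 => P ij.1 ij.2)) {d : ℕ}
    {w : Fin (r + 4) → ℕ} (hw : (Finset.univ.filter fun i => 2 < w i).card ≤ 9)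
    (h1 : Module.finrank K ↥(VS (fun j => aff (P j)) w d) = 1)
    {f : MvPolynomial (Fin 3) K} (hf : f ∈ VS (fun j => aff (P j)) w d) (hf0 : f ≠ 0)
    (hsq : Squarefree f) {G1 G2 : MvPolynomial (Fin 3) K} (hG : G1 * G2 ∣ f) :
    G1.totalDegree * G2.totalDegree = ∑ j, oq (aff (P j)) G1 * oq (aff (P j)) G2 := by
  have hG12 := ne_zero_of_dvd_ne_zero hf0 hG
  have hG10 := left_ne_zero_of_mul hG12
  have hG20 := right_ne_zero_of_mul hG12
  have c1 := comp2 hP hw h1 hf hf0 hsq (dvd_of_mul_right_dvd hG)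
  have c2 := comp2 hP hw h1 hf hf0 hsq (dvd_of_mul_left_dvd hG)
  have c3 := comp2 hP hw h1 hf hf0 hsq hG
  have e1 : (G1 * G2).totalDegree = G1.totalDegree + G2.totalDegree :=
    MvPolynomial.totalDegree_mul_of_isDomain hG10 hG20
  have e2 : (fun j => oq (aff (P j)) (G1 * G2)) =
      fun j => oq (aff (P j)) G1 + oq (aff (P j)) G2 := funext fun j => oq_mul _ hG10 hG20
  rw [e1, e2] at c3
  have t1 := two_chi G1.totalDegree (fun j => oq (aff (P j)) G1)
  have t2 := two_chi G2.totalDegree (fun j => oq (aff (P j)) G2)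
  have t3 := two_chi (G1.totalDegree + G2.totalDegree)
    (fun j => oq (aff (P j)) G1 + oq (aff (P j)) G2)
  rw [kk_add] at t3
  have t4 : ip (G1.totalDegree + G2.totalDegree) (fun j => oq (aff (P j)) G1 + oq (aff (P j)) G2)
      (G1.totalDegree + G2.totalDegree) (fun j => oq (aff (P j)) G1 + oq (aff (P j)) G2) =
      ip G1.totalDegree (fun j => oq (aff (P j)) G1) G1.totalDegree (fun j => oq (aff (P j)) G1) +
      2 * ip G1.totalDegree (fun j => oq (aff (P j)) G1) G2.totalDegree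
        (fun j => oq (aff (P j)) G2) +
      ip G2.totalDegree (fun j => oq (aff (P j)) G2) G2.totalDegree
        (fun j => oq (aff (P j)) G2) := by
    unfold ip
    push_cast
    have : ∀ j : Fin (r + 4), ((oq (aff (P j)) G1 : ℤ) + oq (aff (P j)) G2) *
        ((oq (aff (P j)) G1 : ℤ) + oq (aff (P j)) G2) =
        (oq (aff (P j)) G1 : ℤ) * oq (aff (P j)) G1 +
        2 * ((oq (aff (P j)) G1 : ℤ) * oq (aff (P j)) G2) +
        (oq (aff (P j)) G2 : ℤ) * oq (aff (P j)) G2 := fun j => by ring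
    rw [Finset.sum_congr rfl fun j _ => this j, Finset.sum_add_distrib, Finset.sum_add_distrib,
      ← Finset.mul_sum]
    ring
  have t5 : ip G1.totalDegree (fun j => oq (aff (P j)) G1) G2.totalDegree
        (fun j => oq (aff (P j)) G2) = 0 := by
    rw [c3] at t3
    rw [c1] at t1
    rw [c2] at t2
    linarith
  unfold ip at t5
  have t6 : ((G1.totalDegree * G2.totalDegree : ℕ) : ℤ) =
      ((∑ j, oq (aff (P j)) G1 * oq (aff (P j)) G2 : ℕ) : ℤ) := by
    push_cast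
    linarith
  exact_mod_cast t6

end Pool.Agent.TH167.SM
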