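import Pool.Agent.TH167.SM.Hom

set_option autoImplicit false

/-!
# The standard quadratic transformation and infinitely near points
-/

namespace Pool.Agent.TH167.SM

open MvPolynomial Pool.Agent.W609 Pool.Agent.W609.CR Pool.Agent.TH167.SH Pool.Agent.TH167.TT
  Pool.Agent.TH167.DD Pool.Agent.H248R5 Pool.Agent.H248R6 Pool.Agent.W641.CR

/-- The substitution of the standard quadratic transformation. -/
noncomputable def phi (K : Type) [Field K] : MvPolynomial (Fin 3) K →ₐ[K] MvPolynomial (Fin 3) K :=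
  aeval ![X 1 * X 2, X 0 * X 2, X 0 * X 1]

theorem phi_monomial {K : Type} [Field K] {α : Fin 3 →₀ ℕ} {c : K} {e m : ℕ}
    (hα : α 0 + α 1 + α 2 = e) (hm : α 2 + m ≤ e) :
    phi K (monomial α c) = X 2 ^ m *
      monomial ((Finsupp.equivFunOnFinite.symm ![e, e, e - m] : Fin 3 →₀ ℕ) - α) c := by
  have h2 : (X 2 ^ m : MvPolynomial (Fin 3) K) = monomial (Finsupp.single 2 m) 1 := by
    rw [X_pow_eq_monomial]
  rw [h2, monomial_mul, one_mul]
  unfold phi
  rw [aeval_monomial, Finsupp.prod_fintype _ _ (fun i => by simp), Fin.prod_univ_three]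
  have h3 : ∀ (a b c : ℕ), ((X 1 * X 2) ^ a * (X 0 * X 2) ^ b * (X 0 * X 1) ^ c :
      MvPolynomial (Fin 3) K) = X 0 ^ (b + c) * X 1 ^ (a + c) * X 2 ^ (a + b) := by
    intro a b c
    ring
  simp only [Matrix.cons_val_zero, Matrix.cons_val_one, Matrix.cons_val]
  rw [h3, monomial_eq, Finsupp.prod_fintype _ _ (fun i => by simp), Fin.prod_univ_three]
  have eN : ∀ k, (Finsupp.equivFunOnFinite.symm ![e, e, e - m] : Fin 3 →₀ ℕ) k =
    (![e, e, e - m] : Fin 3 → ℕ) k := fun k => rfl
  have e0 : (Finsupp.single (2 : Fin 3) m +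
      ((Finsupp.equivFunOnFinite.symm ![e, e, e - m] : Fin 3 →₀ ℕ) - α)) 0 = α 1 + α 2 := by
    rw [Finsupp.add_apply, Finsupp.tsub_apply, Finsupp.single_eq_of_ne (by decide), eN]
    show 0 + (e - α 0) = _
    omega
  have e1 : (Finsupp.single (2 : Fin 3) m +
      ((Finsupp.equivFunOnFinite.symm ![e, e, e - m] : Fin 3 →₀ ℕ) - α)) 1 = α 0 + α 2 := by
    rw [Finsupp.add_apply, Finsupp.tsub_apply, Finsupp.single_eq_of_ne (by decide), eN]
    show 0 + (e - α 1) = _
    omega
  have e2 : (Finsupp.single (2 : Fin 3) m +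
      ((Finsupp.equivFunOnFinite.symm ![e, e, e - m] : Fin 3 →₀ ℕ) - α)) 2 = α 0 + α 1 := by
    rw [Finsupp.add_apply, Finsupp.tsub_apply, Finsupp.single_eq_same, eN]
    show m + (e - m - α 2) = _
    omega
  rw [e0, e1, e2]
  rfl

theorem phi_rev {K : Type} [Field K] {G : MvPolynomial (Fin 3) K} {e m : ℕ}
    (hG : G.IsHomogeneous e) (hm : ∀ α ∈ G.support, α 2 + m ≤ e) :
    phi K G = X 2 ^ m *
      rev (n := 2) (Finsupp.equivFunOnFinite.symm ![e, e, e - m] : Fin 3 →₀ ℕ) G := by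
  unfold rev
  conv_lhs => rw [← G.support_sum_monomial_coeff]
  rw [map_sum, Finset.mul_sum]
  refine Finset.sum_congr rfl fun α hα => ?_
  have h1 := homog_degree (n := 2) hG hα
  rw [sum3] at h1
  exact phi_monomial h1 (hm α hα)

theorem ord_zero {K : Type} [Field K] {v : Fin 3 → K} {G : MvPolynomial (Fin 3) K} :
    Ord v 0 G ↔ eval v G ≠ 0 := by
  constructor
  · intro h h0
    exact h.2 (TT.van_one.2 h0)
  · intro h
    exact ⟨van_zero _ _, fun h1 => h (TT.van_one.1 h1)⟩

/-- The quadratic transform of an irreducible form with base points `bs 0`, `bs 1` outside of the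
curve and `bs 2`. -/
theorem crem {K : Type} [Field K] {e m : ℕ} {G : MvPolynomial (Fin 3) K} (hirr : Irreducible G)
    (hG : G.IsHomogeneous e) (h0 : eval (bs 0) G ≠ 0) (h1 : eval (bs 1) G ≠ 0)
    (h2 : Ord (bs 2) m G) :
    ∃ G' : MvPolynomial (Fin 3) K, Irreducible G' ∧ G'.IsHomogeneous (2 * e - m) ∧ m ≤ e ∧
      Ord (bs 0) (e - m) G' ∧ Ord (bs 1) (e - m) G' ∧ Ord (bs 2) e G' ∧
      (∀ (u : Fin 3 → K) (k : ℕ), (∀ l, u l ≠ 0) → Ord u k G → Ord (fun l => (u l)⁻¹) k G') ∧
      phi K G = X 2 ^ m * G' := by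
  have hnd : ∀ i, ¬ (X i : MvPolynomial (Fin 3) K) ∣ G := by
    intro i hi
    obtain ⟨H, hH⟩ := hi
    fin_cases i
    · apply h1
      rw [hH, map_mul, eval_X]
      have : (bs 1 : Fin 3 → K) 0 = 0 := by simp [bs]
      change (bs 1 : Fin 3 → K) 0 * _ = 0
      rw [this, zero_mul]
    · apply h0
      rw [hH, map_mul, eval_X]
      have : (bs 0 : Fin 3 → K) 1 = 0 := by simp [bs]
      change (bs 0 : Fin 3 → K) 1 * _ = 0
      rw [this, zero_mul]
    · apply h0
      rw [hH, map_mul, eval_X]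
      have : (bs 0 : Fin 3 → K) 2 = 0 := by simp [bs]
      change (bs 0 : Fin 3 → K) 2 * _ = 0
      rw [this, zero_mul]
  have hE0 := ord_exists hG 0 (ord_zero.2 h0)
  have hE1 := ord_exists hG 1 (ord_zero.2 h1)
  have hE2 := ord_exists hG 2 h2
  have hme : m ≤ e := by
    obtain ⟨a, ha, hak⟩ := hE2.2
    omega
  set N : Fin 3 →₀ ℕ := Finsupp.equivFunOnFinite.symm ![e, e, e - m] with hNdef
  have hN0 : N 0 = e := by simp [hNdef]
  have hN1 : N 1 = e := by simp [hNdef]
  have hN2 : N 2 = e - m := by simp [hNdef]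
  have hE : ∀ k, (∀ a ∈ G.support, a k ≤ N k) ∧ ∃ a ∈ G.support, a k = N k := by
    intro k
    fin_cases k
    · refine ⟨fun a ha => ?_, ?_⟩
      · have := hE0.1 a ha
        show a 0 ≤ N 0
        omega
      · obtain ⟨a, ha, hak⟩ := hE0.2
        refine ⟨a, ha, ?_⟩
        show a 0 = N 0
        omega
    · refine ⟨fun a ha => ?_, ?_⟩
      · have := hE1.1 a ha
        show a 1 ≤ N 1
        omega
      · obtain ⟨a, ha, hak⟩ := hE1.2
        refine ⟨a, ha, ?_⟩
        show a 1 = N 1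
        omega
    · refine ⟨fun a ha => ?_, ?_⟩
      · have := hE2.1 a ha
        show a 2 ≤ N 2
        omega
      · obtain ⟨a, ha, hak⟩ := hE2.2
        refine ⟨a, ha, ?_⟩
        show a 2 = N 2
        omega
  have hNle : ∀ a ∈ G.support, a ≤ N := fun a ha k => (hE k).1 a ha
  have hNdeg : ∀ k, N k = degreeOf k G := by
    intro k
    rw [MvPolynomial.degreeOf_eq_sup]
    obtain ⟨a, ha, hak⟩ := (hE k).2
    apply le_antisymm
    · have h1 : a k ≤ G.support.sup fun b => b k := Finset.le_sup (f := fun b => b k) ha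
      omega
    · exact Finset.sup_le fun b hb => (hE k).1 b hb
  obtain ⟨hirr', -, hdeg', hrr⟩ := t_star K G N hirr hnd hNdeg
  set G' := rev (n := 2) N G with hG'def
  have hNsum : N.degree = e + e + (e - m) := by
    rw [sum3, hN0, hN1, hN2]
  have hhom : G'.IsHomogeneous (2 * e - m) := by
    have h1 := rev_homog (n := 2) hG hNle
    have h2 : N.degree - e = 2 * e - m := by
      rw [hNsum]
      omega
    rw [← h2]
    exact h1
  have hN'le : ∀ a ∈ G'.support, a ≤ N := by
    intro a ha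
    obtain ⟨b, hb, rfl⟩ := mem_support_rev (n := 2) ha
    exact tsub_le_self
  have hne' : G'.support.Nonempty := by
    rw [MvPolynomial.support_nonempty]
    exact hirr'.ne_zero
  have hex : ∀ k, ∃ a ∈ G'.support, a k = N k := by
    intro k
    have h1 := hdeg' k
    rw [MvPolynomial.degreeOf_eq_sup] at h1
    obtain ⟨a, ha, hak⟩ := Finset.exists_mem_eq_sup _ hne' (fun b : Fin 3 →₀ ℕ => b k)
    refine ⟨a, ha, ?_⟩
    rw [← h1]
    exact hak.symm
  have key : ∀ k (c : ℕ), c + N k = 2 * e - m → Ord (bs k) c G' := by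
    intro k c hc
    apply ord_of_exists hhom k
    · intro a ha
      have := hN'le a ha k
      omega
    · obtain ⟨a, ha, hak⟩ := hex k
      exact ⟨a, ha, by omega⟩
  refine ⟨G', hirr', hhom, hme, key 0 _ (by omega), key 1 _ (by omega), key 2 _ (by omega), ?_, ?_⟩
  · intro u k hu hk
    refine ⟨?_, ?_⟩
    · exact rev_mem (n := 2) hNle u hu k hk.1
    · intro hv
      apply hk.2
      have h1 := rev_mem (n := 2) hN'le (fun k => (u k)⁻¹) (fun k => inv_ne_zero (hu k)) (k + 1) hv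
      simp only [inv_inv] at h1
      rw [hrr] at h1
      exact h1
  · exact phi_rev hG hE2.1

end Pool.Agent.TH167.SM
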