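import Pool.Agent.TH167.DD.PrimeA

set_option autoImplicit false

/-!
# Derivations and the multiplicities at arbitrary points
-/

namespace Pool.Agent.TH167.SM

open MvPolynomial Pool.Agent.W609 Pool.Agent.W609.CR Pool.Agent.TH167.SH Pool.Agent.TH167.TT
  Pool.Agent.TH167.DD Pool.Agent.H248R5 Pool.Agent.H248R6

/-- A derivation of the coefficients lowers the order at any point at most by one. -/
theorem der_van {K : Type} [Field K] [CharZero K] (D : Derivation ℚ K K) {v : Fin 3 → K} :
    ∀ (m : ℕ) {g : MvPolynomial (Fin 3) K}, Van v (m + 1) g → Van v m (dG D g) := by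
  intro m
  induction m with
  | zero =>
    intro g _
    exact van_zero _ _
  | succ m ih =>
    intro g hg
    unfold Van at hg ⊢
    rw [pow_succ' _ (m + 1)] at hg
    refine Submodule.mul_induction_on hg (fun a ha b hb => ?_) fun x y hx hy => ?_
    · rw [dG_mul]
      refine Ideal.add_mem _ ?_ ?_
      · exact Ideal.mul_mem_left _ _ hb
      · rw [pow_succ']
        exact Ideal.mul_mem_mul ha (ih hb)
    · rw [dG_add]
      exact Ideal.add_mem _ hx hy

/-- A derivation which kills the coordinates of a point keeps the order there. -/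
theorem der_const {K : Type} [Field K] [CharZero K] (D : Derivation ℚ K K) {v : Fin 3 → K}
    (hv : ∀ l, D (v l) = 0) :
    ∀ (m : ℕ) {g : MvPolynomial (Fin 3) K}, Van v m g → Van v m (dG D g) := by
  intro m
  induction m with
  | zero =>
    intro g _
    exact van_zero _ _
  | succ m ih =>
    intro g hg
    unfold Van at hg ⊢
    rw [pow_succ'] at hg ⊢
    refine Submodule.mul_induction_on hg (fun a ha b hb => ?_) fun x y hx hy => ?_
    · rw [dG_mul]
      refine Ideal.add_mem _ ?_ (Ideal.mul_mem_mul ha (ih hb))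
      refine Ideal.mul_mem_mul ?_ hb
      rw [RingHom.mem_ker] at ha ⊢
      have h1 := der_eval D v a
      rw [ha, map_zero] at h1
      simp only [hv, mul_zero, Finset.sum_const_zero, add_zero] at h1
      exact h1.symm
    · rw [dG_add]
      exact Ideal.add_mem _ hx hy

/-- The spread of the double points, in any space which contains the derivatives. -/
theorem tlem_W {K : Type} [Field K] [CharZero K] {ι : Type} [Fintype ι] [DecidableEq ι] {P : ι → Fin 2 → K}
    {w : ι → ℕ} {d : ℕ} {g : MvPolynomial (Fin 3) K} (hgh : g.IsHomogeneous d) (hg0 : g ≠ 0)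
    (hgsq : Squarefree g) {μ : Fin 3 →₀ ℕ} (hμ : coeff μ g = 1) (S : Finset (ι))
    (hS : ∀ j, j ∉ S → w j ≤ 2) (hord : ∀ j, j ∉ S → Ord (aff (P j)) (w j) g)
    (D : ι × Fin 2 → Derivation ℚ K K)
    (hD : ∀ x i b, D x (P i b) = if i = x.1 ∧ b = x.2 then 1 else 0)
    (W : Submodule K (MvPolynomial (Fin 3) K)) [Module.Finite K W] (hgW : g ∈ W)
    (hDW : ∀ x : ι × Fin 2, x.1 ∉ S → w x.1 ≠ 0 → dG (D x) g ∈ W) :
    1 + 2 * (Finset.univ.filter fun j => j ∉ S ∧ w j = 2).card +
        (Finset.univ.filter fun j => j ∉ S ∧ w j = 1).card ≤ Module.finrank K W := by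
  classical
  let J : Finset (ι × Fin 2) := Finset.univ.filter fun x => x.1 ∉ S ∧ w x.1 ≠ 0
  have hJ : ∀ x, x ∈ J ↔ x.1 ∉ S ∧ w x.1 ≠ 0 := fun x => by
    show x ∈ Finset.univ.filter (fun x : ι × Fin 2 => x.1 ∉ S ∧ w x.1 ≠ 0) ↔ _
    rw [Finset.mem_filter]
    simp
  have hDx : ∀ x ∈ J, dG (D x) g ∈ W := fun x hx => hDW x ((hJ x).1 hx).1 ((hJ x).1 hx).2
  let Psi : (K × (J → K)) →ₗ[K] MvPolynomial (Fin 3) K :=
    { toFun := fun q => q.1 • g + ∑ x : J, q.2 x • dG (D x) g
      map_add' := fun q q' => by
        simp only [Prod.fst_add, Prod.snd_add, Pi.add_apply, add_smul, Finset.sum_add_distrib]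
        abel
      map_smul' := fun t q => by
        simp only [Prod.smul_fst, Prod.smul_snd, Pi.smul_apply, smul_eq_mul, mul_smul,
          RingHom.id_apply, smul_add, Finset.smul_sum] }
  have hPsi : ∀ q, Psi q = q.1 • g + ∑ x : J, q.2 x • dG (D x) g := fun q => rfl
  have hrange : LinearMap.range Psi ≤ W := by
    rintro _ ⟨q, rfl⟩
    rw [hPsi]
    refine Submodule.add_mem _ (Submodule.smul_mem _ _ hgW) ?_
    exact Submodule.sum_mem _ fun x _ => Submodule.smul_mem _ _ (hDx x x.2)
  have d1 := Submodule.finrank_mono hrange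
  have d2 := LinearMap.finrank_range_add_finrank_ker Psi
  have d3 : Module.finrank K (K × (J → K)) = 1 + J.card := by
    rw [Module.finrank_prod, Module.finrank_self, Module.finrank_fintype_fun_eq_card,
      Fintype.card_coe]
  -- the kernel
  have hker : ∀ q ∈ LinearMap.ker Psi, q.1 = 0 ∧
      dG (∑ x ∈ Finset.univ, q.2 x • D x.1) g = 0 := by
    intro q hq
    rw [LinearMap.mem_ker, hPsi] at hq
    have e1 := congrArg (coeff μ) hq
    rw [coeff_add, coeff_smul, hμ, coeff_sum, Finset.sum_eq_zero (fun x _ => by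
      rw [coeff_smul, coeff_dG, hμ, (D x).map_one_eq_zero, smul_zero]), coeff_zero, add_zero,
      smul_eq_mul, mul_one] at e1
    refine ⟨e1, ?_⟩
    rw [e1, zero_smul, zero_add] at hq
    ext α
    rw [coeff_dG, sum_der, ← hq, coeff_sum]
    exact Finset.sum_congr rfl fun x _ => by rw [coeff_smul, coeff_dG, smul_eq_mul]
  have hDq : ∀ (a : J → K) (x : J), (∑ y ∈ Finset.univ, a y • D y.1) (P x.1.1 x.1.2) = a x := by
    intro a x
    rw [sum_der, Finset.sum_eq_single x]
    · rw [hD, if_pos ⟨rfl, rfl⟩, mul_one]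
    · intro y _ hy
      rw [hD, if_neg, mul_zero]
      intro h
      exact hy (Subtype.ext (Prod.ext h.1.symm h.2.symm))
    · intro h
      exact absurd (Finset.mem_univ _) h
  have hgrad : ∀ j : ι, ∃ b : Fin 2, j ∉ S → w j = 1 →
      eval (aff (P j)) (pderiv (Fin.castSucc b) g) ≠ 0 := by
    intro j
    by_cases hj : j ∉ S ∧ w j = 1
    · have h2 := hord j hj.1
      rw [hj.2] at h2
      obtain ⟨b, hb⟩ := grad_ne hgh h2
      exact ⟨b, fun _ _ => hb⟩
    · exact ⟨0, fun h h' => absurd ⟨h, h'⟩ hj⟩
  choose β hβ using hgrad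
  let T1 : Finset (ι) := Finset.univ.filter fun j => j ∉ S ∧ w j = 1
  have hT1 : ∀ j, j ∈ T1 ↔ j ∉ S ∧ w j = 1 := fun j => by
    show j ∈ Finset.univ.filter (fun j => j ∉ S ∧ w j = 1) ↔ _
    rw [Finset.mem_filter]
    simp
  have hT1J : ∀ (j : T1) (b : Fin 2), ((j.1, b) : ι × Fin 2) ∈ J := by
    intro j b
    have := (hT1 j.1).1 j.2
    rw [hJ]
    exact ⟨this.1, by rw [this.2]; exact one_ne_zero⟩
  let κ : (K × (J → K)) →ₗ[K] (T1 → K) :=
    { toFun := fun q j => q.2 ⟨(j.1, 1 - β j.1), hT1J j _⟩
      map_add' := fun q q' => rfl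
      map_smul' := fun t q => rfl }
  have hinj : Function.Injective (κ.comp (LinearMap.ker Psi).subtype) := by
    rw [← LinearMap.ker_eq_bot, LinearMap.ker_eq_bot']
    rintro ⟨q, hq⟩ hq2
    obtain ⟨e1, e2⟩ := hker q hq
    have hq3 : ∀ j : T1, q.2 ⟨(j.1, 1 - β j.1), hT1J j _⟩ = 0 := fun j => congrFun hq2 j
    apply Subtype.ext
    apply Prod.ext
    · exact e1
    · funext x
      show q.2 x = 0
      obtain ⟨hx1, hx2⟩ := (hJ x.1).1 x.2
      have hx3 := hS x.1.1 hx1
      rcases Nat.lt_or_ge (w x.1.1) 2 with hlt | hge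
      · -- a simple point
        have hw1 : w x.1.1 = 1 := by omega
        have hx4 : x.1.1 ∈ T1 := (hT1 _).2 ⟨hx1, hw1⟩
        have hxb : x.1.2 = β x.1.1 ∨ x.1.2 = 1 - β x.1.1 := by
          generalize x.1.2 = b
          generalize β x.1.1 = b'
          fin_cases b <;> fin_cases b' <;> simp
        have hz := hq3 ⟨x.1.1, hx4⟩
        rcases hxb with hxb | hxb
        · have h2 := der_eval (∑ y ∈ Finset.univ, q.2 y • D y.1) (aff (P x.1.1)) g
          have h3 : eval (aff (P x.1.1)) g = 0 := by
            have := (hord x.1.1 hx1).1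
            rw [hw1] at this
            exact (TT.van_one).1 this
          have haff : ∀ b : Fin 2, aff (P x.1.1) (Fin.castSucc b) = P x.1.1 b := by
            intro b
            fin_cases b <;> rfl
          rw [e2, h3, map_zero, map_zero, zero_add, Fin.sum_univ_castSucc] at h2
          have h4 : (∑ y ∈ Finset.univ, q.2 y • D y.1) (aff (P x.1.1) (Fin.last 2)) = 0 := by
            have : aff (P x.1.1) (Fin.last 2) = 1 := rfl
            rw [this]
            exact Derivation.map_one_eq_zero _
          rw [h4, mul_zero, add_zero] at h2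
          have h5 : ∀ b : Fin 2, (∑ y ∈ Finset.univ, q.2 y • D y.1)
              (aff (P x.1.1) (Fin.castSucc b)) = q.2 ⟨(x.1.1, b), hT1J ⟨x.1.1, hx4⟩ b⟩ := by
            intro b
            rw [haff]
            exact hDq q.2 ⟨(x.1.1, b), hT1J ⟨x.1.1, hx4⟩ b⟩
          simp only [h5] at h2
          rw [Finset.sum_eq_single (β x.1.1)] at h2
          · have h6 := hβ x.1.1 hx1 hw1
            have h7 := (mul_eq_zero.1 h2.symm).resolve_left h6
            have h8 : x = ⟨(x.1.1, β x.1.1), hT1J ⟨x.1.1, hx4⟩ _⟩ :=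
              Subtype.ext (Prod.ext rfl hxb)
            rw [h8]
            exact h7
          · intro b _ hb
            have h9 : b = 1 - β x.1.1 := by
              revert hb
              generalize β x.1.1 = b'
              fin_cases b <;> fin_cases b' <;> simp
            subst h9
            rw [hz, mul_zero]
          · intro h
            exact absurd (Finset.mem_univ _) h
        · have h8 : x = ⟨(x.1.1, 1 - β x.1.1), hT1J ⟨x.1.1, hx4⟩ _⟩ :=
            Subtype.ext (Prod.ext rfl hxb)
          rw [h8]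
          exact hz
      · -- a double point
        have h2 : Van (aff (P x.1.1)) 2 g := van_mono hge (hord x.1.1 hx1).1
        have h3 := sing_const (∑ y ∈ Finset.univ, q.2 y • D y.1) hgh hg0 hgsq e2
          (p := P x.1.1) ((TT.van_one).1 (van_mono (by omega) h2)) (fun l => pd_mem h2 l) x.1.2
        rw [hDq q.2 x] at h3
        exact h3
  have d4 : Module.finrank K ↥(LinearMap.ker Psi) ≤ T1.card := by
    have := LinearMap.finrank_le_finrank_of_injective hinj
    rwa [Module.finrank_fintype_fun_eq_card, Fintype.card_coe] at this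
  have d5 : J.card = 2 * (T1.card + (Finset.univ.filter fun j => j ∉ S ∧ w j = 2).card) := by
    have e1 : J = (T1 ∪ (Finset.univ.filter fun j => j ∉ S ∧ w j = 2)) ×ˢ
        (Finset.univ : Finset (Fin 2)) := by
      ext x
      rw [hJ, Finset.mem_product, Finset.mem_union, hT1, Finset.mem_filter]
      constructor
      · rintro ⟨a1, a2⟩
        have := hS _ a1
        refine ⟨?_, Finset.mem_univ _⟩
        rcases Nat.lt_or_ge (w x.1) 2 with h | h
        · left
          exact ⟨a1, by omega⟩
        · right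
          exact ⟨Finset.mem_univ _, a1, by omega⟩
      · rintro ⟨a1 | a1, -⟩
        · exact ⟨a1.1, by omega⟩
        · exact ⟨a1.2.1, by omega⟩
    rw [e1, Finset.card_product, Finset.card_union_of_disjoint, Finset.card_univ,
      Fintype.card_fin]
    · ring
    · rw [Finset.disjoint_left]
      intro j hj hj2
      have a1 := ((hT1 j).1 hj).2
      have a2 := (Finset.mem_filter.1 hj2).2.2
      omega
  have e3 : T1.card = (Finset.univ.filter fun j => j ∉ S ∧ w j = 1).card := rfl
  omega

end Pool.Agent.TH167.SM
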