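import Pool.Agent.TH167.SM.Big

set_option autoImplicit false

/-!
# Adding generic points over a larger field
-/

namespace Pool.Agent.TH167.SM

open MvPolynomial Pool.Agent.W609 Pool.Agent.W609.CR Pool.Agent.TH167.SH Pool.Agent.TH167.TT
  Pool.Agent.TH167.DD Pool.Agent.H248R5 Pool.Agent.H248R6 Pool.Agent.W641.CR

/-- Points of `K` followed by points of `L`. -/
def PPt {K L : Type} [Field K] [Field L] [Algebra K L] {s m : ℕ} (P : Fin s → Fin 2 → K)
    (Q : Fin m → Fin 2 → L) : Fin (s + m) → Fin 2 → L :=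
  fun j => Sum.elim (fun i a => algebraMap K L (P i a)) Q (finSumFinEquiv.symm j)

/-- Their multiplicities. -/
def wwt {s m : ℕ} (w : Fin s → ℕ) (u : Fin m → ℕ) : Fin (s + m) → ℕ :=
  fun j => Sum.elim w u (finSumFinEquiv.symm j)

theorem PPt_inl {K L : Type} [Field K] [Field L] [Algebra K L] {s m : ℕ} (P : Fin s → Fin 2 → K)
    (Q : Fin m → Fin 2 → L) (i : Fin s) :
    PPt P Q (finSumFinEquiv (Sum.inl i)) = fun a => algebraMap K L (P i a) := by
  unfold PPt
  rw [Equiv.symm_apply_apply]
  rfl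

theorem PPt_inr {K L : Type} [Field K] [Field L] [Algebra K L] {s m : ℕ} (P : Fin s → Fin 2 → K)
    (Q : Fin m → Fin 2 → L) (i : Fin m) :
    PPt P Q (finSumFinEquiv (Sum.inr i)) = Q i := by
  unfold PPt
  rw [Equiv.symm_apply_apply]
  rfl

theorem wwt_inl {s m : ℕ} (w : Fin s → ℕ) (u : Fin m → ℕ) (i : Fin s) :
    wwt w u (finSumFinEquiv (Sum.inl i)) = w i := by
  unfold wwt
  rw [Equiv.symm_apply_apply]
  rfl

theorem wwt_inr {s m : ℕ} (w : Fin s → ℕ) (u : Fin m → ℕ) (i : Fin m) :
    wwt w u (finSumFinEquiv (Sum.inr i)) = u i := by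
  unfold wwt
  rw [Equiv.symm_apply_apply]
  rfl

theorem forall_fin {s m : ℕ} {p : Fin (s + m) → Prop} :
    (∀ j, p j) ↔ (∀ i, p (finSumFinEquiv (Sum.inl i))) ∧ ∀ i, p (finSumFinEquiv (Sum.inr i)) := by
  constructor
  · exact fun h => ⟨fun i => h _, fun i => h _⟩
  · rintro ⟨h1, h2⟩ j
    obtain ⟨x, rfl⟩ := finSumFinEquiv.surjective j
    rcases x with i | i
    · exact h1 i
    · exact h2 i

theorem mem_PPt {K L : Type} [Field K] [Field L] [Algebra K L] {s m : ℕ} (P : Fin s → Fin 2 → K)
    (Q : Fin m → Fin 2 → L) (w : Fin s → ℕ) (u : Fin m → ℕ) (d : ℕ) (G : MvPolynomial (Fin 3) L) :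
    G ∈ VS (fun j => aff (PPt P Q j)) (wwt w u) d ↔
      G ∈ VS (fun j => aff (fun a => algebraMap K L (P j a))) w d ∧
        ∀ k, Van (aff (Q k)) (u k) G := by
  rw [mem_VS, mem_VS, forall_fin]
  simp only [PPt_inl, PPt_inr, wwt_inl, wwt_inr]
  tauto

theorem VS_PPt {K L : Type} [Field K] [Field L] [Algebra K L] {s m : ℕ} (P : Fin s → Fin 2 → K)
    (Q : Fin m → Fin 2 → L) (w : Fin s → ℕ) (d : ℕ) :
    VS (fun j => aff (PPt P Q j)) (wwt w (fun _ => 0)) d =
      VS (fun j => aff (fun a => algebraMap K L (P j a))) w d := by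
  ext G
  rw [mem_PPt]
  exact ⟨fun h => h.1, fun h => ⟨h, fun k => van_zero _ _⟩⟩

theorem PPt_ind {K L : Type} [Field K] [CharZero K] [Field L] [CharZero L] [Algebra K L] {s m : ℕ}
    {P : Fin s → Fin 2 → K}
    (hP : AlgebraicIndependent ℚ (fun ij : Fin s × Fin 2 => P ij.1 ij.2))
    {x : Option (Fin m × Fin 2) → L} (hx : AlgebraicIndependent K x) :
    AlgebraicIndependent ℚ (fun ij : Fin (s + m) × Fin 2 =>
      PPt P (fun k a => x (some (k, a))) ij.1 ij.2) := by
  have h1 := hP.sumElim_comp hx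
  let f : Fin (s + m) × Fin 2 → Option (Fin m × Fin 2) ⊕ (Fin s × Fin 2) := fun ij =>
    Sum.elim (fun i => Sum.inr (i, ij.2)) (fun k => Sum.inl (some (k, ij.2)))
      (finSumFinEquiv.symm ij.1)
  have hf : Function.Injective f := by
    rintro ⟨j, b⟩ ⟨j', b'⟩ h
    obtain ⟨y, rfl⟩ := finSumFinEquiv.surjective j
    obtain ⟨y', rfl⟩ := finSumFinEquiv.surjective j'
    simp only [f, Equiv.symm_apply_apply] at h
    rcases y with i | i <;> rcases y' with i' | i' <;> simp_all
  have h2 := h1.comp f hf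
  have e : (fun ij : Fin (s + m) × Fin 2 => PPt P (fun k a => x (some (k, a))) ij.1 ij.2) =
      Sum.elim x (algebraMap K L ∘ fun ij : Fin s × Fin 2 => P ij.1 ij.2) ∘ f := by
    funext ⟨j, b⟩
    obtain ⟨y, rfl⟩ := finSumFinEquiv.surjective j
    rcases y with i | i
    · simp only [f, Function.comp_apply, Equiv.symm_apply_apply, PPt_inl]
      rfl
    · simp only [f, Function.comp_apply, Equiv.symm_apply_apply, PPt_inr]
      rfl
  rw [e]
  exact h2

theorem alg_ind_map {K L : Type} [Field K] [CharZero K] [Field L] [CharZero L] [Algebra K L] {s : ℕ}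
    {P : Fin s → Fin 2 → K}
    (hP : AlgebraicIndependent ℚ (fun ij : Fin s × Fin 2 => P ij.1 ij.2)) :
    AlgebraicIndependent ℚ (fun ij : Fin s × Fin 2 => algebraMap K L (P ij.1 ij.2)) := by
  have h : IsScalarTower ℚ K L := inferInstance
  exact hP.map' (f := IsScalarTower.toAlgHom ℚ K L) (algebraMap K L).injective

/-- The dimension does not depend on the field. -/
theorem finrank_ext {K L : Type} [Field K] [CharZero K] [Field L] [CharZero L] {s : ℕ}
    {P : Fin s → Fin 2 → K} {P' : Fin s → Fin 2 → L}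
    (hP : AlgebraicIndependent ℚ (fun ij : Fin s × Fin 2 => P ij.1 ij.2))
    (hP' : AlgebraicIndependent ℚ (fun ij : Fin s × Fin 2 => P' ij.1 ij.2))
    (w : Fin s → ℕ) (d : ℕ) :
    Module.finrank L ↥(VS (fun j => aff (P' j)) w d) =
      Module.finrank K ↥(VS (fun j => aff (P j)) w d) := by
  obtain ⟨g, F, hF, h⟩ := dim_gen w d
  rw [h K P (evP_ne hP hF), h L P' (evP_ne hP' hF)]

/-- Simple generic points lower the dimension by one. -/
theorem finrank_simple {L : Type} [Field L] [CharZero L] {K : Type} [Field K] [CharZero K]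
    [Algebra K L] {s m : ℕ}
    {P : Fin s → Fin 2 → K} {Q : Fin m → Fin 2 → L}
    (hP : AlgebraicIndependent ℚ (fun ij : Fin (s + m) × Fin 2 => PPt P Q ij.1 ij.2))
    (w : Fin s → ℕ) (d : ℕ) {N : ℕ}
    (hN : Module.finrank L ↥(VS (fun j => aff (PPt P Q j)) (wwt w (fun _ => 0)) d) = N) :
    ∀ i, i ≤ N → i ≤ m → Module.finrank L ↥(VS (fun j => aff (PPt P Q j))
      (wwt w (fun k : Fin m => if k.1 < i then 1 else 0)) d) = N - i := by
  classical
  intro i
  induction i with
  | zero =>
    intro _ _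
    simp only [Nat.not_lt_zero, if_false, Nat.sub_zero]
    exact hN
  | succ i ih =>
    intro h1 h2
    have h3 := ih (by omega) (by omega)
    obtain ⟨j, hj⟩ : ∃ j : Fin (s + m), j = finSumFinEquiv (Sum.inr (⟨i, by omega⟩ : Fin m)) :=
      ⟨_, rfl⟩
    have hw0 : (wwt w (fun k : Fin m => if k.1 < i then 1 else 0)) j = 0 := by
      rw [hj, wwt_inr, if_neg (lt_irrefl _)]
    have hup : Function.update (wwt w (fun k : Fin m => if k.1 < i then 1 else 0)) j 1 =
        wwt w (fun k : Fin m => if k.1 < i + 1 then 1 else 0) := by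
      funext l
      obtain ⟨y, rfl⟩ := finSumFinEquiv.surjective l
      rcases y with a | a
      · rw [Function.update_of_ne, wwt_inl, wwt_inl]
        rw [hj]
        intro hcon
        exact absurd (finSumFinEquiv.injective hcon) (by simp)
      · by_cases ha : a.1 = i
        · have hl : finSumFinEquiv (Sum.inr a) = j := by
            rw [hj]
            congr 2
            exact Fin.ext ha
          rw [hl, Function.update_self, ← hl, wwt_inr, if_pos (by omega)]
        · rw [Function.update_of_ne, wwt_inr, wwt_inr]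
          · by_cases hlt : a.1 < i
            · rw [if_pos hlt, if_pos (by omega)]
            · rw [if_neg hlt, if_neg (by omega)]
          · rw [hj]
            intro hcon
            have := finSumFinEquiv.injective hcon
            simp only [Sum.inr.injEq] at this
            exact ha (congrArg Fin.val this)
    have h4 := simple_drop hP hw0 (d := d) (by omega)
    have h5 := simple_le (PPt P Q) hw0 d
    rw [hup] at h4 h5
    omega

end Pool.Agent.TH167.SM
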