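import Pool.Agent.TH167.SM.Der

set_option autoImplicit false

/-!
# Prime curves with affine singular points outside of the assigned points
-/

namespace Pool.Agent.TH167.SM

open MvPolynomial Pool.Agent.W609 Pool.Agent.W609.CR Pool.Agent.TH167.SH Pool.Agent.TH167.TT
  Pool.Agent.TH167.DD Pool.Agent.H248R5 Pool.Agent.H248R6

/-- The adjoint conditions are independent, for a general index set. -/
theorem adjI {K : Type} [Field K] [CharZero K] [IsAlgClosed K] {ι : Type} [Fintype ι]
    [DecidableEq ι] {G : MvPolynomial (Fin 3) K} {d : ℕ} (hG : Irreducible G)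
    (hGd : G.IsHomogeneous d) (hd : 2 ≤ d) {P : ι → Fin 2 → K} (hP : Function.Injective P)
    {w : ι → ℕ} (hw : ∀ i, Ord (aff (P i)) (w i) G) (S : Finset ι) (hS : ∑ j ∈ S, w j < 3 * d) :
    Module.finrank K ↥(VS (fun j => aff (P j)) (fun j => if j ∈ S then w j else w j - 1) d) +
      ∑ j, (if j ∈ S then (w j + 1).choose 2 else (w j).choose 2) ≤ (d + 2).choose 2 := by
  classical
  let e : Fin (Fintype.card ι) ≃ ι := (Fintype.equivFin ι).symm
  have h1 := adj hG hGd hd (P := fun i => P (e i)) (hP.comp e.injective) (w := fun i => w (e i))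
    (fun i => hw (e i)) (S.map e.symm.toEmbedding) (by
      rw [Finset.sum_map]
      simpa using hS)
  have hm : ∀ i, i ∈ S.map e.symm.toEmbedding ↔ e i ∈ S := by
    intro i
    rw [Finset.mem_map]
    constructor
    · rintro ⟨a, ha, rfl⟩
      simpa using ha
    · intro h
      exact ⟨e i, h, by simp⟩
  have h2 : VS (fun i => aff (P (e i))) (al (S.map e.symm.toEmbedding) fun i => w (e i)) d =
      VS (fun j => aff (P j)) (fun j => if j ∈ S then w j else w j - 1) d := by
    rw [← Pool.Agent.W150.CR.VS_reindex e (fun j => aff (P j))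
      (fun j => if j ∈ S then w j else w j - 1) d]
    congr 1
    funext i
    unfold al
    by_cases hi : e i ∈ S
    · rw [if_pos hi, if_pos ((hm i).2 hi)]
    · rw [if_neg hi, if_neg (fun h => hi ((hm i).1 h))]
  rw [h2] at h1
  have h3 : ∑ i, (if i ∈ S.map e.symm.toEmbedding then (w (e i) + 1).choose 2
      else (w (e i)).choose 2) = ∑ j, (if j ∈ S then (w j + 1).choose 2 else (w j).choose 2) := by
    rw [← Equiv.sum_comp e]
    refine Finset.sum_congr rfl fun i _ => ?_
    by_cases hi : e i ∈ S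
    · rw [if_pos hi, if_pos ((hm i).2 hi)]
    · rw [if_neg hi, if_neg (fun h => hi ((hm i).1 h))]
  rw [h3] at h1
  exact h1

theorem vs_fin' {K : Type} [Field K] {ι : Type} (v : ι → Fin 3 → K) (w : ι → ℕ) (d : ℕ) :
    Module.Finite K ↥(VS v w d) := by
  have hfin : Module.Finite K ↥(homogeneousSubmodule (Fin 3) K d) :=
    Module.Finite.iff_fg.2 (homogeneousSubmodule_fg _ _ d)
  exact Submodule.finiteDimensional_of_le inf_le_left

theorem der_rat {K : Type} [Field K] [CharZero K] (D : Derivation ℚ K K) (c : ℚ) :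
    D (c : K) = 0 := by
  have : (c : K) = algebraMap ℚ K c := (eq_ratCast (algebraMap ℚ K) c).symm
  rw [this]
  exact D.map_algebraMap c

/-- A lower bound for the Euler characteristic of a prime curve with a point of multiplicity
`μ`: generic points, rational points and a further point. -/
theorem chi_aff {K : Type} [Field K] [CharZero K] [IsAlgClosed K] {ι κ : Type} [Fintype ι]
    [DecidableEq ι] [Fintype κ] [DecidableEq κ] {e : ℕ} {w : ι → ℕ} {u : κ → ℕ} {S : Finset ι}
    (hS : ∀ j, j ∉ S → w j ≤ 2) (hsum : ∑ j ∈ S, w j + ∑ k, u k < 3 * e) {P : ι → Fin 2 → K}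
    (hP : AlgebraicIndependent ℚ (fun ij : ι × Fin 2 => P ij.1 ij.2)) {R : κ → Fin 2 → K}
    (hR : ∀ k b, ∃ c : ℚ, R k b = (c : K)) (hRi : Function.Injective R) (hPR : ∀ j k, P j ≠ R k)
    {G : MvPolynomial (Fin 3) K} (hG : Irreducible G) (hGe : G.IsHomogeneous e) (he : 2 ≤ e)
    (hord : ∀ j, Ord (aff (P j)) (w j) G) (hordR : ∀ k, Ord (aff (R k)) (u k) G)
    {q : Fin 2 → K} (hq : ∀ j, q ≠ P j) (hqR : ∀ k, q ≠ R k) {μ : ℕ} (hμ : Ord (aff q) μ G) :
    1 + μ.choose 2 + ∑ j, (w j + 1).choose 2 + ∑ k, (u k + 1).choose 2 ≤ (e + 2).choose 2 := by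
  classical
  have hPi : Function.Injective P := by
    intro i j hij
    have h1 := hP.injective (a₁ := (i, 0)) (a₂ := (j, 0)) (congrFun hij 0)
    exact (Prod.mk.inj h1).1
  let Ph : Option (ι ⊕ κ) → Fin 2 → K := fun x => x.elim q (Sum.elim P R)
  let wh : Option (ι ⊕ κ) → ℕ := fun x => x.elim μ (Sum.elim w u)
  let Sh : Finset (Option (ι ⊕ κ)) := Finset.univ.filter fun x =>
    x.elim False (Sum.elim (fun j => j ∈ S) (fun _ => True))
  have m0 : (none : Option (ι ⊕ κ)) ∉ Sh := by
    intro h
    exact (Finset.mem_filter.1 h).2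
  have m1 : ∀ j, (some (Sum.inl j) : Option (ι ⊕ κ)) ∈ Sh ↔ j ∈ S := by
    intro j
    show _ ∈ Finset.univ.filter _ ↔ _
    rw [Finset.mem_filter]
    exact ⟨fun h => h.2, fun h => ⟨Finset.mem_univ _, h⟩⟩
  have m2 : ∀ k, (some (Sum.inr k) : Option (ι ⊕ κ)) ∈ Sh := by
    intro k
    show _ ∈ Finset.univ.filter _
    rw [Finset.mem_filter]
    exact ⟨Finset.mem_univ _, trivial⟩
  have hPh : Function.Injective Ph := by
    rintro (_ | (j | k)) (_ | (j' | k')) h
    · rfl
    · exact absurd h (hq j')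
    · exact absurd h (hqR k')
    · exact absurd h.symm (hq j)
    · exact congrArg _ (congrArg _ (hPi h))
    · exact absurd h (hPR j k')
    · exact absurd h.symm (hqR k)
    · exact absurd h.symm (hPR j' k)
    · exact congrArg _ (congrArg _ (hRi h))
  have hwh : ∀ x, Ord (aff (Ph x)) (wh x) G := by
    rintro (_ | (j | k))
    · exact hμ
    · exact hord j
    · exact hordR k
  have hSsum : ∑ x ∈ Sh, wh x = ∑ j ∈ S, w j + ∑ k, u k := by
    have e1 := Finset.sum_ite_mem Finset.univ Sh wh
    rw [Finset.univ_inter] at e1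
    have e2 := Finset.sum_ite_mem Finset.univ S w
    rw [Finset.univ_inter] at e2
    rw [← e1, ← e2, Fintype.sum_option, if_neg m0, zero_add, Fintype.sum_sum_type]
    congr 1
    · refine Finset.sum_congr rfl fun j _ => ?_
      by_cases hj : j ∈ S
      · rw [if_pos hj, if_pos ((m1 j).2 hj)]
        rfl
      · rw [if_neg hj, if_neg (fun h => hj ((m1 j).1 h))]
    · refine Finset.sum_congr rfl fun k _ => ?_
      rw [if_pos (m2 k)]
      rfl
  have h1 := adjI hG hGe he hPh hwh Sh (by rw [hSsum]; exact hsum)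
  rw [Fintype.sum_option, if_neg m0, Fintype.sum_sum_type] at h1
  have e1 : ∑ j, (if (some (Sum.inl j) : Option (ι ⊕ κ)) ∈ Sh then (wh (some (Sum.inl j)) + 1).choose 2
      else (wh (some (Sum.inl j))).choose 2) =
      ∑ j, (if j ∈ S then (w j + 1).choose 2 else (w j).choose 2) := by
    refine Finset.sum_congr rfl fun j _ => ?_
    by_cases hj : j ∈ S
    · rw [if_pos hj, if_pos ((m1 j).2 hj)]
      rfl
    · rw [if_neg hj, if_neg (fun h => hj ((m1 j).1 h))]
      rfl
  have e2 : ∑ k, (if (some (Sum.inr k) : Option (ι ⊕ κ)) ∈ Sh then (wh (some (Sum.inr k)) + 1).choose 2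
      else (wh (some (Sum.inr k))).choose 2) = ∑ k, (u k + 1).choose 2 := by
    refine Finset.sum_congr rfl fun k _ => ?_
    rw [if_pos (m2 k)]
    rfl
  rw [e1, e2] at h1
  have e3 : wh none = μ := rfl
  rw [e3] at h1
  -- the space
  obtain ⟨W, hW⟩ : ∃ W, W = VS (fun x => aff (Ph x)) (fun x => if x ∈ Sh then wh x else wh x - 1) e :=
    ⟨_, rfl⟩
  have hWfin : Module.Finite K ↥W := by
    rw [hW]
    exact vs_fin' _ _ _
  have hmem : ∀ f : MvPolynomial (Fin 3) K, f.IsHomogeneous e → Van (aff q) (μ - 1) f →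
      (∀ j, Van (aff (P j)) (if j ∈ S then w j else w j - 1) f) →
      (∀ k, Van (aff (R k)) (u k) f) → f ∈ W := by
    intro f f1 f2 f3 f4
    rw [hW, mem_VS]
    refine ⟨f1, ?_⟩
    rintro (_ | (j | k))
    · rw [if_neg m0]
      exact f2
    · have := f3 j
      by_cases hj : j ∈ S
      · rw [if_pos hj] at this
        rw [if_pos ((m1 j).2 hj)]
        exact this
      · rw [if_neg hj] at this
        rw [if_neg (fun h => hj ((m1 j).1 h))]
        exact this
    · rw [if_pos (m2 k)]
      exact f4 k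
  obtain ⟨ν, hν⟩ := MvPolynomial.ne_zero_iff.1 hG.ne_zero
  obtain ⟨g, hg⟩ : ∃ g, g = C (coeff ν G)⁻¹ * G := ⟨_, rfl⟩
  have hc0 : (coeff ν G)⁻¹ ≠ 0 := inv_ne_zero hν
  have hg1 : coeff ν g = 1 := by rw [hg, coeff_C_mul, inv_mul_cancel₀ hν]
  have hgh : g.IsHomogeneous e := by
    rw [hg]
    exact hGe.C_mul _
  have hg0 : g ≠ 0 := by
    intro h0
    rw [h0, coeff_zero] at hg1
    exact zero_ne_one hg1
  have hGg : G = C (coeff ν G) * g := by
    rw [hg, ← mul_assoc, ← C_mul, mul_inv_cancel₀ hν, C_1, one_mul]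
  have hgv : ∀ (v : Fin 3 → K) (m : ℕ), Van v m g ↔ Van v m G := by
    intro v m
    constructor
    · intro h
      rw [hGg]
      exact Ideal.mul_mem_left _ _ h
    · intro h
      rw [hg]
      exact Ideal.mul_mem_left _ _ h
  have hgsq : Squarefree g := by
    rw [hg]
    have hu : IsUnit (C (coeff ν G)⁻¹ : MvPolynomial (Fin 3) K) :=
      (isUnit_iff_ne_zero.2 hc0).map C
    exact fun x hx => hG.squarefree x (hu.dvd_mul_left.1 hx)
  choose D hD using exists_der _ hP
  have hDx : ∀ (x : ι × Fin 2) i b, D x (P i b) = if i = x.1 ∧ b = x.2 then 1 else 0 := by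
    intro x i b
    split_ifs with h
    · exact (hD x (i, b)).1 (by rw [h.1, h.2])
    · exact (hD x (i, b)).2 (fun h1 => h ⟨by rw [h1], by rw [h1]⟩)
  have h2 := tlem_W hgh hg0 hgsq hg1 S hS (fun j _ => ⟨(hgv _ _).2 (hord j).1,
    fun h => (hord j).2 ((hgv _ _).1 h)⟩) D hDx W (by
      refine hmem g hgh ?_ (fun j => ?_) (fun k => ?_)
      · exact (hgv _ _).2 (van_mono (Nat.sub_le _ _) hμ.1)
      · refine (hgv _ _).2 (van_mono ?_ (hord j).1)
        split_ifs <;> omega
      · exact (hgv _ _).2 (hordR k).1) (by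
      intro x hx1 hx2
      refine hmem _ (dG_homog _ hgh) ?_ (fun j => ?_) (fun k => ?_)
      · rcases Nat.eq_zero_or_pos μ with h0 | h0
        · rw [h0]
          exact van_zero _ _
        · refine der_van _ _ ?_
          rw [Nat.sub_add_cancel h0]
          exact (hgv _ _).2 hμ.1
      · by_cases hj : j = x.1
        · subst hj
          rw [if_neg hx1]
          refine der_van _ _ ?_
          rw [Nat.sub_add_cancel (Nat.pos_of_ne_zero hx2)]
          exact (hgv _ _).2 (hord _).1
        · refine van_mono ?_ (der_const (D x) (v := aff (P j)) ?_ (w j)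
            ((hgv _ _).2 (hord j).1))
          · split_ifs <;> omega
          · intro l
            fin_cases l
            · show D x (P j 0) = 0
              rw [hDx, if_neg (fun h => hj h.1)]
            · show D x (P j 1) = 0
              rw [hDx, if_neg (fun h => hj h.1)]
            · show D x 1 = 0
              exact Derivation.map_one_eq_zero _
      · refine der_const (D x) (v := aff (R k)) ?_ (u k) ((hgv _ _).2 (hordR k).1)
        intro l
        fin_cases l
        · show D x (R k 0) = 0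
          obtain ⟨c, hc⟩ := hR k 0
          rw [hc, der_rat]
        · show D x (R k 1) = 0
          obtain ⟨c, hc⟩ := hR k 1
          rw [hc, der_rat]
        · show D x 1 = 0
          exact Derivation.map_one_eq_zero _)
  have e4 : ∑ j, (w j + 1).choose 2 =
      2 * (Finset.univ.filter fun j => j ∉ S ∧ w j = 2).card +
        (Finset.univ.filter fun j => j ∉ S ∧ w j = 1).card +
      ∑ j, (if j ∈ S then (w j + 1).choose 2 else (w j).choose 2) := by
    rw [Finset.card_filter, Finset.card_filter, Finset.mul_sum, ← Finset.sum_add_distrib,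
      ← Finset.sum_add_distrib]
    refine Finset.sum_congr rfl fun j _ => ?_
    by_cases hj : j ∈ S
    · simp [hj]
    · have := hS j hj
      interval_cases h5 : w j <;> simp [hj]
  rw [← hW] at h1
  omega

end Pool.Agent.TH167.SM
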