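import Pool.Agent.TH167.SM.SqGen

set_option autoImplicit false

/-!
# The generic member of a linear system passes through generic points
-/

namespace Pool.Agent.TH167.SM

open MvPolynomial Pool.Agent.W609 Pool.Agent.W609.CR Pool.Agent.TH167.SH Pool.Agent.TH167.TT
  Pool.Agent.TH167.DD Pool.Agent.H248R5 Pool.Agent.H248R6 Pool.Agent.W641.CR

theorem eval_map' {K L σ : Type} [Field K] [Field L] (φ : K →+* L) (v : σ → K)
    (g : MvPolynomial σ K) : eval (fun l => φ (v l)) (map φ g) = φ (eval v g) := by
  rw [eval_map, ← coe_eval₂Hom]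
  have : (eval₂Hom φ fun l => φ (v l)) = φ.comp (eval v) := by
    apply MvPolynomial.ringHom_ext
    · intro c
      simp
    · intro i
      simp
  rw [this]
  rfl

theorem van_map {K L : Type} [Field K] [Field L] (φ : K →+* L) {v : Fin 3 → K} {m : ℕ}
    {f : MvPolynomial (Fin 3) K} (h : Van v m f) : Van (fun l => φ (v l)) m (map φ f) := by
  unfold Van at *
  have h1 := Ideal.mem_map_of_mem (map φ) h
  rw [Ideal.map_pow] at h1
  refine Ideal.pow_right_mono ?_ m h1
  rw [Ideal.map_le_iff_le_comap]
  intro g hg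
  rw [RingHom.mem_ker] at hg
  rw [Ideal.mem_comap, RingHom.mem_ker, eval_map', hg, map_zero]

theorem aff_map {K L : Type} [Field K] [Field L] (φ : K →+* L) (p : Fin 2 → K) :
    (fun l => φ (aff p l)) = aff (fun a => φ (p a)) := by
  funext l
  fin_cases l <;> simp [aff]

theorem map_VS {K L : Type} [Field K] [Field L] [Algebra K L] {s : ℕ} {P : Fin s → Fin 2 → K}
    {w : Fin s → ℕ} {d : ℕ} {f : MvPolynomial (Fin 3) K} (hf : f ∈ VS (fun j => aff (P j)) w d) :
    map (algebraMap K L) f ∈ VS (fun j => aff (fun a => algebraMap K L (P j a))) w d := by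
  rw [mem_VS] at hf ⊢
  refine ⟨hf.1.map _, fun j => ?_⟩
  rw [← aff_map]
  exact van_map _ (hf.2 j)

/-- Linear independence over a larger field. -/
theorem lin_ind_map {K L : Type} [Field K] [Field L] [Algebra K L] {N : ℕ}
    {b : Fin N → MvPolynomial (Fin 3) K} (hb : LinearIndependent K b) {c : Fin N → L}
    (hc : ∑ j, C (c j) * map (algebraMap K L) (b j) = 0) : c = 0 := by
  classical
  obtain ⟨ν, hν⟩ := exists_minor b hb
  obtain ⟨M, hM⟩ : ∃ M : Matrix (Fin N) (Fin N) K, M = Matrix.of fun i j => coeff (ν i) (b j) :=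
    ⟨_, rfl⟩
  rw [← hM] at hν
  have h1 : (M.map (algebraMap K L)).det ≠ 0 := by
    have := RingHom.map_det (algebraMap K L) M
    rw [RingHom.mapMatrix_apply] at this
    rw [← this]
    exact fun h => hν ((map_eq_zero _).1 h)
  refine Matrix.eq_zero_of_mulVec_eq_zero h1 ?_
  funext i
  have h2 := congrArg (coeff (ν i)) hc
  rw [coeff_sum, coeff_zero] at h2
  simp only [coeff_C_mul, coeff_map] at h2
  rw [Matrix.mulVec, dotProduct, Pi.zero_apply, ← h2]
  refine Finset.sum_congr rfl fun j _ => ?_
  rw [hM, mul_comm]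
  rfl

/-- A form over the larger field is a combination of the basis. -/
theorem expand {K L : Type} [Field K] [CharZero K] [Field L] [CharZero L] [Algebra K L] {s : ℕ}
    {P : Fin s → Fin 2 → K}
    (hP : AlgebraicIndependent ℚ (fun ij : Fin s × Fin 2 => P ij.1 ij.2)) {w : Fin s → ℕ}
    {d N : ℕ} (b : Module.Basis (Fin N) K ↥(VS (fun j => aff (P j)) w d))
    {G : MvPolynomial (Fin 3) L}
    (hG : G ∈ VS (fun j => aff (fun a => algebraMap K L (P j a))) w d) :
    ∃ c : Fin N → L, G = ∑ j, C (c j) * map (algebraMap K L) (b j : MvPolynomial (Fin 3) K) := by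
  classical
  have hli : LinearIndependent K (fun j => (b j : MvPolynomial (Fin 3) K)) :=
    b.linearIndependent.map' (Submodule.subtype _) (Submodule.ker_subtype _)
  obtain ⟨W, hW⟩ : ∃ W : Submodule L (MvPolynomial (Fin 3) L),
      W = VS (fun j => aff (fun a => algebraMap K L (P j a))) w d := ⟨_, rfl⟩
  have hfin : Module.Finite L ↥W := by
    rw [hW]
    exact vs_fin (fun j => aff (fun a => algebraMap K L (P j a))) w d
  have hmemW : ∀ j, map (algebraMap K L) (b j : MvPolynomial (Fin 3) K) ∈ W := by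
    intro j
    rw [hW]
    exact map_VS (b j).2
  obtain ⟨β, hβv⟩ : ∃ β : Fin N → ↥W, ∀ j, (β j : MvPolynomial (Fin 3) L) =
      map (algebraMap K L) (b j : MvPolynomial (Fin 3) K) := ⟨fun j => ⟨_, hmemW j⟩, fun j => rfl⟩
  have hβ : LinearIndependent L β := by
    rw [Fintype.linearIndependent_iff]
    intro c hc
    have h1 : ∑ j, C (c j) * map (algebraMap K L) (b j : MvPolynomial (Fin 3) K) = 0 := by
      have h2 := congrArg Subtype.val hc
      simp only [Submodule.coe_sum, Submodule.coe_smul, Submodule.coe_zero, hβv] at h2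
      rw [← h2]
      exact Finset.sum_congr rfl fun j _ => by rw [smul_eq_C_mul]
    have h2 := lin_ind_map hli h1
    intro i
    rw [h2]
    rfl
  have hcard : Fintype.card (Fin N) = Module.finrank L ↥W := by
    rw [hW, finrank_ext (P' := fun j a => algebraMap K L (P j a)) hP (alg_ind_map hP) w d,
      Module.finrank_eq_card_basis b]
  have hspan := hβ.span_eq_top_of_card_eq_finrank' hcard
  rw [← hW] at hG
  have hmem : (⟨G, hG⟩ : ↥W) ∈ Submodule.span L (Set.range β) := by
    rw [hspan]
    exact Submodule.mem_top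
  obtain ⟨c, hc⟩ := (Submodule.mem_span_range_iff_exists_fun L).1 hmem
  refine ⟨c, ?_⟩
  have h2 := congrArg Subtype.val hc
  simp only [Submodule.coe_sum, Submodule.coe_smul, hβv] at h2
  rw [← h2]
  exact Finset.sum_congr rfl fun j _ => by rw [smul_eq_C_mul]

/-- A smooth point of a curve has a nonzero affine partial derivative. -/
theorem exists_partial {L : Type} [Field L] [CharZero L] {G : MvPolynomial (Fin 3) L} {d : ℕ}
    (hG : G.IsHomogeneous d) {q : Fin 2 → L} (h : Ord (aff q) 1 G) :
    ∃ a : Fin 2, eval (aff q) (pderiv a.castSucc G) ≠ 0 := by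
  by_contra hcon
  push Not at hcon
  have h0 : eval (aff q) G = 0 := van_one.1 h.1
  apply h.2
  refine Pool.Agent.TH167.TT.van_two h0 ?_
  have h1 := congrArg (eval (aff q)) hG.sum_X_mul_pderiv
  rw [Fin.sum_univ_three] at h1
  have c0 := hcon 0
  have c1 := hcon 1
  have e0 : (Fin.castSucc (0 : Fin 2)) = (0 : Fin 3) := rfl
  have e1 : (Fin.castSucc (1 : Fin 2)) = (1 : Fin 3) := rfl
  rw [e0] at c0
  rw [e1] at c1
  simp only [map_add, map_mul, eval_X, c0, c1, mul_zero, zero_add, map_nsmul, h0,
    smul_zero] at h1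
  intro l
  fin_cases l
  · exact c0
  · exact c1
  · simpa [aff] using h1

end Pool.Agent.TH167.SM
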