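import Pool.Agent.TH167.SM.Gene

set_option autoImplicit false

/-!
# The generic member is the unique member through generic points
-/

namespace Pool.Agent.TH167.SM

open MvPolynomial Pool.Agent.W609 Pool.Agent.W609.CR Pool.Agent.TH167.SH Pool.Agent.TH167.TT
  Pool.Agent.TH167.DD Pool.Agent.H248R5 Pool.Agent.H248R6 Pool.Agent.W641.CR

theorem dG_comb {K L : Type} [Field K] [Field L] [CharZero L] [Algebra K L] {N : ℕ}
    {D : Derivation ℚ L L} (hK : ∀ a : K, D (algebraMap K L a) = 0) (c : Fin N → L)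
    (b : Fin N → MvPolynomial (Fin 3) K) :
    dG D (∑ j, C (c j) * map (algebraMap K L) (b j)) =
      ∑ j, C (D (c j)) * map (algebraMap K L) (b j) := by
  ext s
  rw [coeff_dG, coeff_sum, coeff_sum, map_sum]
  refine Finset.sum_congr rfl fun j _ => ?_
  rw [coeff_C_mul, coeff_C_mul, coeff_map, Derivation.leibniz, hK, smul_zero, zero_add, smul_eq_mul,
    mul_comm]

theorem dG_homog {L : Type} [Field L] [CharZero L] (D : Derivation ℚ L L)
    {G : MvPolynomial (Fin 3) L} {d : ℕ} (hG : G.IsHomogeneous d) : (dG D G).IsHomogeneous d := by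
  intro s hs
  rw [coeff_dG] at hs
  apply hG
  intro h0
  rw [h0, map_zero] at hs
  exact hs rfl

theorem gen_member {K : Type} [Field K] [CharZero K] {s : ℕ}
    {P : Fin s → Fin 2 → K}
    (hP : AlgebraicIndependent ℚ (fun ij : Fin s × Fin 2 => P ij.1 ij.2)) {w : Fin s → ℕ}
    {d n : ℕ} (b : Module.Basis (Fin (n + 1)) K ↥(VS (fun j => aff (P j)) w d)) :
    ∃ (L : Type) (_ : Field L) (_ : CharZero L) (_ : Algebra K L) (_ : IsAlgClosed L)
      (Q : Fin (n + 4) → Fin 2 → L) (t : Fin (n + 1) → L) (D : Fin (n + 1) → Derivation ℚ L L),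
      AlgebraicIndependent ℚ (fun ij : Fin (s + (n + 4)) × Fin 2 => PPt P Q ij.1 ij.2) ∧
      (∀ i j, D i (t j) = if i = j then 1 else 0) ∧
      (∀ i (a : K), D i (algebraMap K L a) = 0) ∧
      Module.finrank L ↥(VS (fun j => aff (PPt P Q j)) (wwt w (fun _ => 0)) d) = n + 1 ∧
      Module.finrank L ↥(VS (fun j => aff (PPt P Q j))
        (wwt w (fun k : Fin (n + 4) => if k.1 < n then 1 else 0)) d) = 1 ∧
      (∑ j, C (t j) * map (algebraMap K L) (b j : MvPolynomial (Fin 3) K)) ∈
        VS (fun j => aff (PPt P Q j))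
          (wwt w (fun k : Fin (n + 4) => if k.1 < n then 1 else 0)) d := by
  classical
  obtain ⟨L, i1, i2, i3, i4, x, D, hx, hD, hK⟩ := exists_big K (Option (Fin (n + 4) × Fin 2))
  obtain ⟨Q, hQ⟩ : ∃ Q : Fin (n + 4) → Fin 2 → L, Q = fun k a => x (some (k, a)) := ⟨_, rfl⟩
  have hPQ : AlgebraicIndependent ℚ
      (fun ij : Fin (s + (n + 4)) × Fin 2 => PPt P Q ij.1 ij.2) := by
    rw [hQ]
    exact PPt_ind hP hx
  obtain ⟨ww, hww⟩ : ∃ ww, ww = wwt w (fun k : Fin (n + 4) => if k.1 < n then 1 else 0) :=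
    ⟨_, rfl⟩
  have hli : LinearIndependent K (fun j => (b j : MvPolynomial (Fin 3) K)) :=
    b.linearIndependent.map' (Submodule.subtype _) (Submodule.ker_subtype _)
  have hN : Module.finrank L ↥(VS (fun j => aff (PPt P Q j)) (wwt w (fun _ => 0)) d) = n + 1 := by
    rw [VS_PPt, finrank_ext (P' := fun j a => algebraMap K L (P j a)) hP (alg_ind_map hP) w d,
      Module.finrank_eq_card_basis b, Fintype.card_fin]
  have h1 : Module.finrank L ↥(VS (fun j => aff (PPt P Q j)) ww d) = 1 := by
    rw [hww, finrank_simple hPQ w d hN n (by omega) (by omega)]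
    omega
  obtain ⟨G0, hG0m, hG00⟩ := exists_mem (P := PPt P Q) (w := ww) (d := d) (by omega)
  obtain ⟨c, μ, hc, hμ, hGm⟩ := exists_norm hG0m hG00
  obtain ⟨G, hG⟩ : ∃ G, G = C c * G0 := ⟨_, rfl⟩
  rw [← hG] at hμ hGm
  have hGne : G ≠ 0 := by
    rintro rfl
    rw [coeff_zero] at hμ
    exact zero_ne_one hμ
  have hGh := ((mem_VS _ _ _ _).1 hGm).1
  have hGm2 := hGm
  rw [hww, mem_PPt] at hGm2
  obtain ⟨lam, hlam⟩ := expand hP b hGm2.1
  -- derivation in the direction of the scalar
  have hDaff : ∀ (D' : Derivation ℚ L L) (p : Fin 2 → L), (∀ a, D' (p a) = 0) →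
      ∀ l, D' (aff p l) = 0 := by
    intro D' p hp l
    fin_cases l
    · exact hp 0
    · exact hp 1
    · exact D'.map_one_eq_zero
  have hn1 : dG (D none) G ∈ VS (fun j => aff (PPt P Q j)) ww d := by
    rw [hww, mem_PPt, mem_VS]
    refine ⟨⟨dG_homog _ hGh, fun j => ?_⟩, fun k => ?_⟩
    · exact der_const (D none) (hDaff _ _ fun a => hK _ _) _ (((mem_VS _ _ _ _).1 hGm2.1).2 j)
    · refine der_const (D none) (hDaff _ _ fun a => ?_) _ (hGm2.2 k)
      rw [hQ]
      show D none (x (some (k, a))) = 0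
      rw [hD, if_neg (by simp)]
  have hn2 : dG (D none) G = 0 := rigid_der h1 hGm hμ (D none) hn1
  have hn3 : ∀ j, D none (lam j) = 0 := by
    rw [hlam, dG_comb (hK none)] at hn2
    have := lin_ind_map hli hn2
    intro j
    exact congrFun this j
  -- the derivations moving the points
  have hpar : ∀ k : Fin n, ∃ a : Fin 2,
      eval (aff (Q (Fin.castAdd 4 k))) (pderiv a.castSucc G) ≠ 0 := by
    intro k
    refine exists_partial hGh ?_
    have h2 := exact_ord hPQ h1 hGm hGne (finSumFinEquiv (Sum.inr (Fin.castAdd 4 k)))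
    rw [PPt_inr, hww, wwt_inr, if_pos (show (Fin.castAdd 4 k).1 < n from k.2)] at h2
    exact h2
  choose a ha using hpar
  have hpt : ∀ k l : Fin n, eval (aff (Q (Fin.castAdd 4 l)))
      (dG (D (some (Fin.castAdd 4 k, a k))) G) =
      if k = l then - eval (aff (Q (Fin.castAdd 4 k))) (pderiv (a k).castSucc G) else 0 := by
    intro k l
    have h2 := der_eval (D (some (Fin.castAdd 4 k, a k))) (aff (Q (Fin.castAdd 4 l))) G
    have h3 : eval (aff (Q (Fin.castAdd 4 l))) G = 0 := by
      have h4 := hGm2.2 (Fin.castAdd 4 l)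
      rw [if_pos (show (Fin.castAdd 4 l).1 < n from l.2)] at h4
      exact van_one.1 h4
    rw [h3, map_zero, Fin.sum_univ_three] at h2
    have e2 : aff (Q (Fin.castAdd 4 l)) 2 = 1 := rfl
    have e0 : aff (Q (Fin.castAdd 4 l)) 0 = x (some (Fin.castAdd 4 l, 0)) := by rw [hQ]; rfl
    have e1 : aff (Q (Fin.castAdd 4 l)) 1 = x (some (Fin.castAdd 4 l, 1)) := by rw [hQ]; rfl
    rw [e0, e1, e2, Derivation.map_one_eq_zero, mul_zero, add_zero, hD, hD] at h2
    by_cases hkl : k = l
    · subst hkl
      rw [if_pos rfl]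
      obtain ⟨α, hα⟩ : ∃ α, α = a k := ⟨_, rfl⟩
      rw [← hα] at h2 ⊢
      fin_cases α
      · simp only [Fin.zero_eta, Fin.isValue, if_true, mul_one] at h2 ⊢
        rw [if_neg (by simp), mul_zero, add_zero] at h2
        have e : (Fin.castSucc (0 : Fin 2)) = (0 : Fin 3) := rfl
        rw [e]
        linear_combination -h2
      · simp only [Fin.mk_one, Fin.isValue, if_true, mul_one] at h2 ⊢
        rw [if_neg (by simp), mul_zero] at h2
        have e : (Fin.castSucc (1 : Fin 2)) = (1 : Fin 3) := rfl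
        rw [e]
        linear_combination -h2
    · rw [if_neg hkl]
      have hne : Fin.castAdd 4 k ≠ Fin.castAdd 4 l := fun h => hkl (Fin.castAdd_injective n 4 h)
      rw [if_neg (by simp [hne]), if_neg (by simp [hne]), mul_zero, mul_zero, add_zero,
        add_zero] at h2
      exact h2.symm
  obtain ⟨σ, hσ⟩ : ∃ σ, σ = x none := ⟨_, rfl⟩
  have hσ0 : σ ≠ 0 := by
    intro h
    have h2 := hD none none
    rw [← hσ, h, map_zero, if_pos rfl] at h2
    exact zero_ne_one h2
  obtain ⟨t, ht⟩ : ∃ t : Fin (n + 1) → L, t = fun j => σ * lam j := ⟨_, rfl⟩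
  obtain ⟨E, hE0, hEs⟩ : ∃ E : Fin (n + 1) → Derivation ℚ L L, E 0 = D none ∧
      ∀ k : Fin n, E k.succ = D (some (Fin.castAdd 4 k, a k)) :=
    ⟨Fin.cases (D none) (fun k => D (some (Fin.castAdd 4 k, a k))), rfl, fun k => rfl⟩
  have hEK : ∀ i (c : K), E i (algebraMap K L c) = 0 := by
    intro i c
    refine Fin.cases ?_ (fun k => ?_) i
    · rw [hE0]
      exact hK _ _
    · rw [hEs]
      exact hK _ _
  have hGlam : ∑ j, C (lam j) * map (algebraMap K L) (b j : MvPolynomial (Fin 3) K) = G := hlam.symm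
  have hdet : (Matrix.of fun i j => E i (t j)).det ≠ 0 := by
    intro hdet
    obtain ⟨v, hv0, hv⟩ := Matrix.exists_vecMul_eq_zero_iff.2 hdet
    apply hv0
    have hE0t : ∀ j, E 0 (t j) = lam j := by
      intro j
      rw [hE0, ht]
      show D none (σ * lam j) = lam j
      rw [Derivation.leibniz, hn3, hσ, hD, if_pos rfl, smul_zero, zero_add, smul_eq_mul, mul_one]
    have hEst : ∀ (k : Fin n) j, E k.succ (t j) =
        σ * D (some (Fin.castAdd 4 k, a k)) (lam j) := by
      intro k j
      rw [hEs, ht]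
      show D _ (σ * lam j) = _
      rw [Derivation.leibniz, hσ, hD, if_neg (by simp), smul_zero, add_zero, smul_eq_mul]
    have hsum : C (v 0) * G + ∑ k : Fin n, C (v k.succ * σ) *
        dG (D (some (Fin.castAdd 4 k, a k))) G = 0 := by
      have h2 : ∀ j, v 0 * lam j + ∑ k : Fin n, v k.succ *
          (σ * D (some (Fin.castAdd 4 k, a k)) (lam j)) = 0 := by
        intro j
        have h3 := congrFun hv j
        rw [Matrix.vecMul, dotProduct, Fin.sum_univ_succ] at h3
        simp only [Matrix.of_apply, hE0t, hEst, Pi.zero_apply] at h3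
        exact h3
      have h3 : ∑ j, C (v 0 * lam j + ∑ k : Fin n, v k.succ *
          (σ * D (some (Fin.castAdd 4 k, a k)) (lam j))) *
          map (algebraMap K L) (b j : MvPolynomial (Fin 3) K) = 0 :=
        Finset.sum_eq_zero fun j _ => by rw [h2, C_0, zero_mul]
      rw [← h3]
      simp only [map_add, map_sum, add_mul, Finset.sum_add_distrib, Finset.sum_mul]
      congr 1
      · rw [← hGlam, Finset.mul_sum]
        exact Finset.sum_congr rfl fun j _ => by rw [C_mul, mul_assoc]
      · rw [Finset.sum_comm]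
        refine Finset.sum_congr rfl fun k _ => ?_
        rw [← hGlam, dG_comb (hK _), Finset.mul_sum]
        refine Finset.sum_congr rfl fun j _ => ?_
        rw [C_mul, C_mul, C_mul]
        ring
    have hvs : ∀ l : Fin n, v l.succ = 0 := by
      intro l
      have h2 := congrArg (eval (aff (Q (Fin.castAdd 4 l)))) hsum
      have h3 : eval (aff (Q (Fin.castAdd 4 l))) G = 0 := by
        have h4 := hGm2.2 (Fin.castAdd 4 l)
        rw [if_pos (show (Fin.castAdd 4 l).1 < n from l.2)] at h4
        exact van_one.1 h4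
      rw [map_add, map_mul, h3, mul_zero, zero_add, map_sum, map_zero,
        Finset.sum_eq_single l] at h2
      · rw [map_mul, eval_C, hpt, if_pos rfl] at h2
        rcases mul_eq_zero.1 h2 with h4 | h4
        · exact (mul_eq_zero.1 h4).resolve_right hσ0
        · exact absurd (neg_eq_zero.1 h4) (ha l)
      · intro k _ hk
        rw [map_mul, hpt, if_neg hk, mul_zero]
      · intro h
        exact absurd (Finset.mem_univ l) h
    simp only [hvs, zero_mul, C_0, Finset.sum_const_zero, add_zero] at hsum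
    have hv00 : v 0 = 0 := by
      rcases mul_eq_zero.1 hsum with h2 | h2
      · rwa [C_eq_zero] at h2
      · exact absurd h2 hGne
    funext i
    refine Fin.cases ?_ (fun k => ?_) i
    · exact hv00
    · exact hvs k
  obtain ⟨D', hD', hK'⟩ := dual_der E hdet hEK
  refine ⟨L, i1, i2, i3, i4, Q, t, D', hPQ, hD', hK', hN, ?_, ?_⟩
  · rw [← hww]
    exact h1
  · rw [← hww]
    have : ∑ j, C (t j) * map (algebraMap K L) (b j : MvPolynomial (Fin 3) K) = σ • G := by
      rw [← hGlam, smul_eq_C_mul, Finset.mul_sum]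
      refine Finset.sum_congr rfl fun j _ => ?_
      rw [ht, C_mul, mul_assoc]
    rw [this]
    exact Submodule.smul_mem _ _ hGm

end Pool.Agent.TH167.SM
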