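import Pool.Agent.TH167.SM.ChartR

set_option autoImplicit false

/-!
# The general member is smooth
-/

namespace Pool.Agent.TH167.SM

open MvPolynomial Pool.Agent.W609 Pool.Agent.W609.CR Pool.Agent.TH167.SH Pool.Agent.TH167.TT
  Pool.Agent.TH167.DD Pool.Agent.H248R5 Pool.Agent.H248R6 Pool.Agent.W641.CR

/-- Singular points of a rigid reduced curve lie at the points of multiplicity at least two. -/
theorem rigid_fin' {K : Type} [Field K] [CharZero K] [IsAlgClosed K] {r : ℕ}
    {P : Fin (r + 4) → Fin 2 → K}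
    (hP : AlgebraicIndependent ℚ (fun ij : Fin (r + 4) × Fin 2 => P ij.1 ij.2)) {d : ℕ}
    {w : Fin (r + 4) → ℕ} (hw : (Finset.univ.filter fun i => 2 < w i).card ≤ 9)
    (h1 : Module.finrank K ↥(VS (fun j => aff (P j)) w d) = 1)
    {f : MvPolynomial (Fin 3) K} (hf : f ∈ VS (fun j => aff (P j)) w d) (hf0 : f ≠ 0)
    (hsq : Squarefree f) {q : Fin 3 → K} (hq0 : q ≠ 0)
    (hq : ∀ j, 1 < w j → ∀ c : K, q ≠ c • aff (P j)) : ¬ Van q 2 f := by
  classical
  intro hv
  by_cases hex : ∃ j, ∃ c : K, q = c • aff (P j)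
  · obtain ⟨j, c, hc⟩ := hex
    have hc0 : c ≠ 0 := by
      rintro rfl
      rw [zero_smul] at hc
      exact hq0 hc
    have hwj : w j ≤ 1 := by
      by_contra hlt
      exact hq j (by omega) c hc
    rw [hc, (t_lin K).2 f d ((mem_VS _ _ _ _).1 hf).1 c hc0] at hv
    exact (exact_ord hP h1 hf hf0 j).2 (van_mono (by omega) hv)
  · push Not at hex
    exact rigid_fin hP hw h1 hf hf0 hsq hq0 hex hv

theorem wwt_sum {s m : ℕ} (w : Fin s → ℕ) (u : Fin m → ℕ) (g : ℕ → ℤ) :
    ∑ j, g (wwt w u j) = ∑ i, g (w i) + ∑ k, g (u k) := by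
  have h1 := Fintype.sum_equiv finSumFinEquiv (fun x : Fin s ⊕ Fin m => g (Sum.elim w u x))
    (fun j => g (wwt w u j)) (fun x => by
      unfold wwt
      rw [Equiv.symm_apply_apply])
  rw [← h1, Fintype.sum_sum_type]
  rfl

theorem wwt_chi {s m : ℕ} (w : Fin s → ℕ) (d : ℕ) :
    chi d (wwt w (fun _ : Fin m => 0)) = chi d w := by
  unfold chi
  rw [wwt_sum w (fun _ : Fin m => 0) (fun n => ((n + 1).choose 2 : ℤ))]
  simp

theorem wwt_card {s m : ℕ} {w : Fin s → ℕ} {u : Fin m → ℕ} (hu : ∀ k, u k ≤ 2) {n : ℕ}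
    (hw : (Finset.univ.filter fun i => 2 < w i).card ≤ n) :
    (Finset.univ.filter fun j => 2 < wwt w u j).card ≤ n := by
  classical
  refine le_trans (le_trans (Finset.card_le_card (t := (Finset.univ.filter fun i => 2 < w i).image
    (fun i => finSumFinEquiv (Sum.inl i))) ?_) Finset.card_image_le) hw
  intro j hj
  rw [Finset.mem_filter] at hj
  obtain ⟨y, rfl⟩ := finSumFinEquiv.surjective j
  rcases y with i | k
  · rw [wwt_inl] at hj
    exact Finset.mem_image.2 ⟨i, by simpa using hj.2, rfl⟩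
  · rw [wwt_inr] at hj
    exact absurd hj.2 (not_lt.2 (hu k))

/-- The data over the large field. -/
theorem gen_smooth {K : Type} [Field K] [CharZero K] [IsAlgClosed K] {s : ℕ}
    {P : Fin s → Fin 2 → K}
    (hP : AlgebraicIndependent ℚ (fun ij : Fin s × Fin 2 => P ij.1 ij.2)) {w : Fin s → ℕ}
    (hw : (Finset.univ.filter fun i => 2 < w i).card ≤ 9)
    {d n : ℕ} (b : Module.Basis (Fin (n + 1)) K ↥(VS (fun j => aff (P j)) w d))
    {f : MvPolynomial (Fin 3) K} (hf : f ∈ VS (fun j => aff (P j)) w d) (hsq : Squarefree f) :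
    (n + 1 : ℤ) = chi d w ∧
    ∃ (L : Type) (_ : Field L) (_ : Algebra K L) (_ : IsAlgClosed L) (t : Fin (n + 1) → L),
      AlgebraicIndependent K t ∧
      (∀ q : Fin 3 → L, q ≠ 0 →
        (∀ i, ∀ c : L, q ≠ c • aff (fun a => algebraMap K L (P i a))) →
        ¬ (eval q (∑ j, C (t j) * map (algebraMap K L) (b j : MvPolynomial (Fin 3) K)) = 0 ∧
          ∀ a, eval q (pderiv a (∑ j, C (t j) *
            map (algebraMap K L) (b j : MvPolynomial (Fin 3) K))) = 0)) ∧
      ∀ i (v y : Fin 2 → L), v 0 * y 1 - v 1 * y 0 ≠ 0 →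
        ¬ ∀ k, coeff (c3e (w i) k) (chart (fun a => algebraMap K L (P i a)) v y
          (∑ j, C (t j) * map (algebraMap K L) (b j : MvPolynomial (Fin 3) K))) = 0 := by
  classical
  obtain ⟨L, i1, i2, i3, i4, Q, t, D, hPQ, hD, hK, hN, h1, hG⟩ := gen_member hP b
  obtain ⟨G, hGd⟩ : ∃ G, G = ∑ j, C (t j) *
    map (algebraMap K L) (b j : MvPolynomial (Fin 3) K) := ⟨_, rfl⟩
  rw [← hGd] at hG
  -- squarefree
  have hfc : f = ∑ j, C (b.repr ⟨f, hf⟩ j) * (b j : MvPolynomial (Fin 3) K) := by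
    have h2 := congrArg Subtype.val (b.sum_repr ⟨f, hf⟩)
    simp only [Submodule.coe_sum, Submodule.coe_smul] at h2
    conv_lhs => rw [← h2]
    exact Finset.sum_congr rfl fun j _ => by rw [smul_eq_C_mul]
  have hGsq : Squarefree G := by
    rw [hGd]
    refine sq_gen (d := d) hD hK (fun j => ((mem_VS _ _ _ _).1 (b j).2).1)
      (c := fun j => b.repr ⟨f, hf⟩ j) ?_
    rw [← hfc]
    exact hsq
  have hG0 : G ≠ 0 := hGsq.ne_zero
  have hG' : G ∈ VS (fun j => aff (PPt P Q j)) (wwt w (fun _ => 0)) d := by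
    rw [mem_PPt] at hG ⊢
    exact ⟨hG.1, fun k => van_zero _ _⟩
  have hcard0 : (Finset.univ.filter fun j => 2 < wwt w (fun _ : Fin (n + 4) => 0) j).card ≤ 9 :=
    wwt_card (fun _ => by omega) hw
  have hcard1 : (Finset.univ.filter fun j =>
      2 < wwt w (fun k : Fin (n + 4) => if k.1 < n then 1 else 0) j).card ≤ 9 :=
    wwt_card (fun k => by split_ifs <;> omega) hw
  have hchi := sq_nonsp (r := s + n) hPQ hcard0 hG' hG0 hGsq
  have hsm := rigid_smooth (r := s + n) hPQ hcard1 h1 hG hG0 hGsq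
  refine ⟨?_, L, i1, i3, i4, t, jac_ind hD hK, ?_, ?_⟩
  · have h2 : (Module.finrank L ↥(VS (fun j => aff (PPt P Q j)) (wwt w (fun _ => 0)) d) : ℤ) =
        chi d (wwt w (fun _ : Fin (n + 4) => 0)) := hchi
    rw [hN, wwt_chi] at h2
    push_cast at h2
    exact h2
  · rintro q hq0 hq ⟨h2, h3⟩
    rw [← hGd] at h2 h3
    have h5 : ∀ j : Fin (s + (n + 4)),
        1 < wwt w (fun k : Fin (n + 4) => if k.1 < n then 1 else 0) j →
        ∀ c : L, q ≠ c • aff (PPt P Q j) := by
      intro j hj c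
      obtain ⟨y, rfl⟩ := (finSumFinEquiv (m := s) (n := n + 4)).surjective j
      rcases y with i | k
      · have := hq i c
        rw [← PPt_inl P Q i] at this
        exact this
      · have h4 : wwt w (fun k : Fin (n + 4) => if k.1 < n then 1 else 0)
            (finSumFinEquiv (Sum.inr k)) ≤ 1 := by
          rw [wwt_inr]
          split_ifs <;> omega
        exact absurd hj (not_lt.2 h4)
    exact rigid_fin' (r := s + n) hPQ hcard1 h1 hG hG0 hGsq hq0 h5
      (Pool.Agent.TH167.TT.van_two h2 h3)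
  · intro i v y hvy hcon
    rw [← hGd] at hcon
    obtain ⟨H, hH, hs⟩ := hsm.2 ((finSumFinEquiv (m := s) (n := n + 4)) (Sum.inl i)) v y hvy
    have e1 : PPt P Q (finSumFinEquiv (Sum.inl i)) = fun a => algebraMap K L (P i a) :=
      PPt_inl P Q i
    have e2 : wwt w (fun k : Fin (n + 4) => if k.1 < n then 1 else 0)
        (finSumFinEquiv (Sum.inl i)) = w i := wwt_inl _ _ _
    rw [e1, e2] at hH
    exact (smooth_coef hH).1 hs hcon

end Pool.Agent.TH167.SM
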