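import Pool.Agent.TH167.SM.Fin

set_option autoImplicit false

/-!
# Homogeneous coordinates
-/

namespace Pool.Agent.TH167.SM

open MvPolynomial Pool.Agent.W609 Pool.Agent.W609.CR Pool.Agent.TH167.SH Pool.Agent.TH167.TT
  Pool.Agent.TH167.DD Pool.Agent.H248R5 Pool.Agent.H248R6

theorem good_n {K : Type} [Field K] [CharZero K] {α : Type} [Finite α] (v : α → Fin 3 → K)
    (hv : ∀ a, v a ≠ 0) : ∃ n : ℕ, ∀ a, v a 2 + n * v a 0 + (n : K) ^ 2 * v a 1 ≠ 0 := by
  classical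
  have := Fintype.ofFinite α
  let p : α → Polynomial K := fun a => Polynomial.C (v a 2) + Polynomial.C (v a 0) * Polynomial.X +
    Polynomial.C (v a 1) * Polynomial.X ^ 2
  have hp : ∀ a, p a ≠ 0 := by
    intro a h0
    apply hv a
    have h1 := congrArg (fun q => Polynomial.coeff q 0) h0
    have h2 := congrArg (fun q => Polynomial.coeff q 1) h0
    have h3 := congrArg (fun q => Polynomial.coeff q 2) h0
    simp [p, Polynomial.coeff_X] at h1 h2 h3
    funext l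
    fin_cases l
    · exact h2
    · exact h3
    · exact h1
  have hprod : ∏ a, p a ≠ 0 := Finset.prod_ne_zero_iff.2 fun a _ => hp a
  by_contra hcon
  push Not at hcon
  apply hprod
  refine Polynomial.eq_zero_of_infinite_isRoot _ ?_
  refine Set.Infinite.mono ?_ (Set.infinite_range_of_injective (Nat.cast_injective (R := K)))
  rintro _ ⟨n, rfl⟩
  obtain ⟨a, ha⟩ := hcon n
  show Polynomial.IsRoot _ _
  rw [Polynomial.IsRoot.def, Polynomial.eval_prod]
  refine Finset.prod_eq_zero (Finset.mem_univ a) ?_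
  simp only [p, Polynomial.eval_add, Polynomial.eval_mul, Polynomial.eval_C, Polynomial.eval_X,
    Polynomial.eval_pow]
  rw [← ha]
  ring

/-- The third coordinate. -/
def c3 {K : Type} [Field K] (n : ℕ) (v : Fin 3 → K) : K := v 2 + n * v 0 + (n : K) ^ 2 * v 1

/-- The affine point. -/
def af {K : Type} [Field K] (n : ℕ) (v : Fin 3 → K) : Fin 2 → K := ![v 0 / c3 n v, v 1 / c3 n v]

/-- The linear transformation. -/
def Bm (K : Type) [Field K] (n : ℕ) : Matrix (Fin 3) (Fin 3) K :=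
  !![1, 0, 0; 0, 1, 0; -(n : K), -(n : K) ^ 2, 1]

theorem Bm_det (K : Type) [Field K] (n : ℕ) : (Bm K n).det ≠ 0 := by
  rw [Matrix.det_fin_three]
  simp [Bm]

theorem Bm_af {K : Type} [Field K] {n : ℕ} {v : Fin 3 → K} (h : c3 n v ≠ 0) :
    (Bm K n).mulVec (c3 n v • aff (af n v)) = v := by
  funext l
  fin_cases l
  · simp [Bm, Matrix.mulVec, dotProduct, Fin.sum_univ_three, aff, af]
    field_simp
  · simp [Bm, Matrix.mulVec, dotProduct, Fin.sum_univ_three, aff, af]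
    field_simp
  · simp [Bm, Matrix.mulVec, dotProduct, Fin.sum_univ_three, aff, af]
    field_simp
    unfold c3
    ring

theorem Bm_van {K : Type} [Field K] {n : ℕ} {v : Fin 3 → K} (h : c3 n v ≠ 0) {d : ℕ}
    {G : MvPolynomial (Fin 3) K} (hG : G.IsHomogeneous d) (m : ℕ) :
    Van (aff (af n v)) m (lin (Bm K n) G) ↔ Van v m G := by
  obtain ⟨h1, h2⟩ := t_lin K
  obtain ⟨a1, -, a3, -⟩ := h1 _ (Bm_det K n)
  rw [← h2 _ d (a1 G d hG) _ h, ← a3, Bm_af h]

theorem af_inj {K : Type} [Field K] {n : ℕ} {v v' : Fin 3 → K} (h : c3 n v ≠ 0)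
    (h' : c3 n v' ≠ 0) (heq : af n v = af n v') : ∃ c : K, v = c • v' := by
  refine ⟨c3 n v / c3 n v', ?_⟩
  have h1 := Bm_af h
  have h2 := Bm_af h'
  rw [heq] at h1
  have h3 : (Bm K n).mulVec (c3 n v • aff (af n v')) = (c3 n v / c3 n v') •
      (Bm K n).mulVec (c3 n v' • aff (af n v')) := by
    rw [← Matrix.mulVec_smul, smul_smul, div_mul_cancel₀ _ h']
  rw [h1, h2] at h3
  exact h3

theorem af_gen {K : Type} [Field K] [CharZero K] {ι : Type} [Fintype ι] {P : ι → Fin 2 → K}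
    (hP : AlgebraicIndependent ℚ (fun ij : ι × Fin 2 => P ij.1 ij.2)) {n : ℕ}
    (h : ∀ j, c3 n (aff (P j)) ≠ 0) :
    AlgebraicIndependent ℚ (fun ij : ι × Fin 2 => af n (aff (P ij.1)) ij.2) := by
  apply Pool.Agent.W816.CR.t_trd K (ι × Fin 2) _ _ hP
  rintro ⟨j, l⟩
  obtain ⟨L, hL⟩ : ∃ L : IntermediateField ℚ K, L = IntermediateField.adjoin ℚ
    (Set.range (fun ij : ι × Fin 2 => af n (aff (P ij.1)) ij.2)) := ⟨_, rfl⟩
  rw [← hL]
  have hm : ∀ b, af n (aff (P j)) b ∈ L := by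
    intro b
    rw [hL]
    exact IntermediateField.subset_adjoin _ _ ⟨(j, b), rfl⟩
  have h0 := h j
  have e1 : c3 n (aff (P j)) = (1 - n * af n (aff (P j)) 0 - (n : K) ^ 2 * af n (aff (P j)) 1)⁻¹ := by
    have h1 : c3 n (aff (P j)) = 1 + n * P j 0 + (n : K) ^ 2 * P j 1 := rfl
    have h2 : af n (aff (P j)) 0 = P j 0 / c3 n (aff (P j)) := rfl
    have h3 : af n (aff (P j)) 1 = P j 1 / c3 n (aff (P j)) := rfl
    rw [eq_comm, inv_eq_iff_eq_inv, h2, h3]
    field_simp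
    rw [h1]
    ring
  have hc : c3 n (aff (P j)) ∈ L := by
    rw [e1]
    refine inv_mem (sub_mem (sub_mem (one_mem L) (mul_mem (natCast_mem L n) (hm 0)))
      (mul_mem (pow_mem (natCast_mem L n) 2) (hm 1)))
  fin_cases l
  · show P j 0 ∈ L
    have : P j 0 = af n (aff (P j)) 0 * c3 n (aff (P j)) := by
      have h2 : af n (aff (P j)) 0 = P j 0 / c3 n (aff (P j)) := rfl
      rw [h2, div_mul_cancel₀ _ h0]
    rw [this]
    exact mul_mem (hm 0) hc
  · show P j 1 ∈ L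
    have : P j 1 = af n (aff (P j)) 1 * c3 n (aff (P j)) := by
      have h2 : af n (aff (P j)) 1 = P j 1 / c3 n (aff (P j)) := rfl
      rw [h2, div_mul_cancel₀ _ h0]
    rw [this]
    exact mul_mem (hm 1) hc

/-- The lower bound for the Euler characteristic, in homogeneous coordinates. -/
theorem chi_hom {K : Type} [Field K] [CharZero K] [IsAlgClosed K] {ι κ : Type} [Fintype ι]
    [DecidableEq ι] [Fintype κ] [DecidableEq κ] {e : ℕ} {w : ι → ℕ} {u : κ → ℕ} {S : Finset ι}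
    (hS : ∀ j, j ∉ S → w j ≤ 2) (hsum : ∑ j ∈ S, w j + ∑ k, u k < 3 * e) {P : ι → Fin 2 → K}
    (hP : AlgebraicIndependent ℚ (fun ij : ι × Fin 2 => P ij.1 ij.2)) {R : κ → Fin 3 → K}
    (hR : ∀ k b, ∃ c : ℚ, R k b = (c : K)) (hR0 : ∀ k, R k ≠ 0)
    (hRi : ∀ k k', k ≠ k' → ∀ c : K, R k ≠ c • R k') (hPR : ∀ j k, ∀ c : K, aff (P j) ≠ c • R k)
    {G : MvPolynomial (Fin 3) K} (hG : Irreducible G) (hGe : G.IsHomogeneous e) (he : 2 ≤ e)
    (hord : ∀ j, Ord (aff (P j)) (w j) G) (hordR : ∀ k, Ord (R k) (u k) G)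
    {q : Fin 3 → K} (hq0 : q ≠ 0) (hq : ∀ j, ∀ c : K, q ≠ c • aff (P j))
    (hqR : ∀ k, ∀ c : K, q ≠ c • R k) {μ : ℕ} (hμ : Ord q μ G) :
    1 + μ.choose 2 + ∑ j, (w j + 1).choose 2 + ∑ k, (u k + 1).choose 2 ≤ (e + 2).choose 2 := by
  classical
  obtain ⟨n, hn⟩ := good_n (K := K) (α := Option (ι ⊕ κ))
    (fun x => x.elim q (Sum.elim (fun j => aff (P j)) R)) (by
      rintro (_ | (j | k))
      · exact hq0
      · exact aff_ne _
      · exact hR0 k)
  have n0 : c3 n q ≠ 0 := hn none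
  have n1 : ∀ j, c3 n (aff (P j)) ≠ 0 := fun j => hn (some (Sum.inl j))
  have n2 : ∀ k, c3 n (R k) ≠ 0 := fun k => hn (some (Sum.inr k))
  obtain ⟨a1, a2, -, -⟩ := (t_lin K).1 _ (Bm_det K n)
  have hO : ∀ {v : Fin 3 → K} {m : ℕ}, c3 n v ≠ 0 → Ord v m G →
      Ord (aff (af n v)) m (lin (Bm K n) G) := by
    intro v m h h1
    exact ⟨(Bm_van h hGe _).2 h1.1, fun h2 => h1.2 ((Bm_van h hGe _).1 h2)⟩
  have hP' := af_gen hP n1
  have hG1 := a2 G hG
  have hG2 := a1 G e hGe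
  have o1 : ∀ j, Ord (aff ((fun j => af n (aff (P j))) j)) (w j) (lin (Bm K n) G) :=
    fun j => hO (n1 j) (hord j)
  have o2 : ∀ k, Ord (aff ((fun k => af n (R k)) k)) (u k) (lin (Bm K n) G) :=
    fun k => hO (n2 k) (hordR k)
  have o3 := hO n0 hμ
  refine chi_aff (P := fun j => af n (aff (P j))) (R := fun k => af n (R k)) (q := af n q)
    hS hsum hP' ?_ ?_ ?_ hG1 hG2 he o1 o2 ?_ ?_ o3
  · intro k b
    obtain ⟨c0, h0⟩ := hR k 0
    obtain ⟨c1, h1⟩ := hR k 1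
    obtain ⟨c2, h2⟩ := hR k 2
    have h3 : c3 n (R k) = ((c2 + n * c0 + (n : ℚ) ^ 2 * c1 : ℚ) : K) := by
      unfold c3
      rw [h0, h1, h2]
      push_cast
      ring
    fin_cases b
    · refine ⟨c0 / (c2 + n * c0 + (n : ℚ) ^ 2 * c1), ?_⟩
      show R k 0 / c3 n (R k) = _
      rw [h3, h0, Rat.cast_div]
    · refine ⟨c1 / (c2 + n * c0 + (n : ℚ) ^ 2 * c1), ?_⟩
      show R k 1 / c3 n (R k) = _
      rw [h3, h1, Rat.cast_div]
  · intro k k' h
    by_contra hne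
    obtain ⟨c, hc⟩ := af_inj (n2 k) (n2 k') h
    exact hRi k k' hne c hc
  · intro j k h
    obtain ⟨c, hc⟩ := af_inj (n1 j) (n2 k) h
    exact hPR j k c hc
  · intro j h
    obtain ⟨c, hc⟩ := af_inj n0 (n1 j) h
    exact hq j c hc
  · intro k h
    obtain ⟨c, hc⟩ := af_inj n0 (n2 k) h
    exact hqR k c hc

/-- The inequality of Bezout in homogeneous coordinates. -/
theorem bezH {K : Type} [Field K] {ι : Type} [Fintype ι] {v : ι → Fin 3 → K} (hv0 : ∀ j, v j ≠ 0)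
    (hv : ∀ i j, i ≠ j → ∀ c : K, v i ≠ c • v j)
    {u w : ι → ℕ} {G F : MvPolynomial (Fin 3) K} {e d : ℕ} (hG : Irreducible G)
    (hGe : G.IsHomogeneous e) (hu : ∀ j, Van (v j) (u j) G) (hF0 : F ≠ 0)
    (hFd : F.IsHomogeneous d) (hw : ∀ j, Van (v j) (w j) F) (hnd : ¬ G ∣ F) :
    ∑ j, u j * w j ≤ e * d := by
  classical
  let p : ι → Pool.Agent.Chud.PP K 2 := fun j => Projectivization.mk K (v j) (hv0 _)
  have hp : Function.Injective p := by
    intro i j hij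
    by_contra hne
    obtain ⟨c, hc⟩ := (Projectivization.mk_eq_mk_iff' K _ _ (hv0 i) (hv0 j)).1 hij
    exact hv i j hne c hc.symm
  let r : (ι → ℕ) → Pool.Agent.Chud.PP K 2 → ℕ := fun w q =>
    if h : ∃ j, p j = q then w h.choose else 0
  have hr : ∀ (w : ι → ℕ) j, r w (p j) = w j := by
    intro w j
    have h : ∃ i, p i = p j := ⟨j, rfl⟩
    show (if h : ∃ i, p i = p j then w h.choose else 0) = w j
    rw [dif_pos h]
    exact congrArg w (hp h.choose_spec)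
  have hvan : ∀ (f : MvPolynomial (Fin 3) K) (n : ℕ), f.IsHomogeneous n → ∀ j (m : ℕ),
      Van (v j) m f → f ∈ Pool.Agent.Chud.mI (p j).rep ^ m := by
    intro f n hf j m hj
    obtain ⟨c, hc⟩ := Projectivization.exists_smul_eq_mk_rep K (v j) (hv0 _)
    have h1 := ((t_lin K).2 f n hf (c : K) c.ne_zero (v j) m).2 hj
    have h2 : (c : K) • v j = (p j).rep := hc
    rw [h2] at h1
    exact h1
  have hrel : IsRelPrime G F := (Irreducible.isRelPrime_iff_not_dvd hG).2 hnd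
  have hb := Pool.Agent.Chud.bezout hGe hFd hG.ne_zero hF0 hrel (Finset.univ.image p) (r u) (r w)
    (by
      intro q hq
      obtain ⟨j, _, rfl⟩ := Finset.mem_image.1 hq
      rw [hr]
      exact hvan G e hGe j _ (hu j)) (by
      intro q hq
      obtain ⟨j, _, rfl⟩ := Finset.mem_image.1 hq
      rw [hr]
      exact hvan F d hFd j _ (hw j))
  rw [Finset.sum_image (fun a _ b _ h => hp h)] at hb
  simp only [hr] at hb
  exact hb

end Pool.Agent.TH167.SM
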