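import Pool.Agent.TH167.SM.Ext

set_option autoImplicit false

/-!
# Derivations and algebraic independence
-/

namespace Pool.Agent.TH167.SM

open MvPolynomial Pool.Agent.W609 Pool.Agent.W609.CR Pool.Agent.TH167.SH Pool.Agent.TH167.TT
  Pool.Agent.TH167.DD Pool.Agent.H248R5 Pool.Agent.H248R6 Pool.Agent.W641.CR

theorem dG_map {K L : Type} [Field K] [Field L] [CharZero L] [Algebra K L] {σ : Type}
    {D : Derivation ℚ L L} (hK : ∀ a : K, D (algebraMap K L a) = 0) (p : MvPolynomial σ K) :
    dG D (map (algebraMap K L) p) = 0 := by
  ext s
  rw [coeff_dG, coeff_map, hK, coeff_zero]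

/-- Dual derivations give algebraic independence. -/
theorem jac_ind {K L : Type} [Field K] [CharZero K] [Field L] [CharZero L] [Algebra K L] {N : ℕ}
    {t : Fin N → L} {D : Fin N → Derivation ℚ L L}
    (hD : ∀ i j, D i (t j) = if i = j then 1 else 0)
    (hK : ∀ i (a : K), D i (algebraMap K L a) = 0) : AlgebraicIndependent K t := by
  classical
  rw [algebraicIndependent_iff]
  have key : ∀ (n : ℕ) (p : MvPolynomial (Fin N) K), (∀ α ∈ p.support, ∑ l, α l ≤ n) →
      aeval t p = 0 → p = 0 := by
    intro n
    induction n with
    | zero =>
      intro p hp h0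
      have h1 : p = C (coeff 0 p) := by
        ext α
        rw [coeff_C]
        split_ifs with hα
        · rw [← hα]
        · by_contra hne
          have h2 := hp α (mem_support_iff.2 hne)
          have h3 : ∑ l, α l = 0 := by omega
          rw [Finset.sum_eq_zero_iff] at h3
          exact hα (Finsupp.ext fun i => (h3 i (Finset.mem_univ i)).symm)
      rw [h1, algHom_C] at h0
      have h2 : coeff 0 p = 0 := (map_eq_zero (algebraMap K L)).1 h0
      rw [h1, h2, C_0]
    | succ n ih =>
      intro p hp h0
      have h1 : ∀ i, pderiv i p = 0 := by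
        intro i
        refine ih _ ?_ ?_
        · intro β hβ
          rw [mem_support_iff, coeff_pderiv] at hβ
          have h2 := hp _ (mem_support_iff.2 (left_ne_zero_of_mul hβ))
          have h3 : ∑ l, (β + Finsupp.single i 1 : Fin N →₀ ℕ) l = ∑ l, β l + 1 := by
            simp only [Finsupp.add_apply, Finset.sum_add_distrib]
            congr 1
            rw [Finset.sum_eq_single i]
            · rw [Finsupp.single_eq_same]
            · intro j _ hj
              rw [Finsupp.single_eq_of_ne hj]
            · intro h
              exact absurd (Finset.mem_univ i) h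
          omega
        · have h2 : eval t (map (algebraMap K L) p) = 0 := by
            rw [← h0, aeval_def, eval₂_eq_eval_map]
          have h3 := der_eval (D i) t (map (algebraMap K L) p)
          rw [h2, map_zero, dG_map (hK i), map_zero, zero_add] at h3
          simp only [hD] at h3
          rw [Finset.sum_eq_single i] at h3
          · rw [if_pos rfl, mul_one, pderiv_map] at h3
            rw [aeval_def, eval₂_eq_eval_map]
            exact h3.symm
          · intro j _ hj
            rw [if_neg (Ne.symm hj), mul_zero]
          · intro h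
            exact absurd (Finset.mem_univ i) h
      have h2 : p = C (coeff 0 p) := by
        ext α
        rw [coeff_C]
        split_ifs with hα
        · rw [← hα]
        · obtain ⟨i, hi⟩ : ∃ i, α i ≠ 0 := by
            by_contra hcon
            push Not at hcon
            exact hα (Finsupp.ext fun i => (hcon i).symm)
          have h3 := congrArg (coeff (α - Finsupp.single i 1)) (h1 i)
          rw [coeff_pderiv, coeff_zero] at h3
          have h4 : α - Finsupp.single i 1 + Finsupp.single i 1 = α := by
            ext l
            rw [Finsupp.add_apply, Finsupp.tsub_apply]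
            by_cases hl : i = l
            · subst hl
              rw [Finsupp.single_eq_same]
              omega
            · rw [Finsupp.single_eq_of_ne (Ne.symm hl)]
              omega
          rw [h4] at h3
          rcases mul_eq_zero.1 h3 with h5 | h5
          · exact h5
          · exact absurd h5 (Nat.cast_add_one_ne_zero _)
      rw [h2, algHom_C] at h0
      have h3 : coeff 0 p = 0 := (map_eq_zero (algebraMap K L)).1 h0
      rw [h2, h3, C_0]
  exact fun p hp => key (p.support.sup fun α => ∑ l, α l) p
    (fun α hα => Finset.le_sup (f := fun α : Fin N →₀ ℕ => ∑ l, α l) hα) hp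

/-- Dual derivations. -/
theorem dual_der {K L : Type} [Field K] [Field L] [CharZero L] [Algebra K L] {N : ℕ}
    {t : Fin N → L} (D : Fin N → Derivation ℚ L L)
    (hdet : (Matrix.of fun i j => D i (t j)).det ≠ 0)
    (hK : ∀ i (a : K), D i (algebraMap K L a) = 0) :
    ∃ D' : Fin N → Derivation ℚ L L, (∀ i j, D' i (t j) = if i = j then 1 else 0) ∧
      ∀ i (a : K), D' i (algebraMap K L a) = 0 := by
  classical
  obtain ⟨M, hM⟩ : ∃ M : Matrix (Fin N) (Fin N) L, M = Matrix.of fun i j => D i (t j) := ⟨_, rfl⟩
  rw [← hM] at hdet
  have hinv : M⁻¹ * M = 1 := Matrix.nonsing_inv_mul M (isUnit_iff_ne_zero.2 hdet)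
  have happ : ∀ (i : Fin N) (a : L), (∑ j, M⁻¹ i j • D j) a = ∑ j, M⁻¹ i j * D j a := by
    intro i a
    rw [← Derivation.coeFnAddMonoidHom_apply, map_sum, Finset.sum_apply]
    rfl
  refine ⟨fun i => ∑ j, M⁻¹ i j • D j, fun i j => ?_, fun i a => ?_⟩
  · rw [happ]
    have h1 := congrFun (congrFun hinv i) j
    rw [Matrix.mul_apply, Matrix.one_apply] at h1
    rw [← h1]
    refine Finset.sum_congr rfl fun k _ => ?_
    rw [hM]
    rfl
  · rw [happ]
    exact Finset.sum_eq_zero fun j _ => by rw [hK, mul_zero]

end Pool.Agent.TH167.SM
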