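import Pool.Agent.TH167.SM.Crem

set_option autoImplicit false

/-!
# Infinitely near double points
-/

namespace Pool.Agent.TH167.SM

open MvPolynomial Pool.Agent.W609 Pool.Agent.W609.CR Pool.Agent.TH167.SH Pool.Agent.TH167.TT
  Pool.Agent.TH167.DD Pool.Agent.H248R5 Pool.Agent.H248R6 Pool.Agent.W641.CR

/-- The ideal of a point. -/
noncomputable def pI {K : Type} [Field K] (p : Fin 2 → K) : Ideal (MvPolynomial (Fin 3) K) :=
  Ideal.span {X 0 - C (p 0) * X 2, X 1 - C (p 1) * X 2}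

/-- The line through a point in a given direction. -/
noncomputable def lv {K : Type} [Field K] (p v : Fin 2 → K) : MvPolynomial (Fin 3) K :=
  C (v 1) * (X 0 - C (p 0) * X 2) - C (v 0) * (X 1 - C (p 1) * X 2)

/-- The ideal of an infinitely near double point. -/
noncomputable def NI {K : Type} [Field K] (p v : Fin 2 → K) (m : ℕ) :
    Ideal (MvPolynomial (Fin 3) K) :=
  pI p ^ (m - 2) * (Ideal.span {lv p v} ⊔ pI p ^ 2) ^ 2

/-- The chart of the blow-up at the point `p` centred at the direction `v`. -/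
noncomputable def chart {K : Type} [Field K] (p v y : Fin 2 → K) :
    MvPolynomial (Fin 3) K →ₐ[K] MvPolynomial (Fin 2) K :=
  aeval ![C (p 0) + X 0 * (C (v 0) + C (y 0) * X 1), C (p 1) + X 0 * (C (v 1) + C (y 1) * X 1), 1]

/-- The monomial chart. -/
noncomputable def theta (K : Type) [Field K] :
    MvPolynomial (Fin 3) K →ₐ[K] MvPolynomial (Fin 2) K :=
  aeval ![X 0, X 0 * X 1, 1]

theorem theta_monomial {K : Type} [Field K] (α : Fin 3 →₀ ℕ) (c : K) :
    theta K (monomial α c) =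
      monomial (Finsupp.equivFunOnFinite.symm ![α 0 + α 1, α 1] : Fin 2 →₀ ℕ) c := by
  unfold theta
  rw [aeval_monomial, Finsupp.prod_fintype _ _ (fun i => by simp), Fin.prod_univ_three]
  simp only [Matrix.cons_val_zero, Matrix.cons_val_one, Matrix.cons_val]
  rw [monomial_eq, Finsupp.prod_fintype _ _ (fun i => by simp), Fin.prod_univ_two]
  have e0 : (Finsupp.equivFunOnFinite.symm ![α 0 + α 1, α 1] : Fin 2 →₀ ℕ) 0 = α 0 + α 1 := rfl
  have e1 : (Finsupp.equivFunOnFinite.symm ![α 0 + α 1, α 1] : Fin 2 →₀ ℕ) 1 = α 1 := rfl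
  rw [e0, e1, algebraMap_eq]
  ring

theorem theta_coeff {K : Type} [Field K] {G : MvPolynomial (Fin 3) K} {d : ℕ}
    (hG : G.IsHomogeneous d) {α : Fin 3 →₀ ℕ} (hα : α ∈ G.support) :
    coeff (Finsupp.equivFunOnFinite.symm ![α 0 + α 1, α 1] : Fin 2 →₀ ℕ) (theta K G) =
      coeff α G := by
  classical
  conv_lhs => rw [← G.support_sum_monomial_coeff]
  rw [map_sum, coeff_sum, Finset.sum_eq_single α]
  · rw [theta_monomial, coeff_monomial, if_pos rfl]
  · intro β hβ hne
    rw [theta_monomial, coeff_monomial, if_neg]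
    intro h
    apply hne
    have h0 : β 0 + β 1 = α 0 + α 1 := DFunLike.congr_fun h 0
    have h1 : β 1 = α 1 := DFunLike.congr_fun h 1
    have h2 := homog_degree (n := 2) hG hβ
    have h3 := homog_degree (n := 2) hG hα
    rw [sum3] at h2 h3
    ext l
    fin_cases l
    · show β 0 = α 0
      omega
    · exact h1
    · show β 2 = α 2
      omega
  · intro h
    exact absurd hα h

/-- The exponents. -/
theorem theta_exp {K : Type} [Field K] {G : MvPolynomial (Fin 3) K} {d m : ℕ}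
    (hG : G.IsHomogeneous d) {H : MvPolynomial (Fin 2) K} (hH : theta K G = X 0 ^ m * H)
    (h0 : coeff 0 H = 0) (h1 : ∀ a, coeff (Finsupp.single a 1) H = 0) {α : Fin 3 →₀ ℕ}
    (hα : α ∈ G.support) : m ≤ α 0 + α 1 ∧ 2 ≤ α 0 + α 1 - m + α 1 := by
  classical
  have h2 := theta_coeff hG hα
  obtain ⟨β, hβ⟩ : ∃ β : Fin 2 →₀ ℕ, β = Finsupp.equivFunOnFinite.symm ![α 0 + α 1, α 1] := ⟨_, rfl⟩
  have b0 : β 0 = α 0 + α 1 := by rw [hβ]; rfl
  have b1 : β 1 = α 1 := by rw [hβ]; rfl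
  rw [← hβ, hH, X_pow_eq_monomial, coeff_monomial_mul', one_mul] at h2
  split_ifs at h2 with hle
  · have h3 : m ≤ β 0 := by simpa using hle 0
    refine ⟨by omega, ?_⟩
    by_contra hcon
    push Not at hcon
    obtain ⟨γ, hγ⟩ : ∃ γ : Fin 2 →₀ ℕ, γ = β - Finsupp.single 0 m := ⟨_, rfl⟩
    have g0 : γ 0 = β 0 - m := by
      rw [hγ, Finsupp.tsub_apply, Finsupp.single_eq_same]
    have g1 : γ 1 = β 1 := by
      rw [hγ, Finsupp.tsub_apply, Finsupp.single_eq_of_ne (by decide), Nat.sub_zero]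
    rw [← hγ] at h2
    have h4 : coeff γ H = 0 := by
      rcases Nat.lt_or_ge (γ 0) 1 with c0 | c0
      · rcases Nat.lt_or_ge (γ 1) 1 with c1 | c1
        · have : γ = 0 := by
            ext l
            fin_cases l
            · show γ 0 = 0
              omega
            · show γ 1 = 0
              omega
          rw [this, h0]
        · have : γ = Finsupp.single 1 1 := by
            ext l
            fin_cases l
            · show γ 0 = (Finsupp.single (1 : Fin 2) 1 : Fin 2 →₀ ℕ) 0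
              rw [Finsupp.single_eq_of_ne (by decide)]
              omega
            · show γ 1 = (Finsupp.single (1 : Fin 2) 1 : Fin 2 →₀ ℕ) 1
              rw [Finsupp.single_eq_same]
              omega
          rw [this, h1]
      · have : γ = Finsupp.single 0 1 := by
          ext l
          fin_cases l
          · show γ 0 = (Finsupp.single (0 : Fin 2) 1 : Fin 2 →₀ ℕ) 0
            rw [Finsupp.single_eq_same]
            omega
          · show γ 1 = (Finsupp.single (0 : Fin 2) 1 : Fin 2 →₀ ℕ) 1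
            rw [Finsupp.single_eq_of_ne (by decide)]
            omega
        rw [this, h1]
    rw [h4] at h2
    exact (mem_support_iff.1 hα) h2.symm
  · exact absurd h2.symm (mem_support_iff.1 hα)

/-- The monomial ideal. -/
theorem mono_mem {K : Type} [Field K] {G : MvPolynomial (Fin 3) K} {m : ℕ} (hm : 2 ≤ m)
    (h : ∀ α ∈ G.support, m ≤ α 0 + α 1 ∧ 2 ≤ α 0 + α 1 - m + α 1) :
    G ∈ (Ideal.span {X 0, X 1} : Ideal (MvPolynomial (Fin 3) K)) ^ (m - 2) *
      (Ideal.span {X 1} ⊔ (Ideal.span {X 0, X 1}) ^ 2) ^ 2 := by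
  classical
  obtain ⟨I, hI⟩ : ∃ I : Ideal (MvPolynomial (Fin 3) K), I = Ideal.span {X 0, X 1} := ⟨_, rfl⟩
  rw [← hI]
  have i0 : (X 0 : MvPolynomial (Fin 3) K) ∈ I := by
    rw [hI]
    exact Ideal.subset_span (by simp)
  have i1 : (X 1 : MvPolynomial (Fin 3) K) ∈ I := by
    rw [hI]
    exact Ideal.subset_span (by simp)
  have k1 : (X 1 : MvPolynomial (Fin 3) K) ∈ Ideal.span {X 1} ⊔ I ^ 2 :=
    Ideal.mem_sup_left (Ideal.mem_span_singleton_self _)
  have k2 : (X 0 ^ 2 : MvPolynomial (Fin 3) K) ∈ Ideal.span {X 1} ⊔ I ^ 2 :=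
    Ideal.mem_sup_right (Ideal.pow_mem_pow i0 2)
  rw [← G.support_sum_monomial_coeff]
  refine Ideal.sum_mem _ fun α hα => ?_
  obtain ⟨h1, h2⟩ := h α hα
  rw [monomial_eq, Finsupp.prod_fintype _ _ (fun i => by simp), Fin.prod_univ_three]
  refine Ideal.mul_mem_left _ _ (Ideal.mul_mem_right _ _ ?_)
  rcases Nat.lt_or_ge (α 1) 2 with hlt | hge
  · rcases Nat.lt_or_ge (α 1) 1 with hlt' | hge'
    · -- only the first variable
      have e1 : (X 0 ^ α 0 * X 1 ^ α 1 : MvPolynomial (Fin 3) K) =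
          X 0 ^ (α 0 - 4) * (X 0 ^ 2) ^ 2 := by
        have : α 1 = 0 := by omega
        rw [this, pow_zero, mul_one, ← pow_mul, ← pow_add]
        congr 1
        omega
      rw [e1]
      refine Ideal.mul_mem_mul ?_ (Ideal.pow_mem_pow k2 2)
      exact Ideal.pow_le_pow_right (by omega) (Ideal.pow_mem_pow i0 (α 0 - 4))
    · have e1 : (X 0 ^ α 0 * X 1 ^ α 1 : MvPolynomial (Fin 3) K) =
          X 0 ^ (α 0 - 2) * (X 1 * X 0 ^ 2) := by
        have h3 : α 1 = 1 := by omega
        have h4 : α 0 = (α 0 - 2) + 2 := by omega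
        conv_lhs => rw [h3, h4]
        rw [pow_add]
        ring
      rw [e1]
      refine Ideal.mul_mem_mul ?_ ?_
      · exact Ideal.pow_le_pow_right (by omega) (Ideal.pow_mem_pow i0 (α 0 - 2))
      · rw [pow_two (Ideal.span {X 1} ⊔ I ^ 2)]
        exact Ideal.mul_mem_mul k1 k2
  · have e1 : (X 0 ^ α 0 * X 1 ^ α 1 : MvPolynomial (Fin 3) K) =
        (X 0 ^ α 0 * X 1 ^ (α 1 - 2)) * X 1 ^ 2 := by
      rw [mul_assoc, ← pow_add]
      congr 2
      omega
    rw [e1]
    refine Ideal.mul_mem_mul ?_ (Ideal.pow_mem_pow k1 2)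
    refine Ideal.pow_le_pow_right (show m - 2 ≤ α 0 + (α 1 - 2) by omega) ?_
    rw [pow_add]
    exact Ideal.mul_mem_mul (Ideal.pow_mem_pow i0 _) (Ideal.pow_mem_pow i1 _)

/-- The matrix of the chart. -/
def cm {K : Type} [Field K] (p v y : Fin 2 → K) : Matrix (Fin 3) (Fin 3) K :=
  !![v 0, y 0, p 0; v 1, y 1, p 1; 0, 0, 1]

/-- Its inverse. -/
def cmi {K : Type} [Field K] (p v y : Fin 2 → K) : Matrix (Fin 3) (Fin 3) K :=
  !![y 1 / (v 0 * y 1 - v 1 * y 0), - y 0 / (v 0 * y 1 - v 1 * y 0),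
      (y 0 * p 1 - y 1 * p 0) / (v 0 * y 1 - v 1 * y 0);
    - v 1 / (v 0 * y 1 - v 1 * y 0), v 0 / (v 0 * y 1 - v 1 * y 0),
      (v 1 * p 0 - v 0 * p 1) / (v 0 * y 1 - v 1 * y 0); 0, 0, 1]

theorem lin_lin {K : Type} [Field K] (A B : Matrix (Fin 3) (Fin 3) K)
    (f : MvPolynomial (Fin 3) K) : lin B (lin A f) = lin (A * B) f := by
  have : (lin B).comp (lin A) = lin (A * B) := by
    apply MvPolynomial.algHom_ext
    intro i
    rw [AlgHom.comp_apply]
    unfold Pool.Agent.W609.CR.lin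
    rw [aeval_X, aeval_X, map_sum]
    simp only [map_mul, algHom_C, algebraMap_eq, aeval_X, Matrix.mul_apply, map_sum]
    rw [Finset.sum_congr rfl fun j _ => Finset.mul_sum _ _ _, Finset.sum_comm]
    refine Finset.sum_congr rfl fun k _ => ?_
    rw [Finset.sum_mul]
    exact Finset.sum_congr rfl fun j _ => by ring
  exact DFunLike.congr_fun this f

theorem lin_one {K : Type} [Field K] (f : MvPolynomial (Fin 3) K) : lin 1 f = f := by
  have : lin (1 : Matrix (Fin 3) (Fin 3) K) = AlgHom.id K _ := by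
    apply MvPolynomial.algHom_ext
    intro i
    unfold Pool.Agent.W609.CR.lin
    rw [aeval_X, AlgHom.id_apply, Finset.sum_eq_single i]
    · rw [Matrix.one_apply_eq, C_1, one_mul]
    · intro j _ hj
      rw [Matrix.one_apply_ne (Ne.symm hj), C_0, zero_mul]
    · intro h
      exact absurd (Finset.mem_univ i) h
  rw [this, AlgHom.id_apply]

theorem cm_mul {K : Type} [Field K] {p v y : Fin 2 → K} (h : v 0 * y 1 - v 1 * y 0 ≠ 0) :
    cm p v y * cmi p v y = 1 := by
  obtain ⟨δ, hδ⟩ : ∃ δ, δ = v 0 * y 1 - v 1 * y 0 := ⟨_, rfl⟩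
  have hδ0 : δ ≠ 0 := by rw [hδ]; exact h
  ext i j
  rw [Matrix.mul_apply, Fin.sum_univ_three]
  fin_cases i <;> fin_cases j <;> simp [cm, cmi, ← hδ] <;> field_simp <;>
    first
      | done
      | ring1
      | (rw [hδ]; ring1)

theorem cm_det {K : Type} [Field K] {p v y : Fin 2 → K} (h : v 0 * y 1 - v 1 * y 0 ≠ 0) :
    (cm p v y).det ≠ 0 := by
  rw [Matrix.det_fin_three]
  simp [cm]
  intro h1
  apply h
  linear_combination h1

theorem theta_cm {K : Type} [Field K] (p v y : Fin 2 → K) (f : MvPolynomial (Fin 3) K) :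
    theta K (lin (cm p v y) f) = chart p v y f := by
  have : (theta K).comp (lin (cm p v y)) = chart p v y := by
    apply MvPolynomial.algHom_ext
    intro i
    rw [AlgHom.comp_apply]
    unfold Pool.Agent.W609.CR.lin theta chart
    rw [aeval_X, aeval_X, map_sum, Fin.sum_univ_three]
    fin_cases i
    · simp [cm, algHom_C]
      ring
    · simp [cm, algHom_C]
      ring
    · simp [cm]
  exact DFunLike.congr_fun this f

/-- A singular point of the strict transform gives membership in the ideal. -/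
theorem chart_mem {K : Type} [Field K] {f : MvPolynomial (Fin 3) K} {d m : ℕ}
    (hf : f.IsHomogeneous d) (hm : 2 ≤ m) {p v y : Fin 2 → K} (h : v 0 * y 1 - v 1 * y 0 ≠ 0)
    {H : MvPolynomial (Fin 2) K} (hH : chart p v y f = X 0 ^ m * H)
    (h0 : coeff 0 H = 0) (h1 : ∀ a, coeff (Finsupp.single a 1) H = 0) : f ∈ NI p v m := by
  classical
  obtain ⟨a1, -, -, -⟩ := (t_lin K).1 _ (cm_det (p := p) h)
  have h2 : lin (cm p v y) f ∈ (Ideal.span {X 0, X 1} : Ideal (MvPolynomial (Fin 3) K)) ^ (m - 2) *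
      (Ideal.span {X 1} ⊔ (Ideal.span {X 0, X 1}) ^ 2) ^ 2 := by
    refine mono_mem hm fun α hα => ?_
    exact theta_exp (a1 f d hf) (by rw [theta_cm]; exact hH) h0 h1 hα
  have h3 := Ideal.mem_map_of_mem (lin (cmi p v y)) h2
  rw [lin_lin, cm_mul h, lin_one] at h3
  unfold NI
  obtain ⟨δ, hδ⟩ : ∃ δ, δ = v 0 * y 1 - v 1 * y 0 := ⟨_, rfl⟩
  have hl0 : lin (cmi p v y) (X 0) = C (y 1 / δ) * (X 0 - C (p 0) * X 2) +
      C (- y 0 / δ) * (X 1 - C (p 1) * X 2) := by
    unfold Pool.Agent.W609.CR.lin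
    rw [aeval_X, Fin.sum_univ_three]
    have e : cmi p v y 0 2 = - (y 1 / δ * p 0) - (- y 0 / δ * p 1) := by
      rw [hδ]
      simp [cmi]
      ring
    rw [e]
    simp [cmi, ← hδ]
    ring
  have hl1 : lin (cmi p v y) (X 1) = C (-(1 / δ)) * lv p v := by
    unfold Pool.Agent.W609.CR.lin
    rw [aeval_X, Fin.sum_univ_three]
    have e0 : cmi p v y 1 0 = -(1 / δ) * v 1 := by
      rw [hδ]
      simp [cmi]
      ring
    have e1 : cmi p v y 1 1 = -(1 / δ) * (- v 0) := by
      rw [hδ]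
      simp [cmi]
      ring
    have e2 : cmi p v y 1 2 = -(1 / δ) * (v 0 * p 1 - v 1 * p 0) := by
      rw [hδ]
      simp [cmi]
      ring
    rw [e0, e1, e2]
    unfold lv
    simp only [map_mul, map_neg, map_sub]
    ring
  have hp0 : (X 0 - C (p 0) * X 2 : MvPolynomial (Fin 3) K) ∈ pI p :=
    Ideal.subset_span (by simp)
  have hp1 : (X 1 - C (p 1) * X 2 : MvPolynomial (Fin 3) K) ∈ pI p :=
    Ideal.subset_span (by simp)
  have hlvp : lv p v ∈ pI p := Ideal.sub_mem _ (Ideal.mul_mem_left _ _ hp0)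
    (Ideal.mul_mem_left _ _ hp1)
  have hI : Ideal.map (lin (cmi p v y)) (Ideal.span {X 0, X 1}) ≤ pI p := by
    rw [Ideal.map_span, Ideal.span_le, Set.image_pair]
    rintro x (rfl | rfl)
    · rw [SetLike.mem_coe, hl0]
      exact Ideal.add_mem _ (Ideal.mul_mem_left _ _ hp0) (Ideal.mul_mem_left _ _ hp1)
    · rw [SetLike.mem_coe, hl1]
      exact Ideal.mul_mem_left _ _ hlvp
  have hJ : Ideal.map (lin (cmi p v y)) (Ideal.span {X 1}) ≤ Ideal.span {lv p v} := by
    rw [Ideal.map_span, Ideal.span_le, Set.image_singleton]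
    rintro x rfl
    rw [SetLike.mem_coe, hl1]
    exact Ideal.mul_mem_left _ _ (Ideal.mem_span_singleton_self _)
  rw [Ideal.map_mul, Ideal.map_pow, Ideal.map_pow, Ideal.map_sup, Ideal.map_pow] at h3
  exact Ideal.mul_mono (Ideal.pow_right_mono hI _)
    (Ideal.pow_right_mono (sup_le_sup hJ (Ideal.pow_right_mono hI _)) _) h3

/-- The matrix of the quadratic transformation. -/
def qm {K : Type} [Field K] (p : Fin 2 → K) (n n' : ℕ) : Matrix (Fin 3) (Fin 3) K :=
  !![1, 1, p 0; (n : K), (n' : K), p 1; 0, 0, 1]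

/-- The quadratic transform at an infinitely near double point. -/
theorem phi_near {K : Type} [Field K] {f f' : MvPolynomial (Fin 3) K} {m : ℕ} (hm : 2 ≤ m)
    {p v : Fin 2 → K} (hf : f ∈ NI p v m) {n n' : ℕ}
    (hf' : phi K (lin (qm p n n') f) = X 2 ^ m * f') :
    Van ![v 1 - v 0 * n, - (v 1 - v 0 * n'), 0] 2 f' := by
  classical
  obtain ⟨q, hq⟩ : ∃ q : Fin 3 → K, q = ![v 1 - v 0 * n, - (v 1 - v 0 * n'), 0] := ⟨_, rfl⟩
  rw [← hq]
  obtain ⟨φ, hφ⟩ : ∃ φ : MvPolynomial (Fin 3) K →ₐ[K] MvPolynomial (Fin 3) K,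
    φ = (phi K).comp (lin (qm p n n')) := ⟨_, rfl⟩
  have h1 := Ideal.mem_map_of_mem φ hf
  have e0 : φ f = X 2 ^ m * f' := by rw [hφ]; exact hf'
  rw [e0] at h1
  have hx0 : φ (X 0 - C (p 0) * X 2) = X 2 * (X 1 + X 0) := by
    rw [hφ, AlgHom.comp_apply]
    unfold Pool.Agent.W609.CR.lin phi
    simp [Fin.sum_univ_three, qm, algHom_C]
    ring
  have hx1 : φ (X 1 - C (p 1) * X 2) = X 2 * (C (n : K) * X 1 + C (n' : K) * X 0) := by
    rw [hφ, AlgHom.comp_apply]
    unfold Pool.Agent.W609.CR.lin phi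
    simp [Fin.sum_univ_three, qm, algHom_C]
    ring
  have hlv : φ (lv p v) = X 2 * (C (v 1 - v 0 * n) * X 1 + C (v 1 - v 0 * n') * X 0) := by
    unfold lv
    rw [map_sub, map_mul, map_mul, hx0, hx1, algHom_C, algHom_C, algebraMap_eq]
    simp only [map_sub, map_mul]
    ring
  have hI : Ideal.map φ (pI p) ≤ Ideal.span {X 2} := by
    unfold pI
    rw [Ideal.map_span, Ideal.span_le, Set.image_pair]
    rintro x (rfl | rfl)
    · rw [SetLike.mem_coe, hx0]
      exact Ideal.mul_mem_right _ _ (Ideal.mem_span_singleton_self _)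
    · rw [SetLike.mem_coe, hx1]
      exact Ideal.mul_mem_right _ _ (Ideal.mem_span_singleton_self _)
  have hx2 : (X 2 : MvPolynomial (Fin 3) K) ∈ RingHom.ker (MvPolynomial.eval q) := by
    rw [RingHom.mem_ker, eval_X, hq]
    rfl
  have hJ : Ideal.map φ (Ideal.span {lv p v} ⊔ pI p ^ 2) ≤
      Ideal.span {X 2} * RingHom.ker (MvPolynomial.eval q) := by
    rw [Ideal.map_sup, Ideal.map_pow]
    refine sup_le ?_ ?_
    · rw [Ideal.map_span, Ideal.span_le, Set.image_singleton]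
      rintro x rfl
      rw [SetLike.mem_coe, hlv]
      refine Ideal.mul_mem_mul (Ideal.mem_span_singleton_self _) ?_
      rw [RingHom.mem_ker, hq]
      simp
      ring
    · rw [pow_two]
      refine Ideal.mul_mono hI (hI.trans ?_)
      rw [Ideal.span_le]
      rintro x rfl
      exact hx2
  have h2 : X 2 ^ m * f' ∈ Ideal.span {(X 2 : MvPolynomial (Fin 3) K) ^ m} *
      (RingHom.ker (MvPolynomial.eval q)) ^ 2 := by
    unfold NI at h1
    rw [Ideal.map_mul, Ideal.map_pow, Ideal.map_pow] at h1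
    have h3 := Ideal.mul_mono (Ideal.pow_right_mono hI (m - 2)) (Ideal.pow_right_mono hJ 2) h1
    rw [mul_pow, ← mul_assoc, ← pow_add, Nat.sub_add_cancel hm, Ideal.span_singleton_pow] at h3
    exact h3
  obtain ⟨g, hg, hg2⟩ := Ideal.mem_span_singleton_mul.1 h2
  have h4 : g = f' := mul_left_cancel₀ (pow_ne_zero m (X_ne_zero 2)) hg2
  rw [← h4]
  exact hg

end Pool.Agent.TH167.SM
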