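import Pool.Agent.TH167.SM.Quad

set_option autoImplicit false

/-!
# Infinitely near points on components of rigid reduced curves
-/

namespace Pool.Agent.TH167.SM

open MvPolynomial Pool.Agent.W609 Pool.Agent.W609.CR Pool.Agent.TH167.SH Pool.Agent.TH167.TT
  Pool.Agent.TH167.DD

theorem deg_one {K : Type} [Field K] {f : MvPolynomial (Fin 3) K} {d : ℕ}
    (hf : f.IsHomogeneous d) (hd : d ≤ 1) (hf0 : f ≠ 0) {v : Fin 3 → K} : ¬ Van v 2 f := by
  classical
  intro h
  rcases Nat.lt_or_ge d 1 with h0 | h1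
  · have hd0 : d = 0 := by omega
    subst hd0
    have h2 : f.totalDegree = 0 := hf.totalDegree hf0
    rw [MvPolynomial.totalDegree_eq_zero_iff_eq_C] at h2
    have h3 : eval v f = 0 := TT.van_one.1 (van_mono (by omega) h)
    rw [h2, eval_C] at h3
    rw [h3, C_0] at h2
    exact hf0 h2
  · have hd1 : d = 1 := by omega
    subst hd1
    apply hf0
    have e := SH.lin_form hf
    rw [e]
    refine Finset.sum_eq_zero fun l _ => ?_
    have h2 := SH.pd_mem h l
    have h3 : pderiv l f = C (f.coeff (Finsupp.single l 1)) := by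
      conv_lhs => rw [e]
      rw [map_sum, Finset.sum_eq_single l]
      · rw [Derivation.leibniz, pderiv_C, pderiv_X_self]
        simp
      · intro k _ hk
        rw [Derivation.leibniz, pderiv_C, pderiv_X_of_ne hk]
        simp
      · intro h
        exact absurd (Finset.mem_univ _) h
    rw [h3, eval_C] at h2
    rw [h2, C_0, zero_mul]

theorem bs_rat {K : Type} [Field K] [CharZero K] (k b : Fin 3) : ∃ c : ℚ, (bs k : Fin 3 → K) b = (c : K) := by
  by_cases h : b = k
  · subst h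
    exact ⟨1, by simp [bs]⟩
  · exact ⟨0, by simp [bs, h]⟩

theorem bs_ne {K : Type} [Field K] (k : Fin 3) : (bs k : Fin 3 → K) ≠ 0 := by
  intro h
  have := congrFun h k
  simp [bs] at this

theorem bs_off {K : Type} [Field K] {k : Fin 3} {v : Fin 3 → K} {l : Fin 3} (hl : l ≠ k)
    (hv : v l ≠ 0) (c : K) : v ≠ c • bs k := by
  intro h
  have h1 := congrFun h l
  apply hv
  rw [h1]
  simp [bs, hl]

theorem ch2 (n : ℕ) : 2 * ((n + 1).choose 2 : ℤ) = ((n : ℤ) + 1) * n := by
  have h := Nat.triangle_succ n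
  have h1 : (n + 1).choose 2 = (n + 1) * n / 2 := by
    rw [Nat.choose_two_right, Nat.add_sub_cancel]
  have h2 : 2 ∣ (n + 1) * n := by
    rw [mul_comm]
    exact (Nat.even_mul_succ_self n).two_dvd
  have h3 : 2 * (n + 1).choose 2 = (n + 1) * n := by
    rw [h1, Nat.mul_div_cancel' h2]
  exact_mod_cast h3

theorem ch_id {e m : ℕ} (h : m ≤ e) : (2 * e - m + 2).choose 2 + (m + 1).choose 2 =
    (e + 2).choose 2 + 2 * (e - m + 1).choose 2 + (e + 1).choose 2 := by
  obtain ⟨k, rfl⟩ := Nat.exists_eq_add_of_le h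
  have e1 : 2 * (m + k) - m = m + 2 * k := by omega
  have e2 : m + k - m = k := by omega
  rw [e1, e2]
  have a1 := ch2 (m + 2 * k + 1)
  have a2 := ch2 m
  have a3 := ch2 (m + k + 1)
  have a4 := ch2 k
  have a5 := ch2 (m + k)
  have b1 : m + 2 * k + 1 + 1 = m + 2 * k + 2 := rfl
  have b2 : m + k + 1 + 1 = m + k + 2 := rfl
  rw [b1] at a1
  rw [b2] at a3
  have h2 : (2 : ℤ) * (((m + 2 * k + 2).choose 2 + (m + 1).choose 2 : ℕ) : ℤ) =
      2 * (((m + k + 2).choose 2 + 2 * (k + 1).choose 2 + (m + k + 1).choose 2 : ℕ) : ℤ) := by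
    push_cast at a1 a2 a3 a4 a5 ⊢
    linear_combination a1 + a2 - a3 - 2 * a4 - a5
  have h3 := mul_left_cancel₀ (by norm_num : (2 : ℤ) ≠ 0) h2
  exact_mod_cast h3

theorem sum_sub {s : ℕ} (i : Fin s) (f : Fin s → ℕ) :
    ∑ j : {j : Fin s // j ≠ i}, f j.1 + f i = ∑ j, f j := by
  classical
  rw [← Finset.add_sum_erase _ _ (Finset.mem_univ i), add_comm (f i)]
  congr 1
  exact (Finset.sum_subtype (Finset.univ.erase i) (by simp) f).symm

/-- The data of the quadratic transform of a curve. -/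
structure QD {K : Type} [Field K] [CharZero K] {s : ℕ} (P : Fin s → Fin 2 → K) (i : Fin s)
    (n n' : ℕ) (G G' : MvPolynomial (Fin 3) K) (e : ℕ) : Prop where
  irr : Irreducible G'
  hom : G'.IsHomogeneous (2 * e - oq (aff (P i)) G)
  le : oq (aff (P i)) G ≤ e
  ord0 : Ord (bs 0) (e - oq (aff (P i)) G) G'
  ord1 : Ord (bs 1) (e - oq (aff (P i)) G) G'
  ord2 : Ord (bs 2) e G'
  ordP : ∀ j, j ≠ i → Ord (aff (Pc P i n n' j)) (oq (aff (P j)) G) G'
  phi : phi K (Pool.Agent.W609.CR.lin (qm (P i) n n') G) = X 2 ^ oq (aff (P i)) G * G'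

theorem exists_QD {K : Type} [Field K] [CharZero K] {s : ℕ} {P : Fin s → Fin 2 → K}
    (hP : AlgebraicIndependent ℚ (fun ij : Fin s × Fin 2 => P ij.1 ij.2)) (i : Fin s) {n n' : ℕ}
    (hn : n ≠ n') {G : MvPolynomial (Fin 3) K} {e : ℕ} (hG : Irreducible G)
    (hGe : G.IsHomogeneous e) (h0 : eval ![1, (n : K), 0] G ≠ 0)
    (h1 : eval ![1, (n' : K), 0] G ≠ 0) :
    ∃ G' : MvPolynomial (Fin 3) K, QD P i n n' G G' e := by
  obtain ⟨G', g1, g2, g3, g4, g5, g6, g7, g8⟩ := crem_curve hP i hn hG hGe h0 h1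
  exact ⟨G', g1, g2, g3, g4, g5, g6, g7, g8⟩

theorem Pc_coord {K : Type} [Field K] [CharZero K] {s : ℕ} {P : Fin s → Fin 2 → K}
    (hP : AlgebraicIndependent ℚ (fun ij : Fin s × Fin 2 => P ij.1 ij.2)) {i j : Fin s} {n n' : ℕ}
    (hn : n ≠ n') (hj : j ≠ i) (l : Fin 3) : aff (Pc P i n n' j) l ≠ 0 := by
  rw [aff_Pc hj]
  refine inv_ne_zero ?_
  fin_cases l
  · exact ux_ne hP hj hn
  · exact uy_ne hP hj hn
  · exact one_ne_zero

theorem near_one {K : Type} [Field K] [CharZero K] [IsAlgClosed K] {r : ℕ}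
    {P : Fin (r + 4) → Fin 2 → K}
    (hP : AlgebraicIndependent ℚ (fun ij : Fin (r + 4) × Fin 2 => P ij.1 ij.2))
    {i : Fin (r + 4)} {n n' : ℕ} (hn : n ≠ n') {G : MvPolynomial (Fin 3) K} {e : ℕ}
    (hG : Irreducible G) (hGe : G.IsHomogeneous e)
    (hchi : (e + 2).choose 2 = 1 + ∑ j, (oq (aff (P j)) G + 1).choose 2)
    (hT : (insert i (Finset.univ.filter fun j => 2 < oq (aff (P j)) G)).card ≤ 9)
    {G' : MvPolynomial (Fin 3) K} (hQ : QD P i n n' G G' e)
    {q : Fin 3 → K} (q0 : q 0 ≠ 0) (q1 : q 1 ≠ 0) (q2 : q 2 = 0) : ¬ Van q 2 G' := by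
  classical
  intro hv
  obtain ⟨u, hu⟩ : ∃ u : Fin (r + 4) → ℕ, u = fun j => oq (aff (P j)) G := ⟨_, rfl⟩
  have huj : ∀ j, oq (aff (P j)) G = u j := fun j => by rw [hu]
  obtain ⟨g1, g2, g3, g4, g5, g6, g7, -⟩ := hQ
  simp only [huj] at hchi hT g2 g3 g4 g5 g7
  rcases Nat.lt_or_ge (2 * e - u i) 2 with hlt | hge
  · exact deg_one g2 (by omega) g1.ne_zero hv
  obtain ⟨μ, hμ⟩ : ∃ μ, oq q G' = μ := ⟨_, rfl⟩
  have hμ2 : 2 ≤ μ := by
    rw [← hμ]
    exact (oq_van g1.ne_zero 2).1 hv
  have hμo : Ord q μ G' := (oq_ord g1.ne_zero _).2 hμ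
  -- the anticanonical degree
  have hord : ∀ j, Ord (aff (P j)) (u j) G := fun j => (oq_ord hG.ne_zero _).2 (huj j)
  have hc := cub hP hG hGe hord ((Finset.card_le_card (Finset.subset_insert _ _)).trans hT) hT (by
    rintro ⟨h1, h2⟩
    have h3 := Finset.card_insert_le i (Finset.univ.filter fun j => 2 < u j)
    obtain ⟨j, hj⟩ : (Finset.univ.filter fun j => 2 < u j).Nonempty := by
      rw [← Finset.card_pos]
      omega
    have h4 := h2 j (Finset.mem_insert_of_mem hj)
    have h5 := (Finset.mem_filter.1 hj).2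
    omega)
  obtain ⟨S0, hS0⟩ : ∃ S0, S0 = Finset.univ.filter fun j => 2 < u j := ⟨_, rfl⟩
  have hm0 : ∀ j, j ∈ S0 ↔ 2 < u j := fun j => by
    rw [hS0, Finset.mem_filter]
    simp
  rw [← hS0] at hc
  have hins : insert i S0 = insert i (S0.erase i) := by
    ext j
    simp only [Finset.mem_insert, Finset.mem_erase]
    tauto
  rw [hins, Finset.sum_insert (Finset.notMem_erase _ _)] at hc
  let ι : Type := {j : Fin (r + 4) // j ≠ i}
  let S : Finset ι := (S0.erase i).subtype fun j => j ≠ i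
  have hSs : ∑ j ∈ S, u j.1 = ∑ j ∈ S0.erase i, u j :=
    Finset.sum_subtype_of_mem u (fun j hj => Finset.ne_of_mem_erase hj)
  have hgen := (Pc_gen hP i hn).comp (fun ij : ι × Fin 2 => (ij.1.1, ij.2)) (by
    rintro ⟨a, b⟩ ⟨a', b'⟩ h
    rw [Prod.mk.injEq] at h
    exact Prod.ext (Subtype.ext h.1) h.2)
  have hchi' := chi_hom (ι := ι) (κ := Fin 3) (e := 2 * e - u i) (w := fun j => u j.1)
    (u := ![e - u i, e - u i, e]) (S := S) (P := fun j => Pc P i n n' j.1) (R := bs)
    (G := G') (q := q) (μ := μ) (by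
      intro j hj
      by_contra hcon
      apply hj
      show j ∈ (S0.erase i).subtype _
      rw [Finset.mem_subtype, Finset.mem_erase, hm0]
      exact ⟨j.2, by omega⟩) (by
      rw [hSs, Fin.sum_univ_three]
      simp only [Matrix.cons_val_zero, Matrix.cons_val_one, Matrix.cons_val]
      omega) hgen bs_rat bs_ne (by
      intro k k' hkk c
      refine bs_off hkk ?_ c
      simp [bs]) (by
      intro j k c
      obtain ⟨l, hl⟩ : ∃ l : Fin 3, l ≠ k := by
        fin_cases k
        · exact ⟨1, by decide⟩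
        · exact ⟨0, by decide⟩
        · exact ⟨0, by decide⟩
      exact bs_off hl (Pc_coord hP hn j.2 l) c) g1 g2 hge (fun j => g7 j.1 j.2) (by
      intro k
      fin_cases k
      · exact g4
      · exact g5
      · exact g6) (by
      intro h
      exact q0 (congrFun h 0)) (by
      intro j c h
      have h2 := congrFun h 2
      rw [q2] at h2
      have h3 : c = 0 := by
        have : (c • aff (Pc P i n n' j.1)) 2 = c * 1 := rfl
        rw [this, mul_one] at h2
        exact h2.symm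
      rw [h3, zero_smul] at h
      exact q0 (congrFun h 0)) (by
      intro k c
      fin_cases k
      · exact bs_off (l := 1) (by decide) q1 c
      · exact bs_off (l := 0) (by decide) q0 c
      · exact bs_off (l := 0) (by decide) q0 c) hμo
  have h1 := sum_sub i (fun j => (u j + 1).choose 2)
  rw [Fin.sum_univ_three] at hchi'
  simp only [Matrix.cons_val_zero, Matrix.cons_val_one, Matrix.cons_val] at hchi'
  have h2 := ch_id g3
  have h3 : 1 ≤ μ.choose 2 := Nat.choose_pos hμ2
  have h4 : ∑ j : ι, (u j.1 + 1).choose 2 =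
    ∑ j : {j : Fin (r + 4) // j ≠ i}, (u j.1 + 1).choose 2 := rfl
  rw [h4] at hchi'
  omega

theorem near_two {K : Type} [Field K] [CharZero K] {r : ℕ}
    {P : Fin (r + 4) → Fin 2 → K}
    (hP : AlgebraicIndependent ℚ (fun ij : Fin (r + 4) × Fin 2 => P ij.1 ij.2))
    {i : Fin (r + 4)} {n n' : ℕ} (hn : n ≠ n') {G1 G2 : MvPolynomial (Fin 3) K} {e1 e2 : ℕ}
    (hG1 : Irreducible G1) (hG2 : Irreducible G2) (hGe1 : G1.IsHomogeneous e1)
    (hGe2 : G2.IsHomogeneous e2)
    (hrig : Module.finrank K ↥(VS (fun j => aff (P j)) (fun j => oq (aff (P j)) G1) e1) = 1)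
    (hip : e1 * e2 = ∑ j, oq (aff (P j)) G1 * oq (aff (P j)) G2) (hnd : ¬ G1 ∣ G2)
    {G1' G2' : MvPolynomial (Fin 3) K} (hQ1 : QD P i n n' G1 G1' e1)
    (hQ2 : QD P i n n' G2 G2' e2)
    {q : Fin 3 → K} (q0 : q 0 ≠ 0) (q1 : q 1 ≠ 0) (q2 : q 2 = 0) (hv1 : Van q 1 G1')
    (hv2 : Van q 1 G2') : False := by
  classical
  obtain ⟨u1, hu1⟩ : ∃ u : Fin (r + 4) → ℕ, u = fun j => oq (aff (P j)) G1 := ⟨_, rfl⟩
  have huj1 : ∀ j, oq (aff (P j)) G1 = u1 j := fun j => by rw [hu1]
  obtain ⟨u2, hu2⟩ : ∃ u : Fin (r + 4) → ℕ, u = fun j => oq (aff (P j)) G2 := ⟨_, rfl⟩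
  have huj2 : ∀ j, oq (aff (P j)) G2 = u2 j := fun j => by rw [hu2]
  obtain ⟨g1, g2, g3, g4, g5, g6, g7, -⟩ := hQ1
  obtain ⟨k1, k2, k3, k4, k5, k6, k7, -⟩ := hQ2
  rw [← hu1] at hrig
  simp only [huj1] at hip g2 g3 g4 g5 g7
  simp only [huj2] at hip k2 k3 k4 k5 k7
  -- the transforms are different
  have hnd' : ¬ G1' ∣ G2' := by
    intro hd
    have hass : Associated G1' G2' := (g1.dvd_irreducible_iff_associated k1).1 hd
    obtain ⟨t, ht⟩ := hass
    have ho : ∀ (v : Fin 3 → K) (a b : ℕ), Ord v a G1' → Ord v b G2' → a = b := by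
      intro v a b ha hb
      rw [oq_ord g1.ne_zero] at ha
      rw [oq_ord k1.ne_zero] at hb
      have h1 := oq_mul v g1.ne_zero t.ne_zero
      rw [ht] at h1
      have h2 : oq v (t : MvPolynomial (Fin 3) K) = 0 := by
        refine o_unit (o := oq v) (F := 0) (fun a b _ ha hb => oq_mul v ha hb) t.isUnit
      omega
    have e12 : e1 = e2 := ho _ _ _ g6 k6
    have m12 : u1 i = u2 i := by
      have := ho _ _ _ g4 k4
      omega
    have hu : ∀ j, u1 j = u2 j := by
      intro j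
      by_cases hj : j = i
      · rw [hj]
        exact m12
      · exact ho _ _ _ (g7 j hj) (k7 j hj)
    have m1 : G1 ∈ VS (fun j => aff (P j)) u1 e1 := (mem_VS _ _ _ _).2
      ⟨hGe1, fun j => (oq_van hG1.ne_zero _).2 (huj1 j).ge⟩
    have m2 : G2 ∈ VS (fun j => aff (P j)) u1 e1 := (mem_VS _ _ _ _).2
      ⟨by rw [e12]; exact hGe2, fun j => (oq_van hG2.ne_zero _).2
        (by rw [huj2, hu])⟩
    obtain ⟨c, hc⟩ := (finrank_eq_one_iff_of_nonzero' (⟨G1, m1⟩ :
      ↥(VS (fun j => aff (P j)) u1 e1)) (fun h => hG1.ne_zero (congrArg Subtype.val h))).1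
        hrig ⟨G2, m2⟩
    have hc' : c • G1 = G2 := congrArg Subtype.val hc
    apply hnd
    rw [← hc', smul_eq_C_mul]
    exact dvd_mul_left _ _
  let ι : Type := {j : Fin (r + 4) // j ≠ i}
  have hPci : Function.Injective (Pc P i n n') := SH.inj_of_alg (Pc_gen hP i hn)
  have hb := bezH (ι := Option (ι ⊕ Fin 3))
    (v := fun x => x.elim q (Sum.elim (fun j => aff (Pc P i n n' j.1)) bs))
    (u := fun x => x.elim 1 (Sum.elim (fun j => u1 j.1) ![e1 - u1 i, e1 - u1 i, e1]))
    (w := fun x => x.elim 1 (Sum.elim (fun j => u2 j.1) ![e2 - u2 i, e2 - u2 i, e2]))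
    (by
      rintro (_ | (j | k))
      · intro h
        exact q0 (congrFun h 0)
      · exact aff_ne _
      · exact bs_ne k) (by
      have A1 : ∀ (j : ι) (c : K), q ≠ c • aff (Pc P i n n' j.1) := by
        intro j c h
        have h2 := congrFun h 2
        rw [q2] at h2
        have h3 : c = 0 := by
          have : (c • aff (Pc P i n n' j.1)) 2 = c * 1 := rfl
          rw [this, mul_one] at h2
          exact h2.symm
        rw [h3, zero_smul] at h
        exact q0 (congrFun h 0)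
      have A2 : ∀ (k : Fin 3) (c : K), q ≠ c • bs k := by
        intro k c
        fin_cases k
        · exact bs_off (l := 1) (by decide) q1 c
        · exact bs_off (l := 0) (by decide) q0 c
        · exact bs_off (l := 0) (by decide) q0 c
      have A3 : ∀ (j : ι) (k : Fin 3) (c : K), aff (Pc P i n n' j.1) ≠ c • bs k := by
        intro j k c
        obtain ⟨l, hl⟩ : ∃ l : Fin 3, l ≠ k := by
          fin_cases k
          · exact ⟨1, by decide⟩
          · exact ⟨0, by decide⟩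
          · exact ⟨0, by decide⟩
        exact bs_off hl (Pc_coord hP hn j.2 l) c
      have flip2 : ∀ (v v' : Fin 3 → K), v' ≠ 0 → (∀ c : K, v ≠ c • v') → ∀ c : K, v' ≠ c • v := by
        intro v v' h0 h c hc
        have hc0 : c ≠ 0 := by
          rintro rfl
          rw [zero_smul] at hc
          exact h0 hc
        apply h c⁻¹
        rw [hc, smul_smul, inv_mul_cancel₀ hc0, one_smul]
      rintro (_ | (j | k)) (_ | (j' | k')) hne c
      · exact absurd rfl hne
      · exact A1 j' c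
      · exact A2 k' c
      · exact flip2 _ _ (aff_ne _) (A1 j) c
      · intro h
        have h2 := congrFun h 2
        have h3 : (1 : K) = c * 1 := h2
        rw [mul_one] at h3
        rw [← h3] at h
        change aff (Pc P i n n' j.1) = (1 : K) • aff (Pc P i n n' j'.1) at h
        rw [one_smul] at h
        apply hne
        have h4 : Pc P i n n' j.1 = Pc P i n n' j'.1 := by
          funext b
          fin_cases b
          · exact congrFun h 0
          · exact congrFun h 1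
        rw [Subtype.ext (hPci h4)]
      · exact A3 j k' c
      · exact flip2 _ _ (bs_ne k) (A2 k) c
      · exact flip2 _ _ (bs_ne k) (A3 j' k) c
      · refine bs_off (l := k) ?_ ?_ c
        · rintro rfl
          exact hne rfl
        · show (bs k : Fin 3 → K) k ≠ 0
          simp [bs]) g1 g2 (by
      rintro (_ | (j | k))
      · exact hv1
      · exact (g7 j.1 j.2).1
      · fin_cases k
        · exact g4.1
        · exact g5.1
        · exact g6.1) k1.ne_zero k2 (by
      rintro (_ | (j | k))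
      · exact hv2
      · exact (k7 j.1 j.2).1
      · fin_cases k
        · exact k4.1
        · exact k5.1
        · exact k6.1) hnd'
  rw [Fintype.sum_option, Fintype.sum_sum_type, Fin.sum_univ_three] at hb
  simp only [Option.elim_none, Option.elim_some, Sum.elim_inl, Sum.elim_inr,
    Matrix.cons_val_zero, Matrix.cons_val_one, Matrix.cons_val] at hb
  have h1 := sum_sub i (fun j => u1 j * u2 j)
  obtain ⟨a, ha⟩ := Nat.exists_eq_add_of_le g3
  obtain ⟨b, hb'⟩ := Nat.exists_eq_add_of_le k3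
  have c1 : e1 - u1 i = a := by omega
  have c2 : e2 - u2 i = b := by omega
  have c3 : 2 * e1 - u1 i = u1 i + 2 * a := by omega
  have c4 : 2 * e2 - u2 i = u2 i + 2 * b := by omega
  rw [c1, c2, c3, c4] at hb
  have h4 : ∑ j : ι, u1 j.1 * u2 j.1 =
    ∑ j : {j : Fin (r + 4) // j ≠ i}, u1 j.1 * u2 j.1 := rfl
  rw [h4] at hb
  rw [ha, hb'] at hb hip
  nlinarith

end Pool.Agent.TH167.SM
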