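import Pool.Agent.TH167.SM.General

set_option autoImplicit false

/-!
# The general member is smooth, II
-/

namespace Pool.Agent.TH167.SM

open MvPolynomial Pool.Agent.W609 Pool.Agent.W609.CR Pool.Agent.TH167.SH Pool.Agent.TH167.TT
  Pool.Agent.TH167.DD Pool.Agent.H248R5 Pool.Agent.H248R6 Pool.Agent.W641.CR

/-- The universal member. -/
noncomputable def uG {K : Type} [Field K] {N : ℕ} (b : Fin N → MvPolynomial (Fin 3) K) :
    MvPolynomial (Fin 3) (MvPolynomial (Fin N) K) :=
  ∑ j, C (X j) * map C (b j)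

theorem map_uG {K L : Type} [Field K] [CommRing L] {N : ℕ} (b : Fin N → MvPolynomial (Fin 3) K)
    (ψ : MvPolynomial (Fin N) K →+* L) :
    map ψ (uG b) = ∑ j, C (ψ (X j)) * map (ψ.comp C) (b j) := by
  unfold uG
  rw [map_sum]
  refine Finset.sum_congr rfl fun j _ => ?_
  rw [map_mul, map_C, map_map]

/-- Elimination of the singular points off the base points. -/
theorem elim_fin {K L : Type} [Field K] [Field L] [IsAlgClosed L] [Algebra K L] {s N : ℕ}
    {P : Fin s → Fin 2 → K} (b : Fin N → MvPolynomial (Fin 3) K) {t : Fin N → L}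
    (ht : AlgebraicIndependent K t)
    (H : ∀ q : Fin 3 → L, q ≠ 0 →
        (∀ i, ∀ c : L, q ≠ c • aff (fun a => algebraMap K L (P i a))) →
        ¬ (eval q (∑ j, C (t j) * map (algebraMap K L) (b j)) = 0 ∧
          ∀ a, eval q (pderiv a (∑ j, C (t j) * map (algebraMap K L) (b j))) = 0)) :
    ∃ Φ : MvPolynomial (Fin N) K, Φ ≠ 0 ∧ ∀ t : Fin N → K, eval t Φ ≠ 0 →
      ∀ Q : Fin 3 → K, Q ≠ 0 → (∀ i, ∀ c : K, Q ≠ c • aff (P i)) →
        eval Q (∑ j, C (t j) * b j) ≠ 0 ∨ ∃ a, eval Q (pderiv a (∑ j, C (t j) * b j)) ≠ 0 := by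
  classical
  have hinj := algebraicIndependent_iff_injective_aeval.1 ht
  obtain ⟨φ, hφ⟩ : ∃ φ : MvPolynomial (Fin N) K →+* L,
    φ = (aeval t : MvPolynomial (Fin N) K →ₐ[K] L) := ⟨_, rfl⟩
  have hφi : Function.Injective φ := by
    rw [hφ]
    exact hinj
  have hφC : φ.comp C = algebraMap K L := by
    ext c
    rw [hφ]
    simp
  have hφX : ∀ j, φ (X j) = t j := by
    intro j
    rw [hφ]
    simp
  let F : Option (Fin 3) → MvPolynomial (Fin 3) (MvPolynomial (Fin N) K) := fun o =>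
    match o with
    | none => uG b
    | some a => pderiv a (uG b)
  let h : (Fin s → Fin 2) × Fin 3 → MvPolynomial (Fin 3) (MvPolynomial (Fin N) K) := fun εc =>
    X εc.2 * ∏ i, (X (εc.1 i).castSucc - C (C (P i (εc.1 i))) * X 2)
  have hh : ∀ (T : Type) [Field T] (ψ : MvPolynomial (Fin N) K →+* T) (q : Fin 3 → T) εc,
      eval₂ ψ q (h εc) = q εc.2 * ∏ i, (q (εc.1 i).castSucc - ψ (C (P i (εc.1 i))) * q 2) := by
    intro T _ ψ q εc
    show eval₂ ψ q (X εc.2 * ∏ i, (X (εc.1 i).castSucc - C (C (P i (εc.1 i))) * X 2)) = _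
    rw [← coe_eval₂Hom]
    simp [map_mul, map_prod]
  have hF0 : ∀ (T : Type) [Field T] (ψ : MvPolynomial (Fin N) K →+* T) (q : Fin 3 → T),
      eval₂ ψ q (F none) = eval q (map ψ (uG b)) := by
    intro T _ ψ q
    show eval₂ ψ q (uG b) = _
    rw [eval₂_eq_eval_map]
  have hF1 : ∀ (T : Type) [Field T] (ψ : MvPolynomial (Fin N) K →+* T) (q : Fin 3 → T) a,
      eval₂ ψ q (F (some a)) = eval q (pderiv a (map ψ (uG b))) := by
    intro T _ ψ q a
    show eval₂ ψ q (pderiv a (uG b)) = _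
    rw [eval₂_eq_eval_map, pderiv_map]
  have hel := fun εc : (Fin s → Fin 2) × Fin 3 => elim1 φ hφi F (h εc) (by
    intro q hq
    by_contra hne
    have h1 : map φ (uG b) = ∑ j, C (t j) * map (algebraMap K L) (b j) := by
      rw [map_uG, hφC]
      exact Finset.sum_congr rfl fun j _ => by rw [hφX]
    rw [hh] at hne
    have h2 := left_ne_zero_of_mul hne
    have h3 := right_ne_zero_of_mul hne
    rw [Finset.prod_ne_zero_iff] at h3
    refine H q ?_ ?_ ⟨?_, fun a => ?_⟩
    · rintro rfl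
      exact h2 rfl
    · rintro i c rfl
      apply h3 i (Finset.mem_univ i)
      have e1 : φ (C (P i (εc.1 i))) = algebraMap K L (P i (εc.1 i)) :=
        RingHom.congr_fun hφC _
      rw [e1]
      have e2 : (c • aff (fun a => algebraMap K L (P i a))) (Fin.castSucc (εc.1 i)) =
          c * algebraMap K L (P i (εc.1 i)) := by
        rw [Pi.smul_apply, smul_eq_mul]
        congr 1
        generalize εc.1 i = α
        fin_cases α <;> rfl
      have e3 : (c • aff (fun a => algebraMap K L (P i a))) 2 = c := by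
        rw [Pi.smul_apply, smul_eq_mul]
        exact mul_one c
      rw [e2, e3]
      ring
    · rw [← h1, ← hF0]
      exact hq none
    · rw [← h1, ← hF1]
      exact hq (some a))
  choose Φ hΦ0 hΦ using hel
  refine ⟨∏ εc, Φ εc, Finset.prod_ne_zero_iff.2 fun εc _ => hΦ0 εc, fun t0 ht0 Q hQ0 hQ => ?_⟩
  rw [map_prod, Finset.prod_ne_zero_iff] at ht0
  by_contra hcon
  push Not at hcon
  obtain ⟨c, hc⟩ : ∃ c, Q c ≠ 0 := by
    by_contra hc
    push Not at hc
    exact hQ0 (funext hc)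
  have hε : ∀ i, ∃ a : Fin 2, Q a.castSucc - P i a * Q 2 ≠ 0 := by
    intro i
    by_contra hc
    push Not at hc
    apply hQ i (Q 2)
    funext l
    have c0 := hc 0
    have c1 := hc 1
    have e0 : (Fin.castSucc (0 : Fin 2)) = (0 : Fin 3) := rfl
    have e1 : (Fin.castSucc (1 : Fin 2)) = (1 : Fin 3) := rfl
    rw [e0] at c0
    rw [e1] at c1
    rw [Pi.smul_apply, smul_eq_mul]
    fin_cases l
    · show Q 0 = Q 2 * P i 0
      linear_combination c0
    · show Q 1 = Q 2 * P i 1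
      linear_combination c1
    · show Q 2 = Q 2 * 1
      rw [mul_one]
  choose ε hε using hε
  have h1 : map (eval t0) (uG b) = ∑ j, C (t0 j) * b j := by
    rw [map_uG]
    have : (eval t0).comp (C : K →+* MvPolynomial (Fin N) K) = RingHom.id K := by
      ext c
      simp
    rw [this]
    exact Finset.sum_congr rfl fun j _ => by rw [eval_X, map_id]
  have h2 := hΦ (ε, c) K (eval t0) (ht0 _ (Finset.mem_univ _)) Q (by
    intro o
    rcases o with _ | a
    · rw [hF0, h1]
      exact hcon.1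
    · rw [hF1, h1]
      exact hcon.2 a)
  rw [hh] at h2
  rcases mul_eq_zero.1 h2 with h3 | h3
  · exact hc h3
  · rw [Finset.prod_eq_zero_iff] at h3
    obtain ⟨i, -, hi⟩ := h3
    rw [eval_C] at hi
    exact hε i hi

/-- Elimination of the singular points on an exceptional curve. -/
theorem elim_chart {K L : Type} [Field K] [Field L] [IsAlgClosed L] [Algebra K L] {N : ℕ}
    {p : Fin 2 → K} (m : ℕ) (b : Fin N → MvPolynomial (Fin 3) K) {t : Fin N → L}
    (ht : AlgebraicIndependent K t)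
    (H : ∀ v y : Fin 2 → L, v 0 * y 1 - v 1 * y 0 ≠ 0 →
        ¬ ∀ k, coeff (c3e m k) (chart (fun a => algebraMap K L (p a)) v y
          (∑ j, C (t j) * map (algebraMap K L) (b j))) = 0) :
    ∃ Φ : MvPolynomial (Fin N) K, Φ ≠ 0 ∧ ∀ t : Fin N → K, eval t Φ ≠ 0 →
      ∀ v y : Fin 2 → K, v 0 * y 1 - v 1 * y 0 ≠ 0 →
        ¬ ∀ k, coeff (c3e m k) (chart p v y (∑ j, C (t j) * b j)) = 0 := by
  classical
  have hinj := algebraicIndependent_iff_injective_aeval.1 ht
  obtain ⟨φ, hφ⟩ : ∃ φ : MvPolynomial (Fin N) K →+* L,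
    φ = (aeval t : MvPolynomial (Fin N) K →ₐ[K] L) := ⟨_, rfl⟩
  have hφi : Function.Injective φ := by
    rw [hφ]
    exact hinj
  have hφC : φ.comp C = algebraMap K L := by
    ext c
    rw [hφ]
    simp
  have hφX : ∀ j, φ (X j) = t j := by
    intro j
    rw [hφ]
    simp
  let S := MvPolynomial (Fin 2 ⊕ Fin 2) (MvPolynomial (Fin N) K)
  let U : MvPolynomial (Fin 2) S := chartR (fun a => (C (C (p a)) : S))
    (fun a => (X (Sum.inl a) : S)) (fun a => (X (Sum.inr a) : S)) (map C (uG b))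
  let h : S := X (Sum.inl 0) * X (Sum.inr 1) - X (Sum.inl 1) * X (Sum.inr 0)
  have hU : ∀ (T : Type) [Field T] (ψ : MvPolynomial (Fin N) K →+* T) (q : Fin 2 ⊕ Fin 2 → T)
      (α : Fin 2 →₀ ℕ), eval₂ ψ q (coeff α U) = coeff α (chart (fun a => ψ (C (p a)))
        (fun a => q (Sum.inl a)) (fun a => q (Sum.inr a)) (map ψ (uG b))) := by
    intro T _ ψ q α
    rw [← coe_eval₂Hom, ← coeff_map]
    show coeff α (map (eval₂Hom ψ q) (chartR _ _ _ _)) = _
    rw [chartR_map, map_map]
    have e1 : (eval₂Hom ψ q).comp C = ψ := by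
      ext c
      simp
      simp
    rw [e1]
    simp only [coe_eval₂Hom, eval₂_C, eval₂_X]
    rfl
  have hh : ∀ (T : Type) [Field T] (ψ : MvPolynomial (Fin N) K →+* T) (q : Fin 2 ⊕ Fin 2 → T),
      eval₂ ψ q h = q (Sum.inl 0) * q (Sum.inr 1) - q (Sum.inl 1) * q (Sum.inr 0) := by
    intro T _ ψ q
    show eval₂ ψ q (X (Sum.inl 0) * X (Sum.inr 1) - X (Sum.inl 1) * X (Sum.inr 0)) = _
    rw [← coe_eval₂Hom]
    simp
  obtain ⟨Φ, hΦ0, hΦ⟩ := elim1 φ hφi (fun k : Fin 3 => coeff (c3e m k) U) h (by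
    intro q hq
    by_contra hne
    have h1 : map φ (uG b) = ∑ j, C (t j) * map (algebraMap K L) (b j) := by
      rw [map_uG, hφC]
      exact Finset.sum_congr rfl fun j _ => by rw [hφX]
    rw [hh] at hne
    refine H (fun a => q (Sum.inl a)) (fun a => q (Sum.inr a)) hne fun k => ?_
    have h2 := hq k
    rw [hU, h1] at h2
    have e1 : (fun a => φ (C (p a))) = fun a => algebraMap K L (p a) :=
      funext fun a => RingHom.congr_fun hφC _
    rw [e1] at h2
    exact h2)
  refine ⟨Φ, hΦ0, fun t0 ht0 v y hvy hcon => ?_⟩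
  have h1 : map (eval t0) (uG b) = ∑ j, C (t0 j) * b j := by
    rw [map_uG]
    have : (eval t0).comp (C : K →+* MvPolynomial (Fin N) K) = RingHom.id K := by
      ext c
      simp
    rw [this]
    exact Finset.sum_congr rfl fun j _ => by rw [eval_X, map_id]
  have h2 := hΦ K (eval t0) ht0 (Sum.elim v y) (by
    intro k
    rw [hU, h1]
    have e1 : (fun a => eval t0 (C (p a))) = p := funext fun a => eval_C _
    rw [e1]
    exact hcon k)
  rw [hh] at h2
  exact hvy h2

/-- If a linear system with at most nine multiplicities larger than two at generic points has a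
reduced member, then it is nonspecial and its general member is smooth on the blow-up. -/
theorem general_smooth {K : Type} [Field K] [CharZero K] [IsAlgClosed K] {s : ℕ}
    {P : Fin s → Fin 2 → K}
    (hP : AlgebraicIndependent ℚ (fun ij : Fin s × Fin 2 => P ij.1 ij.2)) {w : Fin s → ℕ}
    (hw : (Finset.univ.filter fun i => 2 < w i).card ≤ 9)
    {d : ℕ} {f : MvPolynomial (Fin 3) K} (hf : f ∈ VS (fun j => aff (P j)) w d)
    (hsq : Squarefree f) :
    (Module.finrank K ↥(VS (fun j => aff (P j)) w d) : ℤ) = chi d w ∧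
      GeneralMember (VS (fun j => aff (P j)) w d) (SmoothOn P w) := by
  classical
  have hfin := vs_fin (fun j => aff (P j)) w d
  have hpos := pos_of_mem hf hsq.ne_zero
  obtain ⟨n, hn⟩ : ∃ n, Module.finrank K ↥(VS (fun j => aff (P j)) w d) = n + 1 :=
    ⟨Module.finrank K ↥(VS (fun j => aff (P j)) w d) - 1, by omega⟩
  let b : Module.Basis (Fin (n + 1)) K ↥(VS (fun j => aff (P j)) w d) :=
    Module.finBasisOfFinrankEq K _ hn
  obtain ⟨h0, L, i1, i2, i3, t, ht, h1, h2⟩ := gen_smooth hP hw b hf hsq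
  refine ⟨by rw [hn, ← h0]; push_cast; rfl, general_of_basis b ?_⟩
  obtain ⟨Φ1, hΦ1, hΦ1'⟩ := elim_fin (P := P) (fun j => (b j : MvPolynomial (Fin 3) K)) ht h1
  have h3 := fun i => elim_chart (p := P i) (w i) (fun j => (b j : MvPolynomial (Fin 3) K)) ht
    (h2 i)
  choose Φ2 hΦ2 hΦ2' using h3
  refine ⟨Φ1 * ∏ i, Φ2 i, mul_ne_zero hΦ1 (Finset.prod_ne_zero_iff.2 fun i _ => hΦ2 i),
    fun t0 ht0 => ?_⟩
  rw [map_mul] at ht0
  have k1 := left_ne_zero_of_mul ht0
  have k2 := right_ne_zero_of_mul ht0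
  rw [map_prod, Finset.prod_ne_zero_iff] at k2
  have e : ∑ j, t0 j • (b j : MvPolynomial (Fin 3) K) =
      ∑ j, C (t0 j) * (b j : MvPolynomial (Fin 3) K) :=
    Finset.sum_congr rfl fun j _ => by rw [smul_eq_C_mul]
  have hmem : ∑ j, t0 j • (b j : MvPolynomial (Fin 3) K) ∈ VS (fun j => aff (P j)) w d :=
    Submodule.sum_mem _ fun j _ => Submodule.smul_mem _ _ (b j).2
  have hm := (mem_VS _ _ _ _).1 hmem
  refine ⟨fun Q hQ0 hQ => ?_, fun i v y hvy => ?_⟩
  · rw [e]
    exact hΦ1' t0 k1 Q hQ0 hQ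
  · obtain ⟨H, hH⟩ := chart_div hm.1 (hm.2 i) v y
    refine ⟨H, hH, ?_⟩
    rw [smooth_coef hH, e]
    exact hΦ2' i t0 (k2 i (Finset.mem_univ i)) v y hvy

end Pool.Agent.TH167.SM
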