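import Pool.Agent.TH167.SM.Open

set_option autoImplicit false

/-!
# Irreducible systems with positive anticanonical degree at the large points
-/

namespace Pool.Agent.TH167.SM

open MvPolynomial Pool.Agent.W609 Pool.Agent.W609.CR Pool.Agent.TH167.SH Pool.Agent.TH167.TT
  Pool.Agent.TH167.DD Pool.Agent.H248R5 Pool.Agent.H248R6 Pool.Agent.W641.CR

/-- No infinitely near double point, from the anticanonical degree. -/
theorem near_oneP {K : Type} [Field K] [CharZero K] [IsAlgClosed K] {r : ℕ}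
    {P : Fin (r + 4) → Fin 2 → K}
    (hP : AlgebraicIndependent ℚ (fun ij : Fin (r + 4) × Fin 2 => P ij.1 ij.2))
    {i : Fin (r + 4)} {n n' : ℕ} (hn : n ≠ n') {G : MvPolynomial (Fin 3) K} {e : ℕ}
    (hchi : (e + 2).choose 2 = 1 + ∑ j, (oq (aff (P j)) G + 1).choose 2)
    (hc : ∑ j ∈ insert i (Finset.univ.filter fun j => 2 < oq (aff (P j)) G),
      oq (aff (P j)) G < 3 * e)
    {G' : MvPolynomial (Fin 3) K} (hQ : QD P i n n' G G' e)
    {q : Fin 3 → K} (q0 : q 0 ≠ 0) (q1 : q 1 ≠ 0) (q2 : q 2 = 0) : ¬ Van q 2 G' := by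
  classical
  intro hv
  obtain ⟨u, hu⟩ : ∃ u : Fin (r + 4) → ℕ, u = fun j => oq (aff (P j)) G := ⟨_, rfl⟩
  have huj : ∀ j, oq (aff (P j)) G = u j := fun j => by rw [hu]
  obtain ⟨g1, g2, g3, g4, g5, g6, g7, -⟩ := hQ
  simp only [huj] at hchi hc g2 g3 g4 g5 g7
  rcases Nat.lt_or_ge (2 * e - u i) 2 with hlt | hge
  · exact deg_one g2 (by omega) g1.ne_zero hv
  obtain ⟨μ, hμ⟩ : ∃ μ, oq q G' = μ := ⟨_, rfl⟩
  have hμ2 : 2 ≤ μ := by
    rw [← hμ]
    exact (oq_van g1.ne_zero 2).1 hv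
  have hμo : Ord q μ G' := (oq_ord g1.ne_zero _).2 hμ
  obtain ⟨S0, hS0⟩ : ∃ S0, S0 = Finset.univ.filter fun j => 2 < u j := ⟨_, rfl⟩
  have hm0 : ∀ j, j ∈ S0 ↔ 2 < u j := fun j => by
    rw [hS0, Finset.mem_filter]
    simp
  rw [← hS0] at hc
  have hins : insert i S0 = insert i (S0.erase i) := by
    ext j
    simp only [Finset.mem_insert, Finset.mem_erase]
    tauto
  rw [hins, Finset.sum_insert (Finset.notMem_erase _ _)] at hc
  let ι : Type := {j : Fin (r + 4) // j ≠ i}
  let S : Finset ι := (S0.erase i).subtype fun j => j ≠ i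
  have hSs : ∑ j ∈ S, u j.1 = ∑ j ∈ S0.erase i, u j :=
    Finset.sum_subtype_of_mem u (fun j hj => Finset.ne_of_mem_erase hj)
  have hgen := (Pc_gen hP i hn).comp (fun ij : ι × Fin 2 => (ij.1.1, ij.2)) (by
    rintro ⟨a, b⟩ ⟨a', b'⟩ h
    rw [Prod.mk.injEq] at h
    exact Prod.ext (Subtype.ext h.1) h.2)
  have hchi' := chi_hom (ι := ι) (κ := Fin 3) (e := 2 * e - u i) (w := fun j => u j.1)
    (u := ![e - u i, e - u i, e]) (S := S) (P := fun j => Pc P i n n' j.1) (R := bs)
    (G := G') (q := q) (μ := μ) (by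
      intro j hj
      by_contra hcon
      apply hj
      show j ∈ (S0.erase i).subtype _
      rw [Finset.mem_subtype, Finset.mem_erase, hm0]
      exact ⟨j.2, by omega⟩) (by
      rw [hSs, Fin.sum_univ_three]
      simp only [Matrix.cons_val_zero, Matrix.cons_val_one, Matrix.cons_val]
      omega) hgen bs_rat bs_ne (by
      intro k k' hkk c
      refine bs_off hkk ?_ c
      simp [bs]) (by
      intro j k c
      obtain ⟨l, hl⟩ : ∃ l : Fin 3, l ≠ k := by
        fin_cases k
        · exact ⟨1, by decide⟩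
        · exact ⟨0, by decide⟩
        · exact ⟨0, by decide⟩
      exact bs_off hl (Pc_coord hP hn j.2 l) c) g1 g2 hge (fun j => g7 j.1 j.2) (by
      intro k
      fin_cases k
      · exact g4
      · exact g5
      · exact g6) (by
      intro h
      exact q0 (congrFun h 0)) (by
      intro j c h
      have h2 := congrFun h 2
      rw [q2] at h2
      have h3 : c = 0 := by
        have : (c • aff (Pc P i n n' j.1)) 2 = c * 1 := rfl
        rw [this, mul_one] at h2
        exact h2.symm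
      rw [h3, zero_smul] at h
      exact q0 (congrFun h 0)) (by
      intro k c
      fin_cases k
      · exact bs_off (l := 1) (by decide) q1 c
      · exact bs_off (l := 0) (by decide) q0 c
      · exact bs_off (l := 0) (by decide) q0 c) hμo
  have h1 := sum_sub i (fun j => (u j + 1).choose 2)
  rw [Fin.sum_univ_three] at hchi'
  simp only [Matrix.cons_val_zero, Matrix.cons_val_one, Matrix.cons_val] at hchi'
  have h2 := ch_id g3
  have h3 : 1 ≤ μ.choose 2 := Nat.choose_pos hμ2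
  have h4 : ∑ j : ι, (u j.1 + 1).choose 2 =
    ∑ j : {j : Fin (r + 4) // j ≠ i}, (u j.1 + 1).choose 2 := rfl
  rw [h4] at hchi'
  omega


/-- The dimension of a rigid irreducible system. -/
theorem rigid_chiP {K : Type} [Field K] [CharZero K] [IsAlgClosed K] {r : ℕ}
    {P : Fin (r + 4) → Fin 2 → K}
    (hP : AlgebraicIndependent ℚ (fun ij : Fin (r + 4) × Fin 2 => P ij.1 ij.2)) {d : ℕ}
    {w : Fin (r + 4) → ℕ} (hw : ∑ j ∈ Finset.univ.filter (fun i => 2 < w i), w j < 3 * d)
    (h1 : Module.finrank K ↥(VS (fun j => aff (P j)) w d) = 1)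
    {f : MvPolynomial (Fin 3) K} (hf : f ∈ VS (fun j => aff (P j)) w d) (hirr : Irreducible f) :
    (d + 2).choose 2 = 1 + ∑ j, (w j + 1).choose 2 := by
  have h2 := (primeA (S := Finset.univ.filter fun i => 2 < w i) notMem_filter hw hP hirr
    ((mem_VS _ _ _ _).1 hf).1 (exact_ord hP h1 hf hirr.ne_zero)).1
  rw [h1, chi_cast] at h2
  omega

/-- No infinitely near double points over points of multiplicity larger than two. -/
theorem rigid_nearP {K : Type} [Field K] [CharZero K] [IsAlgClosed K] {r : ℕ}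
    {P : Fin (r + 4) → Fin 2 → K}
    (hP : AlgebraicIndependent ℚ (fun ij : Fin (r + 4) × Fin 2 => P ij.1 ij.2)) {d : ℕ}
    {w : Fin (r + 4) → ℕ} (hw : ∑ j ∈ Finset.univ.filter (fun i => 2 < w i), w j < 3 * d)
    (h1 : Module.finrank K ↥(VS (fun j => aff (P j)) w d) = 1)
    {f : MvPolynomial (Fin 3) K} (hf : f ∈ VS (fun j => aff (P j)) w d) (hirr : Irreducible f)
    {i : Fin (r + 4)} (hi : 2 < w i) {v : Fin 2 → K} (hv : v ≠ 0)
    (hfn : f ∈ NI (P i) v (w i)) : False := by
  classical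
  have hf0 := hirr.ne_zero
  have hfm := (mem_VS _ _ _ _).1 hf
  have hwj : ∀ j, oq (aff (P j)) f = w j := fun j => (oq_ord hf0 _).1 (exact_ord hP h1 hf hf0 j)
  have hchi := rigid_chiP hP hw h1 hf hirr
  -- the line at infinity is not a component
  have hX : ¬ (X 2 : MvPolynomial (Fin 3) K) ∣ f := by
    rintro ⟨g, hg⟩
    have hu : IsUnit g := by
      rcases hirr.isUnit_or_isUnit hg with h | h
      · exact absurd h (by
          intro h
          rw [MvPolynomial.isUnit_iff_totalDegree_of_isReduced, totalDegree_X] at h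
          exact one_ne_zero h.2)
      · exact h
    have h3 : eval (aff (P i)) f = 0 := TT.van_one.1 (van_mono (by omega) (hfm.2 i))
    rw [hg, map_mul, eval_X] at h3
    have h4 : aff (P i) 2 = 1 := rfl
    rw [h4, one_mul] at h3
    exact (hu.map (eval (aff (P i)))).ne_zero h3
  obtain ⟨n, n', hn, e0, e1, e2, e3⟩ := exists_nn hfm.1 hX hv
  obtain ⟨q, hq⟩ : ∃ q : Fin 3 → K, q = ![v 1 - v 0 * n, - (v 1 - v 0 * n'), 0] := ⟨_, rfl⟩
  have q0 : q 0 ≠ 0 := by rw [hq]; exact e2
  have q1 : q 1 ≠ 0 := by rw [hq]; exact neg_ne_zero.2 e3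
  have q2 : q 2 = 0 := by rw [hq]; rfl
  obtain ⟨G', hG'⟩ := exists_QD hP i hn hirr hfm.1 e0 e1
  have h2 := phi_near (by omega : 2 ≤ w i) hfn (n := n) (n' := n') (f' := G') (by
    rw [← hwj i]
    exact hG'.phi)
  rw [← hq] at h2
  refine near_oneP hP hn ?_ ?_ hG' q0 q1 q2 h2
  · simp only [hwj]
    exact hchi
  · simp only [hwj]
    rw [Finset.insert_eq_of_mem]
    · exact hw
    · rw [Finset.mem_filter]
      exact ⟨Finset.mem_univ _, hi⟩

/-- No singular points outside of the assigned points. -/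
theorem rigid_finP {K : Type} [Field K] [CharZero K] [IsAlgClosed K] {r : ℕ}
    {P : Fin (r + 4) → Fin 2 → K}
    (hP : AlgebraicIndependent ℚ (fun ij : Fin (r + 4) × Fin 2 => P ij.1 ij.2)) {d : ℕ}
    {w : Fin (r + 4) → ℕ} (hw : ∑ j ∈ Finset.univ.filter (fun i => 2 < w i), w j < 3 * d)
    (h1 : Module.finrank K ↥(VS (fun j => aff (P j)) w d) = 1)
    {f : MvPolynomial (Fin 3) K} (hf : f ∈ VS (fun j => aff (P j)) w d) (hirr : Irreducible f)
    {q : Fin 3 → K} (hq0 : q ≠ 0) (hq : ∀ j, ∀ c : K, q ≠ c • aff (P j)) : ¬ Van q 2 f := by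
  classical
  intro hv
  have hf0 := hirr.ne_zero
  have hfm := (mem_VS _ _ _ _).1 hf
  have hchi := rigid_chiP hP hw h1 hf hirr
  rcases Nat.lt_or_ge d 2 with hlt | hge
  · exact deg_one hfm.1 (by omega) hf0 hv
  have hchi' := chi_hom (ι := Fin (r + 4)) (κ := Fin 0) (e := d) (w := w) (u := fun _ => 0)
    (S := Finset.univ.filter fun j => 2 < w j) (P := P) (R := fun _ => bs 0)
    (G := f) (q := q) (μ := oq q f) notMem_filter (by simpa using hw) hP (fun k => k.elim0)
    (fun k => k.elim0) (fun k => k.elim0) (fun _ k => k.elim0) hirr hfm.1 hge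
    (exact_ord hP h1 hf hf0) (fun k => k.elim0) hq0 hq (fun k => k.elim0)
    ((oq_ord hf0 _).2 rfl)
  have h5 : 1 ≤ (oq q f).choose 2 := Nat.choose_pos ((oq_van hf0 2).1 hv)
  simp only [Finset.univ_eq_empty, Finset.sum_empty, add_zero] at hchi'
  omega

/-- A rigid irreducible curve is smooth on the blow-up. -/
theorem rigid_smoothP {K : Type} [Field K] [CharZero K] [IsAlgClosed K] {r : ℕ}
    {P : Fin (r + 4) → Fin 2 → K}
    (hP : AlgebraicIndependent ℚ (fun ij : Fin (r + 4) × Fin 2 => P ij.1 ij.2)) {d : ℕ}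
    {w : Fin (r + 4) → ℕ} (hw : ∑ j ∈ Finset.univ.filter (fun i => 2 < w i), w j < 3 * d)
    (h1 : Module.finrank K ↥(VS (fun j => aff (P j)) w d) = 1)
    {f : MvPolynomial (Fin 3) K} (hf : f ∈ VS (fun j => aff (P j)) w d) (hirr : Irreducible f) :
    SmoothOn P w f := by
  classical
  have hfm := (mem_VS _ _ _ _).1 hf
  refine ⟨fun Q hQ0 hQ => ?_, fun i v y hvy => ?_⟩
  · by_contra hcon
    push Not at hcon
    exact rigid_finP hP hw h1 hf hirr hQ0 hQ (Pool.Agent.TH167.TT.van_two hcon.1 hcon.2)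
  · obtain ⟨H, hH⟩ := chart_div hfm.1 (hfm.2 i) v y
    refine ⟨H, hH, ?_⟩
    by_contra hcon
    push Not at hcon
    obtain ⟨h2, h3⟩ := two_coef hcon.1 hcon.2
    have hv : v ≠ 0 := by
      rintro rfl
      simp at hvy
    rcases Nat.lt_or_ge 2 (w i) with hw2 | hw2
    · exact rigid_nearP hP hw h1 hf hirr hw2 hv (chart_mem hfm.1 hw2.le hvy hH h2 h3)
    · rcases Nat.lt_or_ge 1 (w i) with hw1 | hw1
      · have hwi : w i = 2 := by omega
        refine rigid_dbl hP h1 hf hirr.ne_zero hirr.squarefree hwi hv ?_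
        have := chart_mem hfm.1 hw1 hvy hH h2 h3
        rwa [hwi] at this
      · exact chart_low hfm.1 hw1 hvy (exact_ord hP h1 hf hirr.ne_zero i) hH h2 h3

end Pool.Agent.TH167.SM
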