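import Pool.Agent.TH167.SM.Comp

set_option autoImplicit false

/-!
# The quadratic transformation at one generic point and two rational points at infinity
-/

namespace Pool.Agent.TH167.SM

open MvPolynomial Pool.Agent.W609 Pool.Agent.W609.CR Pool.Agent.TH167.SH Pool.Agent.TH167.TT
  Pool.Agent.TH167.DD

section Points

variable {K : Type} [Field K] [CharZero K] {s : ℕ}

/-- The first coordinate. -/
def ux (P : Fin s → Fin 2 → K) (i : Fin s) (n n' : ℕ) (j : Fin s) : K :=
  (n' * (P j 0 - P i 0) - (P j 1 - P i 1)) / (n' - n)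

/-- The second coordinate. -/
def uy (P : Fin s → Fin 2 → K) (i : Fin s) (n n' : ℕ) (j : Fin s) : K :=
  ((P j 1 - P i 1) - n * (P j 0 - P i 0)) / (n' - n)

/-- The new points. -/
def Pc (P : Fin s → Fin 2 → K) (i : Fin s) (n n' : ℕ) (j : Fin s) : Fin 2 → K :=
  if j = i then P i else ![(ux P i n n' j)⁻¹, (uy P i n n' j)⁻¹]

theorem nn_ne {n n' : ℕ} (hn : n ≠ n') : (n' : K) - n ≠ 0 := by
  rw [sub_ne_zero]
  exact fun h => hn (Nat.cast_injective h).symm

theorem lin_ne {P : Fin s → Fin 2 → K}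
    (hP : AlgebraicIndependent ℚ (fun ij : Fin s × Fin 2 => P ij.1 ij.2)) {i j : Fin s}
    (hij : j ≠ i) (k : ℕ) : (k : K) * (P j 0 - P i 0) - (P j 1 - P i 1) ≠ 0 := by
  classical
  have h := Pool.Agent.W797.CR.nonvan _ hP
    (C (k : ℚ) * (X (j, 0) - X (i, 0)) - (X (j, 1) - X (i, 1)))
    (fun ij => if ij = (j, 1) then 1 else 0) (by
      simp [Ne.symm hij])
  simpa using h

theorem ux_ne {P : Fin s → Fin 2 → K}
    (hP : AlgebraicIndependent ℚ (fun ij : Fin s × Fin 2 => P ij.1 ij.2)) {i j : Fin s}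
    (hij : j ≠ i) {n n' : ℕ} (hn : n ≠ n') : ux P i n n' j ≠ 0 :=
  div_ne_zero (lin_ne hP hij n') (nn_ne hn)

theorem uy_ne {P : Fin s → Fin 2 → K}
    (hP : AlgebraicIndependent ℚ (fun ij : Fin s × Fin 2 => P ij.1 ij.2)) {i j : Fin s}
    (hij : j ≠ i) {n n' : ℕ} (hn : n ≠ n') : uy P i n n' j ≠ 0 := by
  refine div_ne_zero ?_ (nn_ne hn)
  have := lin_ne hP hij n
  intro h
  apply this
  linear_combination -h

theorem qm_u {P : Fin s → Fin 2 → K} {i j : Fin s} {n n' : ℕ} (hn : n ≠ n') :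
    (qm (P i) n n').mulVec ![ux P i n n' j, uy P i n n' j, 1] = aff (P j) := by
  have h := nn_ne (K := K) hn
  funext l
  rw [Matrix.mulVec, dotProduct, Fin.sum_univ_three]
  fin_cases l
  · simp [qm, aff, ux, uy]
    field_simp
    ring
  · simp [qm, aff, ux, uy]
    field_simp
    ring
  · simp [qm, aff]

theorem qm_det (p : Fin 2 → K) {n n' : ℕ} (hn : n ≠ n') : (qm p n n').det ≠ 0 := by
  rw [Matrix.det_fin_three]
  simp [qm]
  rw [sub_eq_zero]
  exact fun h => hn (Nat.cast_injective h).symm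

theorem aff_Pc {P : Fin s → Fin 2 → K} {i j : Fin s} (hij : j ≠ i) {n n' : ℕ} :
    aff (Pc P i n n' j) = fun l => (![ux P i n n' j, uy P i n n' j, 1] l)⁻¹ := by
  have h : Pc P i n n' j = ![(ux P i n n' j)⁻¹, (uy P i n n' j)⁻¹] := by
    unfold Pc
    rw [if_neg hij]
  rw [h]
  funext l
  fin_cases l
  · rfl
  · rfl
  · simp [aff]

theorem Pc_gen {P : Fin s → Fin 2 → K}
    (hP : AlgebraicIndependent ℚ (fun ij : Fin s × Fin 2 => P ij.1 ij.2)) (i : Fin s) {n n' : ℕ}
    (hn : n ≠ n') :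
    AlgebraicIndependent ℚ (fun ij : Fin s × Fin 2 => Pc P i n n' ij.1 ij.2) := by
  apply Pool.Agent.W816.CR.t_trd K (Fin s × Fin 2) _ _ hP
  rintro ⟨j, l⟩
  obtain ⟨L, hL⟩ : ∃ L : IntermediateField ℚ K, L = IntermediateField.adjoin ℚ
    (Set.range (fun ij : Fin s × Fin 2 => Pc P i n n' ij.1 ij.2)) := ⟨_, rfl⟩
  rw [← hL]
  have hm : ∀ k b, Pc P i n n' k b ∈ L := by
    intro k b
    rw [hL]
    exact IntermediateField.subset_adjoin _ _ ⟨(k, b), rfl⟩
  have hi : ∀ b, P i b ∈ L := by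
    intro b
    have := hm i b
    unfold Pc at this
    rwa [if_pos rfl] at this
  by_cases hij : j = i
  · subst hij
    exact hi l
  · have h := nn_ne (K := K) hn
    have hux : ux P i n n' j ∈ L := by
      have := hm j 0
      unfold Pc at this
      rw [if_neg hij] at this
      have h2 := inv_mem this
      simpa using h2
    have huy : uy P i n n' j ∈ L := by
      have := hm j 1
      unfold Pc at this
      rw [if_neg hij] at this
      have h2 := inv_mem this
      simpa using h2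
    fin_cases l
    · show P j 0 ∈ L
      have : P j 0 = ux P i n n' j + uy P i n n' j + P i 0 := by
        unfold ux uy
        field_simp
        ring
      rw [this]
      exact add_mem (add_mem hux huy) (hi 0)
    · show P j 1 ∈ L
      have : P j 1 = n * ux P i n n' j + n' * uy P i n n' j + P i 1 := by
        unfold ux uy
        field_simp
        ring
      rw [this]
      exact add_mem (add_mem (mul_mem (natCast_mem L n) hux) (mul_mem (natCast_mem L n') huy)) (hi 1)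

end Points

/-- The quadratic transform of a curve. -/
theorem crem_curve {K : Type} [Field K] [CharZero K] {s : ℕ} {P : Fin s → Fin 2 → K}
    (hP : AlgebraicIndependent ℚ (fun ij : Fin s × Fin 2 => P ij.1 ij.2)) (i : Fin s) {n n' : ℕ}
    (hn : n ≠ n') {G : MvPolynomial (Fin 3) K} {e : ℕ} (hG : Irreducible G)
    (hGe : G.IsHomogeneous e) (h0 : eval ![1, (n : K), 0] G ≠ 0)
    (h1 : eval ![1, (n' : K), 0] G ≠ 0) :
    ∃ G' : MvPolynomial (Fin 3) K, Irreducible G' ∧
      G'.IsHomogeneous (2 * e - oq (aff (P i)) G) ∧ oq (aff (P i)) G ≤ e ∧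
      Ord (bs 0) (e - oq (aff (P i)) G) G' ∧ Ord (bs 1) (e - oq (aff (P i)) G) G' ∧
      Ord (bs 2) e G' ∧ (∀ j, j ≠ i → Ord (aff (Pc P i n n' j)) (oq (aff (P j)) G) G') ∧
      phi K (Pool.Agent.W609.CR.lin (qm (P i) n n') G) = X 2 ^ oq (aff (P i)) G * G' := by
  obtain ⟨a1, a2, a3, -⟩ := (t_lin K).1 _ (qm_det (P i) hn)
  have hO : ∀ (v : Fin 3 → K), Ord v (oq ((qm (P i) n n').mulVec v) G)
      (Pool.Agent.W609.CR.lin (qm (P i) n n') G) := by
    intro v
    have h2 := (oq_ord (v := (qm (P i) n n').mulVec v) hG.ne_zero _).2 rfl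
    exact ⟨(a3 _ _ _).1 h2.1, fun h => h2.2 ((a3 _ _ _).2 h)⟩
  have b0 : (qm (P i) n n').mulVec (bs 0) = ![1, (n : K), 0] := by
    funext l
    rw [Matrix.mulVec, dotProduct, Fin.sum_univ_three]
    fin_cases l <;> simp [qm, bs]
  have b1 : (qm (P i) n n').mulVec (bs 1) = ![1, (n' : K), 0] := by
    funext l
    rw [Matrix.mulVec, dotProduct, Fin.sum_univ_three]
    fin_cases l <;> simp [qm, bs]
  have b2 : (qm (P i) n n').mulVec (bs 2) = aff (P i) := by
    funext l
    rw [Matrix.mulVec, dotProduct, Fin.sum_univ_three]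
    fin_cases l <;> simp [qm, bs, aff]
  have c0 : eval (bs 0) (Pool.Agent.W609.CR.lin (qm (P i) n n') G) ≠ 0 := by
    rw [← ord_zero]
    have h2 := hO (bs 0)
    rw [b0] at h2
    have h3 : oq ![1, (n : K), 0] G = 0 := (oq_ord hG.ne_zero _).1 (ord_zero.2 h0)
    rwa [h3] at h2
  have c1 : eval (bs 1) (Pool.Agent.W609.CR.lin (qm (P i) n n') G) ≠ 0 := by
    rw [← ord_zero]
    have h2 := hO (bs 1)
    rw [b1] at h2
    have h3 : oq ![1, (n' : K), 0] G = 0 := (oq_ord hG.ne_zero _).1 (ord_zero.2 h1)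
    rwa [h3] at h2
  have c2 : Ord (bs 2) (oq (aff (P i)) G) (Pool.Agent.W609.CR.lin (qm (P i) n n') G) := by
    have h2 := hO (bs 2)
    rwa [b2] at h2
  obtain ⟨G', g1, g2, g3, g4, g5, g6, g7, g8⟩ := crem (a2 G hG) (a1 G e hGe) c0 c1 c2
  refine ⟨G', g1, g2, g3, g4, g5, g6, fun j hj => ?_, g8⟩
  rw [aff_Pc hj]
  have h2 := hO ![ux P i n n' j, uy P i n n' j, 1]
  rw [qm_u hn] at h2
  refine g7 _ _ (fun l => ?_) h2
  fin_cases l
  · exact ux_ne hP hj hn
  · exact uy_ne hP hj hn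
  · exact one_ne_zero

end Pool.Agent.TH167.SM
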