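import Pool.Agent.TH167.SM.NearOne

set_option autoImplicit false

/-!
# Rigid reduced curves are smooth on the blow-up
-/

namespace Pool.Agent.TH167.SM

open MvPolynomial Pool.Agent.W609 Pool.Agent.W609.CR Pool.Agent.TH167.SH Pool.Agent.TH167.TT
  Pool.Agent.TH167.DD Pool.Agent.H248R6

theorem exists_nn {K : Type} [Field K] [CharZero K] {f : MvPolynomial (Fin 3) K} {d : ℕ}
    (hf : f.IsHomogeneous d) (hX : ¬ (X 2 : MvPolynomial (Fin 3) K) ∣ f) {v : Fin 2 → K}
    (hv : v ≠ 0) :
    ∃ n n' : ℕ, n ≠ n' ∧ eval ![1, (n : K), 0] f ≠ 0 ∧ eval ![1, (n' : K), 0] f ≠ 0 ∧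
      v 1 - v 0 * n ≠ 0 ∧ v 1 - v 0 * n' ≠ 0 := by
  classical
  obtain ⟨α, hα, hα2⟩ := Pool.Agent.W641.CR.exists_zero 2 hX
  let ψ : MvPolynomial (Fin 3) K →ₐ[K] Polynomial K := aeval ![1, Polynomial.X, 0]
  have hψ : ∀ (β : Fin 3 →₀ ℕ) (c : K), ψ (monomial β c) =
      if β 2 = 0 then Polynomial.monomial (β 1) c else 0 := by
    intro β c
    show aeval _ _ = _
    rw [aeval_monomial, Finsupp.prod_fintype _ _ (fun i => by simp), Fin.prod_univ_three]
    simp only [Matrix.cons_val_zero, Matrix.cons_val_one, Matrix.cons_val, one_pow, one_mul]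
    split_ifs with h
    · rw [h, pow_zero, mul_one, ← Polynomial.C_mul_X_pow_eq_monomial]
      rfl
    · rw [zero_pow h, mul_zero, mul_zero]
  have hp : ψ f ≠ 0 := by
    intro h0
    have h1 := congrArg (fun q => Polynomial.coeff q (α 1)) h0
    simp only [Polynomial.coeff_zero] at h1
    rw [← f.support_sum_monomial_coeff, map_sum, Polynomial.finsetSum_coeff,
      Finset.sum_eq_single α] at h1
    · rw [hψ, if_pos hα2, Polynomial.coeff_monomial_same] at h1
      exact (mem_support_iff.1 hα) h1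
    · intro β hβ hne
      rw [hψ]
      split_ifs with h
      · rw [Polynomial.coeff_monomial, if_neg]
        intro h2
        apply hne
        have h3 := homog_degree (n := 2) hf hβ
        have h4 := homog_degree (n := 2) hf hα
        rw [Pool.Agent.W641.CR.sum3] at h3 h4
        ext l
        fin_cases l
        · show β 0 = α 0
          omega
        · exact h2
        · show β 2 = α 2
          omega
      · rw [Polynomial.coeff_zero]
    · intro h
      exact absurd hα h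
  let q : Polynomial K := Polynomial.C (v 1) - Polynomial.C (v 0) * Polynomial.X
  have hq : q ≠ 0 := by
    intro h0
    apply hv
    have h1 := congrArg (fun q => Polynomial.coeff q 0) h0
    have h2 := congrArg (fun q => Polynomial.coeff q 1) h0
    simp [q, Polynomial.coeff_X, Polynomial.coeff_C] at h1 h2
    funext l
    fin_cases l
    · exact h2
    · exact h1
  have hpq : ψ f * q ≠ 0 := mul_ne_zero hp hq
  have hfin : {n : ℕ | (ψ f * q).eval (n : K) = 0}.Finite := by
    refine Set.Finite.preimage (Nat.cast_injective.injOn) (f := fun n : ℕ => (n : K))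
      (s := {x : K | (ψ f * q).eval x = 0}) ?_
    refine Set.Finite.subset (Multiset.toFinset (ψ f * q).roots).finite_toSet fun x hx => ?_
    rw [Finset.mem_coe, Multiset.mem_toFinset, Polynomial.mem_roots hpq]
    exact hx
  have hev : ∀ n : ℕ, (ψ f).eval (n : K) = eval ![1, (n : K), 0] f := by
    intro n
    have h1 : (Polynomial.aeval (n : K)).comp ψ = (aeval ![1, (n : K), 0] :
        MvPolynomial (Fin 3) K →ₐ[K] K) := by
      apply MvPolynomial.algHom_ext
      intro l
      fin_cases l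
      · simp [ψ]
      · simp [ψ]
      · simp [ψ]
    have h2 := DFunLike.congr_fun h1 f
    rw [AlgHom.comp_apply, Polynomial.coe_aeval_eq_eval] at h2
    rw [h2]
    rfl
  have hgood : ∀ n : ℕ, n ∉ {n : ℕ | (ψ f * q).eval (n : K) = 0} →
      eval ![1, (n : K), 0] f ≠ 0 ∧ v 1 - v 0 * n ≠ 0 := by
    intro n hn
    rw [Set.mem_ofPred_eq, Polynomial.eval_mul, hev] at hn
    refine ⟨fun h => hn (by rw [h, zero_mul]), fun h => hn ?_⟩
    have : q.eval (n : K) = 0 := by simp [q, h]
    rw [this, mul_zero]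
  obtain ⟨n, hn⟩ := hfin.exists_notMem
  obtain ⟨n', hn'⟩ := (hfin.union (Set.finite_singleton n)).exists_notMem
  rw [Set.mem_union, not_or, Set.mem_singleton_iff] at hn'
  obtain ⟨a1, a2⟩ := hgood n hn
  obtain ⟨b1, b2⟩ := hgood n' hn'.1
  exact ⟨n, n', fun h => hn'.2 h.symm, a1, b1, a2, b2⟩

theorem oq_pow {K : Type} [Field K] (v : Fin 3 → K) {a : MvPolynomial (Fin 3) K} (ha : a ≠ 0)
    (m : ℕ) : oq v (a ^ m) = m * oq v a := by
  induction m with
  | zero =>
    rw [pow_zero, zero_mul]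
    exact o_unit (o := oq v) (F := 0) (fun a b _ ha hb => oq_mul v ha hb) isUnit_one
  | succ m ih => rw [pow_succ, oq_mul v (pow_ne_zero m ha) ha, ih, Nat.succ_mul]

theorem oq_X {K : Type} [Field K] {q : Fin 3 → K} (q2 : q 2 = 0) : oq q (X 2) = 1 := by
  rw [← oq_ord (X_ne_zero _)]
  refine ⟨?_, deg_one (isHomogeneous_X K 2) le_rfl (X_ne_zero _)⟩
  rw [TT.van_one, eval_X, q2]

/-- The quadratic transform of a form. -/
theorem phi_form {K : Type} [Field K] [CharZero K] {s : ℕ} {P : Fin s → Fin 2 → K} (i : Fin s)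
    {n n' : ℕ} (hn : n ≠ n') {g : MvPolynomial (Fin 3) K} {e : ℕ} (hg : g ≠ 0)
    (hge : g.IsHomogeneous e) :
    ∃ g' : MvPolynomial (Fin 3) K, g' ≠ 0 ∧
      phi K (Pool.Agent.W609.CR.lin (qm (P i) n n') g) = X 2 ^ oq (aff (P i)) g * g' := by
  obtain ⟨a1, a2, a3, -⟩ := (t_lin K).1 _ (qm_det (P i) hn)
  have b2 : (qm (P i) n n').mulVec (bs 2) = aff (P i) := by
    funext l
    rw [Matrix.mulVec, dotProduct, Fin.sum_univ_three]
    fin_cases l <;> simp [qm, bs, aff]
  have c2 : Ord (bs 2) (oq (aff (P i)) g) (Pool.Agent.W609.CR.lin (qm (P i) n n') g) := by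
    have h2 := (oq_ord (v := aff (P i)) hg _).2 rfl
    rw [← b2] at h2 ⊢
    exact ⟨(a3 _ _ _).1 h2.1, fun h => h2.2 ((a3 _ _ _).2 h)⟩
  have hg1 : Pool.Agent.W609.CR.lin (qm (P i) n n') g ≠ 0 := by
    intro h0
    apply c2.2
    rw [h0]
    exact Ideal.zero_mem _
  have hE := Pool.Agent.W641.CR.ord_exists (a1 g e hge) 2 c2
  have hN : ∀ a ∈ (Pool.Agent.W609.CR.lin (qm (P i) n n') g).support,
      a ≤ (Finsupp.equivFunOnFinite.symm ![e, e, e - oq (aff (P i)) g] : Fin 3 →₀ ℕ) := by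
    intro a ha l
    have h3 := homog_degree (n := 2) (a1 g e hge) ha
    rw [Pool.Agent.W641.CR.sum3] at h3
    have h4 := hE.1 a ha
    fin_cases l
    · show a 0 ≤ e
      omega
    · show a 1 ≤ e
      omega
    · show a 2 ≤ e - oq (aff (P i)) g
      omega
  exact ⟨_, rev_ne_zero (n := 2) hN hg1, phi_rev (a1 g e hge) hE.1⟩

/-- No infinitely near double points over points of multiplicity larger than two. -/
theorem rigid_near {K : Type} [Field K] [CharZero K] [IsAlgClosed K] {r : ℕ}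
    {P : Fin (r + 4) → Fin 2 → K}
    (hP : AlgebraicIndependent ℚ (fun ij : Fin (r + 4) × Fin 2 => P ij.1 ij.2)) {d : ℕ}
    {w : Fin (r + 4) → ℕ} (hw : (Finset.univ.filter fun i => 2 < w i).card ≤ 9)
    (h1 : Module.finrank K ↥(VS (fun j => aff (P j)) w d) = 1)
    {f : MvPolynomial (Fin 3) K} (hf : f ∈ VS (fun j => aff (P j)) w d) (hf0 : f ≠ 0)
    (hsq : Squarefree f) {i : Fin (r + 4)} (hi : 2 < w i) {v : Fin 2 → K} (hv : v ≠ 0)
    (hfn : f ∈ NI (P i) v (w i)) : False := by
  classical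
  have hfm := (mem_VS _ _ _ _).1 hf
  have hwi : oq (aff (P i)) f = w i := (oq_ord hf0 _).1 (exact_ord hP h1 hf hf0 i)
  -- the line at infinity is not a component
  have hX : ¬ (X 2 : MvPolynomial (Fin 3) K) ∣ f := by
    intro hd
    have h2 := comp2 hP hw h1 hf hf0 hsq hd
    have h3 : ∀ j, oq (aff (P j)) (X 2 : MvPolynomial (Fin 3) K) = 0 := by
      intro j
      rw [← oq_ord (X_ne_zero _), ord_zero, eval_X]
      exact one_ne_zero
    simp only [h3] at h2
    rw [MvPolynomial.totalDegree_X] at h2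
    unfold chi at h2
    simp at h2
  obtain ⟨n, n', hn, e0, e1, e2, e3⟩ := exists_nn hfm.1 hX hv
  obtain ⟨q, hq⟩ : ∃ q : Fin 3 → K, q = ![v 1 - v 0 * n, - (v 1 - v 0 * n'), 0] := ⟨_, rfl⟩
  have q0 : q 0 ≠ 0 := by rw [hq]; exact e2
  have q1 : q 1 ≠ 0 := by rw [hq]; exact neg_ne_zero.2 e3
  have q2 : q 2 = 0 := by rw [hq]; rfl
  let L : MvPolynomial (Fin 3) K →ₐ[K] MvPolynomial (Fin 3) K :=
    (phi K).comp (Pool.Agent.W609.CR.lin (qm (P i) n n'))
  let o : MvPolynomial (Fin 3) K → ℕ := fun g => oq q (L g) - oq (aff (P i)) g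
  -- the order of the transform
  have key : ∀ g g' : MvPolynomial (Fin 3) K, g' ≠ 0 → L g = X 2 ^ oq (aff (P i)) g * g' →
      oq q (L g) = oq (aff (P i)) g + oq q g' := by
    intro g g' h2 h3
    rw [h3, oq_mul q (pow_ne_zero _ (X_ne_zero _)) h2, oq_pow q (X_ne_zero _), oq_X q2, mul_one]
  have hhom : ∀ g, g ∣ f → g.IsHomogeneous g.totalDegree := fun g hg =>
    Pool.Agent.Chud.homog_of_dvd hfm.1 hf0 hg
  have hdec : ∀ g, g ∣ f → ∃ g', g' ≠ 0 ∧ L g = X 2 ^ oq (aff (P i)) g * g' := by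
    intro g hg
    exact phi_form i hn (ne_zero_of_dvd_ne_zero hf0 hg) (hhom g hg)
  have hmul : ∀ a b, a * b ∣ f → a ≠ 0 → b ≠ 0 → o (a * b) = o a + o b := by
    intro a b hab ha hb
    obtain ⟨a', ha', ha2⟩ := hdec a (dvd_of_mul_right_dvd hab)
    obtain ⟨b', hb', hb2⟩ := hdec b (dvd_of_mul_left_dvd hab)
    have k1 := key a a' ha' ha2
    have k2 := key b b' hb' hb2
    show oq q (L (a * b)) - _ = oq q (L a) - _ + (oq q (L b) - _)
    have hLa : L a ≠ 0 := by
      rw [ha2]
      exact mul_ne_zero (pow_ne_zero _ (X_ne_zero _)) ha'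
    have hLb : L b ≠ 0 := by
      rw [hb2]
      exact mul_ne_zero (pow_ne_zero _ (X_ne_zero _)) hb'
    rw [map_mul, oq_mul q hLa hLb, oq_mul _ ha hb]
    omega
  have ho2 : 2 ≤ o f := by
    obtain ⟨f', hf', hf2⟩ := hdec f dvd_rfl
    have k1 := key f f' hf' hf2
    have h2 := phi_near (by omega : 2 ≤ w i) hfn (n := n) (n' := n') (f' := f') (by
      rw [← hwi]
      exact hf2)
    rw [← hq, oq_van hf'] at h2
    show 2 ≤ oq q (L f) - _
    omega
  have hev : ∀ (g : MvPolynomial (Fin 3) K), g ∣ f → eval ![1, (n : K), 0] g ≠ 0 ∧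
      eval ![1, (n' : K), 0] g ≠ 0 := by
    rintro g ⟨h, rfl⟩
    rw [map_mul] at e0 e1
    exact ⟨left_ne_zero_of_mul e0, left_ne_zero_of_mul e1⟩
  have hQD : ∀ G, Irreducible G → G ∣ f → ∃ G', QD P i n n' G G' G.totalDegree ∧
      ∀ k, k ≤ o G → Van q k G' := by
    intro G hG hGf
    obtain ⟨G', hG'⟩ := exists_QD hP i hn hG (hhom G hGf) (hev G hGf).1 (hev G hGf).2
    refine ⟨G', hG', fun k hk => ?_⟩
    rw [oq_van hG'.irr.ne_zero]
    have k1 := key G G' hG'.irr.ne_zero hG'.phi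
    have : k ≤ oq q (L G) - oq (aff (P i)) G := hk
    omega
  have hchi : ∀ G, G ∣ f → (G.totalDegree + 2).choose 2 =
      1 + ∑ j, (oq (aff (P j)) G + 1).choose 2 := by
    intro G hG
    have h2 := comp2 hP hw h1 hf hf0 hsq hG
    rw [chi_cast] at h2
    omega
  rcases an2 hmul f dvd_rfl hf0 ho2 with ⟨G, g1, g2, g3⟩ | ⟨G1, G2, g1, g2, g3, g4, g5⟩
  · obtain ⟨G', hG', hv2⟩ := hQD G g1 g2
    refine near_one hP hn g1 (hhom G g2) (hchi G g2) ?_ hG' q0 q1 q2 (hv2 2 g3)
    refine (Finset.card_le_card fun j hj => ?_).trans hw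
    have ha := (comp1 hP h1 hf hf0 g2).2.1
    rw [Finset.mem_insert, Finset.mem_filter] at hj
    rw [Finset.mem_filter]
    refine ⟨Finset.mem_univ _, ?_⟩
    rcases hj with rfl | ⟨-, hj⟩
    · exact hi
    · exact lt_of_lt_of_le hj (ha j)
  · have hd1 : G1 ∣ f := dvd_of_mul_right_dvd g3
    have hd2 : G2 ∣ f := dvd_of_mul_left_dvd g3
    obtain ⟨G1', hG1', hv1⟩ := hQD G1 g1 hd1
    obtain ⟨G2', hG2', hv2⟩ := hQD G2 g2 hd2
    refine near_two hP hn g1 g2 (hhom G1 hd1) (hhom G2 hd2) (comp1 hP h1 hf hf0 hd1).2.2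
      (comp3 hP hw h1 hf hf0 hsq g3) ?_ hG1' hG2' q0 q1 q2 (hv1 1 g4) (hv2 1 g5)
    intro hd
    obtain ⟨c, rfl⟩ := hd
    exact g1.not_isUnit (hsq G1 (dvd_of_mul_right_dvd (by rw [← mul_assoc] at g3; exact g3)))

/-- The double points are nodes. -/
theorem rigid_dbl {K : Type} [Field K] [CharZero K] {s : ℕ}
    {P : Fin s → Fin 2 → K}
    (hP : AlgebraicIndependent ℚ (fun ij : Fin s × Fin 2 => P ij.1 ij.2)) {d : ℕ}
    {w : Fin s → ℕ} (h1 : Module.finrank K ↥(VS (fun j => aff (P j)) w d) = 1)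
    {f : MvPolynomial (Fin 3) K} (hf : f ∈ VS (fun j => aff (P j)) w d) (hf0 : f ≠ 0)
    (hsq : Squarefree f) {i : Fin s} (hi : w i = 2) {v : Fin 2 → K} (hv : v ≠ 0)
    (hfn : f ∈ NI (P i) v 2) : False := by
  classical
  obtain ⟨c0, ν, hc0, hν, hcf⟩ := exists_norm hf hf0
  obtain ⟨g, hg⟩ : ∃ g, g = C c0 * f := ⟨_, rfl⟩
  rw [← hg] at hν hcf
  have hg0 : g ≠ 0 := by
    rw [hg]
    exact mul_ne_zero (fun h => hc0 (by rwa [C_eq_zero] at h)) hf0
  have hgm := (mem_VS _ _ _ _).1 hcf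
  have hgsq : Squarefree g := by
    rw [hg]
    have hu : IsUnit (C c0 : MvPolynomial (Fin 3) K) := (isUnit_iff_ne_zero.2 hc0).map C
    exact fun x hx => hsq x (hu.dvd_mul_left.1 hx)
  have hgn : g ∈ NI (P i) v 2 := by
    rw [hg]
    exact Ideal.mul_mem_left _ _ hfn
  unfold NI at hgn
  rw [Nat.sub_self, pow_zero, Ideal.one_eq_top, Ideal.top_mul] at hgn
  obtain ⟨E, hE⟩ := exists_D hP
  obtain ⟨D, hD⟩ : ∃ D : Derivation ℚ K K, D = ∑ b : Fin 2, v b • E (i, b) := ⟨_, rfl⟩
  have hDP : ∀ j b, D (P j b) = if j = i then v b else 0 := by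
    intro j b
    rw [hD, sum_der]
    by_cases hj : j = i
    · rw [if_pos hj, Finset.sum_eq_single b]
      · rw [hE, if_pos ⟨hj, rfl⟩, mul_one]
      · intro b' _ hb'
        rw [hE, if_neg (fun h => hb' h.2.symm), mul_zero]
      · intro h
        exact absurd (Finset.mem_univ _) h
    · rw [if_neg hj]
      refine Finset.sum_eq_zero fun b' _ => ?_
      rw [hE, if_neg (fun h => hj h.1), mul_zero]
  -- the derivative of the generators
  have hp0 : (X 0 - C (P i 0) * X 2 : MvPolynomial (Fin 3) K) ∈ pI (P i) :=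
    Ideal.subset_span (by simp)
  have hp1 : (X 1 - C (P i 1) * X 2 : MvPolynomial (Fin 3) K) ∈ pI (P i) :=
    Ideal.subset_span (by simp)
  have hsub : ∀ a b : MvPolynomial (Fin 3) K, dG D (a - b) = dG D a - dG D b := by
    intro a b
    ext α
    rw [coeff_dG, coeff_sub, coeff_sub, coeff_dG, coeff_dG, map_sub]
  have hd : dG D (lv (P i) v) ∈ pI (P i) := by
    have h2 : dG D (lv (P i) v) = C (D (v 1)) * (X 0 - C (P i 0) * X 2) -
        C (D (v 0)) * (X 1 - C (P i 1) * X 2) := by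
      unfold lv
      rw [hsub, dG_mul, dG_mul, hsub, hsub, dG_mul, dG_mul, dG_X, dG_X, dG_X, dG_C, dG_C, dG_C,
        dG_C, hDP, hDP, if_pos rfl, if_pos rfl]
      ring
    rw [h2]
    exact Ideal.sub_mem _ (Ideal.mul_mem_left _ _ hp0) (Ideal.mul_mem_left _ _ hp1)
  have hlvp : lv (P i) v ∈ pI (P i) := Ideal.sub_mem _ (Ideal.mul_mem_left _ _ hp0)
    (Ideal.mul_mem_left _ _ hp1)
  have hle : Ideal.span {lv (P i) v} ⊔ pI (P i) ^ 2 ≤ pI (P i) := by
    refine sup_le ?_ (Ideal.pow_le_self two_ne_zero)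
    rw [Ideal.span_le]
    rintro x rfl
    exact hlvp
  have hD1 : ∀ x ∈ Ideal.span {lv (P i) v} ⊔ pI (P i) ^ 2, dG D x ∈ pI (P i) := by
    intro x hx
    obtain ⟨a, ha, b, hb, rfl⟩ := Submodule.mem_sup.1 hx
    rw [dG_add]
    refine Ideal.add_mem _ ?_ ?_
    · obtain ⟨c, rfl⟩ := Ideal.mem_span_singleton'.1 ha
      rw [dG_mul]
      exact Ideal.add_mem _ (Ideal.mul_mem_left _ _ hlvp) (Ideal.mul_mem_left _ _ hd)
    · rw [pow_two] at hb
      refine Submodule.mul_induction_on hb (fun y hy z hz => ?_) fun y z hy hz => ?_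
      · rw [dG_mul]
        exact Ideal.add_mem _ (Ideal.mul_mem_left _ _ hz) (Ideal.mul_mem_right _ _ hy)
      · rw [dG_add]
        exact Ideal.add_mem _ hy hz
  have hD2 : dG D g ∈ pI (P i) ^ 2 := by
    rw [pow_two] at hgn ⊢
    refine Submodule.mul_induction_on hgn (fun y hy z hz => ?_) fun y z hy hz => ?_
    · rw [dG_mul]
      exact Ideal.add_mem _ (Ideal.mul_mem_mul (hD1 y hy) (hle hz))
        (Ideal.mul_mem_mul (hle hy) (hD1 z hz))
    · rw [dG_add]
      exact Ideal.add_mem _ hy hz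
  have hDg : dG D g ∈ VS (fun j => aff (P j)) w d := by
    rw [mem_VS]
    refine ⟨dG_homog _ hgm.1, fun j => ?_⟩
    by_cases hj : j = i
    · subst hj
      rw [hi]
      exact (t_link K (P j) 2 _ d (dG_homog _ hgm.1)).2 hD2
    · refine der_const D ?_ _ (hgm.2 j)
      intro l
      fin_cases l
      · show D (P j 0) = 0
        rw [hDP, if_neg hj]
      · show D (P j 1) = 0
        rw [hDP, if_neg hj]
      · show D 1 = 0
        exact Derivation.map_one_eq_zero _
  have hz := rigid_der h1 hcf hν D hDg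
  have h2 : Van (aff (P i)) 2 g := by
    rw [← hi]
    exact hgm.2 i
  have h3 := sing_const D hgm.1 hg0 hgsq hz (p := P i) (TT.van_one.1 (van_mono (by omega) h2))
    (fun l => SH.pd_mem h2 l)
  apply hv
  funext b
  have h4 := h3 b
  rw [hDP, if_pos rfl] at h4
  exact h4

/-- No singular points outside of the assigned points. -/
theorem rigid_fin {K : Type} [Field K] [CharZero K] [IsAlgClosed K] {r : ℕ}
    {P : Fin (r + 4) → Fin 2 → K}
    (hP : AlgebraicIndependent ℚ (fun ij : Fin (r + 4) × Fin 2 => P ij.1 ij.2)) {d : ℕ}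
    {w : Fin (r + 4) → ℕ} (hw : (Finset.univ.filter fun i => 2 < w i).card ≤ 9)
    (h1 : Module.finrank K ↥(VS (fun j => aff (P j)) w d) = 1)
    {f : MvPolynomial (Fin 3) K} (hf : f ∈ VS (fun j => aff (P j)) w d) (hf0 : f ≠ 0)
    (hsq : Squarefree f) {q : Fin 3 → K} (hq0 : q ≠ 0) (hq : ∀ j, ∀ c : K, q ≠ c • aff (P j)) :
    ¬ Van q 2 f := by
  classical
  intro hv
  have hfm := (mem_VS _ _ _ _).1 hf
  have hhom : ∀ g, g ∣ f → g.IsHomogeneous g.totalDegree := fun g hg =>
    Pool.Agent.Chud.homog_of_dvd hfm.1 hf0 hg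
  have hchi : ∀ G, G ∣ f → (G.totalDegree + 2).choose 2 =
      1 + ∑ j, (oq (aff (P j)) G + 1).choose 2 := by
    intro G hG
    have h2 := comp2 hP hw h1 hf hf0 hsq hG
    rw [chi_cast] at h2
    omega
  rcases an2 (o := oq q) (F := f) (fun a b _ ha hb => oq_mul q ha hb) f dvd_rfl hf0
    ((oq_van hf0 2).1 hv) with ⟨G, g1, g2, g3⟩ | ⟨G1, G2, g1, g2, g3, g4, g5⟩
  · obtain ⟨a1, a2, -⟩ := comp1 hP h1 hf hf0 g2
    rcases Nat.lt_or_ge G.totalDegree 2 with hlt | hge
    · exact deg_one a1 (by omega) g1.ne_zero ((oq_van g1.ne_zero 2).2 g3)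
    have hcard : (Finset.univ.filter fun j => 2 < oq (aff (P j)) G).card ≤ 9 := by
      refine (Finset.card_le_card fun j hj => ?_).trans hw
      rw [Finset.mem_filter] at hj ⊢
      exact ⟨hj.1, lt_of_lt_of_le hj.2 (a2 j)⟩
    have hc := cub hP g1 a1 (fun j => (oq_ord g1.ne_zero _).2 rfl) hcard hcard (by
      rintro ⟨c1, c2⟩
      obtain ⟨j, hj⟩ : (Finset.univ.filter fun j => 2 < oq (aff (P j)) G).Nonempty := by
        rw [← Finset.card_pos]
        omega
      have c3 := c2 j hj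
      have c4 := (Finset.mem_filter.1 hj).2
      omega)
    have hchi' := chi_hom (ι := Fin (r + 4)) (κ := Fin 0) (e := G.totalDegree)
      (w := fun j => oq (aff (P j)) G) (u := fun _ => 0)
      (S := Finset.univ.filter fun j => 2 < oq (aff (P j)) G) (P := P) (R := fun _ => bs 0)
      (G := G) (q := q) (μ := oq q G) (by
        intro j hj
        rw [Finset.mem_filter] at hj
        push Not at hj
        exact hj (Finset.mem_univ j)) (by simpa using hc) hP (fun k => k.elim0)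
      (fun k => k.elim0) (fun k => k.elim0) (fun _ k => k.elim0) g1 a1 hge
      (fun j => (oq_ord g1.ne_zero _).2 rfl) (fun k => k.elim0) hq0 hq (fun k => k.elim0)
      ((oq_ord g1.ne_zero _).2 rfl)
    have h4 := hchi G g2
    have h5 : 1 ≤ (oq q G).choose 2 := Nat.choose_pos g3
    simp only [Finset.univ_eq_empty, Finset.sum_empty, add_zero] at hchi'
    omega
  · have hd1 : G1 ∣ f := dvd_of_mul_right_dvd g3
    have hd2 : G2 ∣ f := dvd_of_mul_left_dvd g3
    have hb := bezH (ι := Option (Fin (r + 4)))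
      (v := fun x => x.elim q (fun j => aff (P j)))
      (u := fun x => x.elim 1 (fun j => oq (aff (P j)) G1))
      (w := fun x => x.elim 1 (fun j => oq (aff (P j)) G2)) (by
        rintro (_ | j)
        · exact hq0
        · exact aff_ne _) (by
        rintro (_ | j) (_ | j') hne c
        · exact absurd rfl hne
        · exact hq j' c
        · intro hc
          have hc0 : c ≠ 0 := by
            rintro rfl
            rw [zero_smul] at hc
            exact aff_ne _ hc
          apply hq j c⁻¹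
          change aff (P j) = c • q at hc
          rw [hc, smul_smul, inv_mul_cancel₀ hc0, one_smul]
        · intro h
          have h3 : (1 : K) = c * 1 := congrFun h 2
          rw [mul_one] at h3
          rw [← h3] at h
          change aff (P j) = (1 : K) • aff (P j') at h
          rw [one_smul] at h
          apply hne
          have h4 : P j = P j' := by
            funext b
            fin_cases b
            · exact congrFun h 0
            · exact congrFun h 1
          rw [SH.inj_of_alg hP h4]) g1 (hhom G1 hd1) (by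
        rintro (_ | j)
        · exact (oq_van g1.ne_zero 1).2 g4
        · exact (oq_van g1.ne_zero _).2 le_rfl) g2.ne_zero (hhom G2 hd2) (by
        rintro (_ | j)
        · exact (oq_van g2.ne_zero 1).2 g5
        · exact (oq_van g2.ne_zero _).2 le_rfl) (by
        intro hd
        obtain ⟨c, rfl⟩ := hd
        exact g1.not_isUnit (hsq G1 (dvd_of_mul_right_dvd (by rw [← mul_assoc] at g3; exact g3))))
    rw [Fintype.sum_option] at hb
    simp only [Option.elim_none, Option.elim_some] at hb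
    have h3 := comp3 hP hw h1 hf hf0 hsq g3
    omega

end Pool.Agent.TH167.SM
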