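import Pool.Agent.TH167.SM.Rigid

set_option autoImplicit false

/-!
# Rigid curves are smooth on the blow-up
-/

namespace Pool.Agent.TH167.SM

open MvPolynomial Pool.Agent.W609 Pool.Agent.W609.CR Pool.Agent.TH167.SH Pool.Agent.TH167.TT
  Pool.Agent.TH167.DD Pool.Agent.H248R5 Pool.Agent.H248R6 Pool.Agent.W641.CR

/-- The curve `f = 0`, with a point of multiplicity at least `w i` at every `P i`, has a smooth
strict transform (of class `d H - ∑ w i E i`) on the blow-up of the plane at the points `P i`: it is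
smooth at all points different from the `P i`, and in the chart
`(x, y) ↦ P i + x (v + y v')` of the blow-up the form `f` is `x ^ w i` times an equation `H` which
is smooth at the origin, for every direction `v` (and every complementary direction `v'`). -/
def SmoothOn {K : Type} [Field K] {s : ℕ} (P : Fin s → Fin 2 → K) (w : Fin s → ℕ)
    (f : MvPolynomial (Fin 3) K) : Prop :=
  (∀ Q : Fin 3 → K, Q ≠ 0 → (∀ i, ∀ c : K, Q ≠ c • aff (P i)) →
    eval Q f ≠ 0 ∨ ∃ a, eval Q (pderiv a f) ≠ 0) ∧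
  ∀ i (v y : Fin 2 → K), v 0 * y 1 - v 1 * y 0 ≠ 0 →
    ∃ H : MvPolynomial (Fin 2) K, chart (P i) v y f = X 0 ^ w i * H ∧
      (eval 0 H ≠ 0 ∨ ∃ a, eval 0 (pderiv a H) ≠ 0)

/-- The chart of a form with a multiple point. -/
theorem chart_div {K : Type} [Field K] {f : MvPolynomial (Fin 3) K} {d m : ℕ}
    (hf : f.IsHomogeneous d) {p : Fin 2 → K} (hv : Van (aff p) m f) (v y : Fin 2 → K) :
    ∃ H : MvPolynomial (Fin 2) K, chart p v y f = X 0 ^ m * H := by
  have h1 := (t_link K p m f d hf).1 hv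
  have h2 := Ideal.mem_map_of_mem (chart p v y) h1
  rw [Ideal.map_pow] at h2
  have h3 : Ideal.map (chart p v y) (Ideal.span
      ({MvPolynomial.X 0 - MvPolynomial.C (p 0) * MvPolynomial.X 2,
        MvPolynomial.X 1 - MvPolynomial.C (p 1) * MvPolynomial.X 2} :
        Set (MvPolynomial (Fin 3) K))) ≤ Ideal.span {X 0} := by
    rw [Ideal.map_span, Ideal.span_le, Set.image_pair]
    rintro x (rfl | rfl)
    · rw [SetLike.mem_coe, Ideal.mem_span_singleton]
      refine ⟨C (v 0) + C (y 0) * X 1, ?_⟩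
      unfold chart
      simp [algHom_C]
    · rw [SetLike.mem_coe, Ideal.mem_span_singleton]
      refine ⟨C (v 1) + C (y 1) * X 1, ?_⟩
      unfold chart
      simp [algHom_C]
  have h4 := Ideal.pow_right_mono h3 m h2
  rw [Ideal.span_singleton_pow, Ideal.mem_span_singleton] at h4
  exact h4

/-- The first order terms. -/
theorem two_coef {K : Type} [Field K] {H : MvPolynomial (Fin 2) K} (h0 : eval 0 H = 0)
    (h1 : ∀ a, eval 0 (pderiv a H) = 0) :
    coeff 0 H = 0 ∧ ∀ a, coeff (Finsupp.single a 1) H = 0 := by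
  classical
  have e : ∀ G : MvPolynomial (Fin 2) K, eval 0 G = coeff 0 G := by
    intro G
    rw [← constantCoeff_eq, MvPolynomial.eval_zero]
  refine ⟨by rw [← e]; exact h0, fun a => ?_⟩
  have h2 := h1 a
  rw [e, MvPolynomial.coeff_pderiv] at h2
  simpa using h2

/-- Low multiplicities. -/
theorem chart_low {K : Type} [Field K] {f : MvPolynomial (Fin 3) K} {d m : ℕ}
    (hf : f.IsHomogeneous d) (hm : m ≤ 1) {p v y : Fin 2 → K} (h : v 0 * y 1 - v 1 * y 0 ≠ 0)
    (ho : Ord (aff p) m f)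
    {H : MvPolynomial (Fin 2) K} (hH : chart p v y f = X 0 ^ m * H)
    (h0 : coeff 0 H = 0) (h1 : ∀ a, coeff (Finsupp.single a 1) H = 0) : False := by
  classical
  obtain ⟨a1, -, a3, -⟩ := (t_lin K).1 _ (cm_det (p := p) h)
  have b2 : (cm p v y).mulVec (bs 2) = aff p := by
    funext l
    rw [Matrix.mulVec, dotProduct, Fin.sum_univ_three]
    fin_cases l <;> simp [cm, bs, aff]
  have c2 : Ord (bs 2) m (lin (cm p v y) f) := by
    have h2 := ho
    rw [← b2] at h2
    exact ⟨(a3 _ _ _).1 h2.1, fun h => h2.2 ((a3 _ _ _).2 h)⟩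
  obtain ⟨hE1, α, hα, hα2⟩ := Pool.Agent.W641.CR.ord_exists (a1 f d hf) 2 c2
  have h3 := theta_exp (a1 f d hf) (by rw [theta_cm]; exact hH) h0 h1 hα
  have h4 := homog_degree (n := 2) (a1 f d hf) hα
  rw [Pool.Agent.W641.CR.sum3] at h4
  omega

/-- A rigid reduced curve is smooth on the blow-up. -/
theorem rigid_smooth {K : Type} [Field K] [CharZero K] [IsAlgClosed K] {r : ℕ}
    {P : Fin (r + 4) → Fin 2 → K}
    (hP : AlgebraicIndependent ℚ (fun ij : Fin (r + 4) × Fin 2 => P ij.1 ij.2)) {d : ℕ}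
    {w : Fin (r + 4) → ℕ} (hw : (Finset.univ.filter fun i => 2 < w i).card ≤ 9)
    (h1 : Module.finrank K ↥(VS (fun j => aff (P j)) w d) = 1)
    {f : MvPolynomial (Fin 3) K} (hf : f ∈ VS (fun j => aff (P j)) w d) (hf0 : f ≠ 0)
    (hsq : Squarefree f) : SmoothOn P w f := by
  classical
  have hfm := (mem_VS _ _ _ _).1 hf
  refine ⟨fun Q hQ0 hQ => ?_, fun i v y hvy => ?_⟩
  · by_contra hcon
    push Not at hcon
    exact rigid_fin hP hw h1 hf hf0 hsq hQ0 hQ (Pool.Agent.TH167.TT.van_two hcon.1 hcon.2)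
  · obtain ⟨H, hH⟩ := chart_div hfm.1 (hfm.2 i) v y
    refine ⟨H, hH, ?_⟩
    by_contra hcon
    push Not at hcon
    obtain ⟨h2, h3⟩ := two_coef hcon.1 hcon.2
    have hv : v ≠ 0 := by
      rintro rfl
      simp at hvy
    rcases Nat.lt_or_ge 2 (w i) with hw2 | hw2
    · exact rigid_near hP hw h1 hf hf0 hsq hw2 hv (chart_mem hfm.1 hw2.le hvy hH h2 h3)
    · rcases Nat.lt_or_ge 1 (w i) with hw1 | hw1
      · have hwi : w i = 2 := by omega
        refine rigid_dbl hP h1 hf hf0 hsq hwi hv ?_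
        have := chart_mem hfm.1 hw1 hvy hH h2 h3
        rwa [hwi] at this
      · exact chart_low hfm.1 hw1 hvy (exact_ord hP h1 hf hf0 i) hH h2 h3

end Pool.Agent.TH167.SM
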