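import Pool.Agent.TH167.SM.SqMap

set_option autoImplicit false

/-!
# The generic member is squarefree
-/

namespace Pool.Agent.TH167.SM

open MvPolynomial Pool.Agent.W609 Pool.Agent.W609.CR Pool.Agent.TH167.SH Pool.Agent.TH167.TT
  Pool.Agent.TH167.DD Pool.Agent.H248R5 Pool.Agent.H248R6 Pool.Agent.W641.CR

theorem dG_pow {L σ : Type} [Field L] [CharZero L] (D : Derivation ℚ L L) (p : MvPolynomial σ L)
    (k : ℕ) : dG D (p ^ (k + 1)) = C ((k : L) + 1) * p ^ k * dG D p := by
  induction k with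
  | zero => simp
  | succ k ih =>
    rw [pow_succ, dG_mul, ih]
    push_cast
    rw [C_add, C_add, C_add, C_1]
    ring

/-- The normalized factor of a form over the small field is killed by the derivations. -/
theorem dG_factor {K L σ : Type} [Field K] [Field L] [CharZero L] [Algebra K L]
    {D : Derivation ℚ L L} (hK : ∀ a : K, D (algebraMap K L a) = 0) {b : MvPolynomial σ K}
    (hb : b ≠ 0) {p : MvPolynomial σ L} (hp : Irreducible p) {e : ℕ} (hpe : p.IsHomogeneous e)
    {μ : σ →₀ ℕ} (hμ : coeff μ p = 1) (hdvd : p ∣ map (algebraMap K L) b) : dG D p = 0 := by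
  classical
  have hb' : map (algebraMap K L) b ≠ 0 := by
    intro h
    exact hb (map_injective _ (algebraMap K L).injective (by rw [h, map_zero]))
  obtain ⟨n, z, hz, hbz⟩ := WfDvdMonoid.max_power_factor hb' hp
  have hn : n ≠ 0 := by
    rintro rfl
    rw [pow_zero, one_mul] at hbz
    exact hz (hbz ▸ hdvd)
  obtain ⟨k, rfl⟩ := Nat.exists_eq_succ_of_ne_zero hn
  have h1 := dG_map hK b
  rw [hbz, dG_mul, Nat.succ_eq_add_one, dG_pow] at h1
  have h2 : p ^ k * (C ((k : L) + 1) * dG D p * z + p * dG D z) = 0 := by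
    rw [← h1]
    ring
  have h3 : C ((k : L) + 1) * dG D p * z + p * dG D z = 0 :=
    (mul_eq_zero.1 h2).resolve_left (pow_ne_zero _ hp.ne_zero)
  have h4 : p ∣ C ((k : L) + 1) * dG D p * z :=
    (dvd_add_left (dvd_mul_right _ _)).1 (h3 ▸ dvd_zero p)
  have hpp : Prime p := hp.prime
  have h5 : p ∣ dG D p := by
    rcases hpp.dvd_or_dvd h4 with h5 | h5
    · rcases hpp.dvd_or_dvd h5 with h6 | h6
      · exfalso
        exact hpp.not_unit (isUnit_of_dvd_unit h6 ((isUnit_iff_ne_zero.2
          (Nat.cast_add_one_ne_zero k)).map C))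
      · exact h6
    · exact absurd h5 hz
  by_contra hne
  obtain ⟨u, hu⟩ := h5
  have hde : (dG D p).IsHomogeneous e := by
    intro s hs
    rw [coeff_dG] at hs
    apply hpe
    intro h0
    rw [h0, map_zero] at hs
    exact hs rfl
  have hu0 : u ≠ 0 := by
    rintro rfl
    rw [mul_zero] at hu
    exact hne hu
  have h6 : (dG D p).totalDegree = p.totalDegree + u.totalDegree := by
    rw [hu, totalDegree_mul_of_isDomain hp.ne_zero hu0]
  rw [hde.totalDegree hne, hpe.totalDegree hp.ne_zero] at h6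
  have h7 : u.totalDegree = 0 := by omega
  rw [totalDegree_eq_zero_iff_eq_C] at h7
  rw [h7, mul_comm] at hu
  have h8 := congrArg (coeff μ) hu
  rw [coeff_dG, hμ, Derivation.map_one_eq_zero, coeff_C_mul, hμ, mul_one] at h8
  rw [← h8, C_0, zero_mul] at hu
  exact hne hu

/-- The generic member is squarefree. -/
theorem sq_gen {K L : Type} [Field K] [IsAlgClosed K] [Field L] [CharZero L]
    [Algebra K L] {N : ℕ} {t : Fin N → L} {D : Fin N → Derivation ℚ L L}
    (hD : ∀ i j, D i (t j) = if i = j then 1 else 0)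
    (hK : ∀ i (a : K), D i (algebraMap K L a) = 0) {d : ℕ} {b : Fin N → MvPolynomial (Fin 3) K}
    (hb : ∀ j, (b j).IsHomogeneous d) {c : Fin N → K}
    (hsq : Squarefree (∑ j, C (c j) * b j)) :
    Squarefree (∑ j, C (t j) * map (algebraMap K L) (b j)) := by
  classical
  obtain ⟨G, hG⟩ : ∃ G, G = ∑ j, C (t j) * map (algebraMap K L) (b j) := ⟨_, rfl⟩
  rw [← hG]
  have hGD : ∀ i, dG (D i) G = map (algebraMap K L) (b i) := by
    intro i
    ext s
    rw [coeff_dG, hG, coeff_sum, map_sum, coeff_map]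
    simp only [coeff_C_mul, coeff_map, Derivation.leibniz, hK, smul_zero, zero_add, hD, smul_eq_mul,
      mul_ite, mul_one, mul_zero]
    rw [Finset.sum_ite_eq Finset.univ i, if_pos (Finset.mem_univ i)]
  have hf0 : (∑ j, C (c j) * b j) ≠ 0 := hsq.ne_zero
  obtain ⟨j0, hj0⟩ : ∃ j, b j ≠ 0 := by
    by_contra hcon
    push Not at hcon
    exact hf0 (Finset.sum_eq_zero fun j _ => by rw [hcon, mul_zero])
  have hG0 : G ≠ 0 := by
    rintro rfl
    have h1 := hGD j0
    have h2 : dG (D j0) (0 : MvPolynomial (Fin 3) L) = 0 := by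
      ext s
      rw [coeff_dG, coeff_zero, map_zero]
    rw [h2] at h1
    exact hj0 (map_injective _ (algebraMap K L).injective (by rw [← h1, map_zero]))
  have hGh : G.IsHomogeneous d := by
    rw [hG]
    refine IsHomogeneous.sum _ _ _ fun j _ => ?_
    have := (isHomogeneous_C (Fin 3) (t j)).mul ((hb j).map (algebraMap K L))
    rwa [zero_add] at this
  intro x hx
  by_contra hxu
  have hx0 : x ≠ 0 := by
    rintro rfl
    rw [mul_zero] at hx
    exact hG0 (zero_dvd_iff.1 hx)
  obtain ⟨p, hp, hpx⟩ := WfDvdMonoid.exists_irreducible_factor hxu hx0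
  have hpG : p * p ∣ G := (mul_dvd_mul hpx hpx).trans hx
  have hph := Pool.Agent.Chud.homog_of_dvd hGh hG0 ((dvd_mul_right p p).trans hpG)
  obtain ⟨μ, hμ⟩ := MvPolynomial.ne_zero_iff.1 hp.ne_zero
  obtain ⟨p', hp'⟩ : ∃ p', p' = C (coeff μ p)⁻¹ * p := ⟨_, rfl⟩
  have hu : IsUnit (C (coeff μ p)⁻¹ : MvPolynomial (Fin 3) L) :=
    (isUnit_iff_ne_zero.2 (inv_ne_zero hμ)).map C
  have hass : Associated p p' := by
    rw [hp']
    exact (associated_isUnit_mul_left_iff hu).2 (Associated.refl _) |>.symm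
  have hp'i : Irreducible p' := hass.irreducible hp
  have hp'h : p'.IsHomogeneous p.totalDegree := by
    rw [hp']
    have := (isHomogeneous_C (Fin 3) (coeff μ p)⁻¹).mul hph
    rwa [zero_add] at this
  have hp'μ : coeff μ p' = 1 := by
    rw [hp', coeff_C_mul, inv_mul_cancel₀ hμ]
  have hp'G : p' * p' ∣ G := (mul_dvd_mul hass.symm.dvd hass.symm.dvd).trans hpG
  have hμ0 : μ ≠ 0 := by
    rintro rfl
    have h1 : p.totalDegree = 0 := by
      have h2 := hph hμ
      rw [map_zero] at h2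
      exact h2.symm
    rw [totalDegree_eq_zero_iff_eq_C] at h1
    apply hp.not_isUnit
    rw [h1]
    exact (isUnit_iff_ne_zero.2 hμ).map C
  obtain ⟨y, hy⟩ := hp'G
  have hdv : ∀ j, p' ∣ map (algebraMap K L) (b j) := by
    intro j
    rw [← hGD j, hy, mul_assoc, dG_mul]
    exact dvd_add ((dvd_mul_right _ _).mul_left _) (dvd_mul_right _ _)
  have hd0 : ∀ j, dG (D j) p' = 0 := fun j => dG_factor (hK j) hj0 hp'i hp'h hp'μ (hdv j0)
  have hdv2 : ∀ j, p' * p' ∣ map (algebraMap K L) (b j) := by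
    intro j
    rw [← hGD j, hy, dG_mul, dG_mul, hd0, zero_mul, mul_zero, add_zero, zero_mul, zero_add]
    exact dvd_mul_right _ _
  refine sq_map hsq hμ0 hp'μ ?_
  rw [map_sum]
  refine Finset.dvd_sum fun j _ => ?_
  rw [map_mul]
  exact (hdv2 j).mul_left _

end Pool.Agent.TH167.SM
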