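import Pool.Agent.TH167.SM.Jac

set_option autoImplicit false

/-!
# Squarefree forms over larger fields
-/

namespace Pool.Agent.TH167.SM

open MvPolynomial Pool.Agent.W609 Pool.Agent.W609.CR Pool.Agent.TH167.SH Pool.Agent.TH167.TT
  Pool.Agent.TH167.DD Pool.Agent.H248R5 Pool.Agent.H248R6 Pool.Agent.W641.CR

/-- Points of finitely generated algebras. -/
theorem exists_point {K A : Type} [Field K] [IsAlgClosed K] [CommRing A] [Nontrivial A]
    [Algebra K A] [Algebra.FiniteType K A] : ∃ π : A →+* K, ∀ c, π (algebraMap K A c) = c := by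
  obtain ⟨m, hm⟩ := Ideal.exists_maximal A
  let _ : Field (A ⧸ m) := Ideal.Quotient.field m
  have : Algebra.FiniteType K (A ⧸ m) :=
    Algebra.FiniteType.of_surjective (Ideal.Quotient.mkₐ K m) Ideal.Quotient.mk_surjective
  have : Module.Finite K (A ⧸ m) := finite_of_finite_type_of_isJacobsonRing K (A ⧸ m)
  have hbij : Function.Bijective (algebraMap K (A ⧸ m)) :=
    IsAlgClosed.algebraMap_bijective_of_isIntegral
  let e : K ≃+* A ⧸ m := RingEquiv.ofBijective _ hbij
  refine ⟨(e.symm : (A ⧸ m) →+* K).comp (Ideal.Quotient.mk m), fun c => ?_⟩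
  show e.symm (Ideal.Quotient.mk m (algebraMap K A c)) = c
  rw [RingEquiv.symm_apply_eq]
  rfl

/-- A square over a larger field. -/
theorem sq_map {K L σ : Type} [Field K] [IsAlgClosed K] [Field L] [Algebra K L]
    {f : MvPolynomial σ K} (hf : Squarefree f) {p : MvPolynomial σ L} {μ : σ →₀ ℕ} (hμ0 : μ ≠ 0)
    (hμ : coeff μ p = 1) (hdvd : p * p ∣ map (algebraMap K L) f) : False := by
  classical
  obtain ⟨q, hq⟩ := hdvd
  let S : Set L := (p.support.image (fun s => coeff s p) ∪ q.support.image (fun s => coeff s q) :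
    Finset L)
  let A : Subalgebra K L := Algebra.adjoin K S
  have hAft : Algebra.FiniteType K A :=
    Subalgebra.fg_iff_finiteType A |>.1 ⟨_, rfl⟩
  obtain ⟨π, hπ⟩ := exists_point (K := K) (A := A)
  have hcoef : ∀ (g : MvPolynomial σ L), (∀ s ∈ g.support, coeff s g ∈ A) →
      ∃ g' : MvPolynomial σ A, map A.val.toRingHom g' = g := by
    intro g hg
    refine ⟨∑ s ∈ g.support.attach, monomial s.1 (⟨coeff s.1 g, hg s.1 s.2⟩ : A), ?_⟩
    rw [map_sum]
    simp only [map_monomial]
    conv_rhs => rw [← g.support_sum_monomial_coeff, ← Finset.sum_attach]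
    rfl
  obtain ⟨p', hp'⟩ := hcoef p (fun s hs => Algebra.subset_adjoin (by
    simp only [S, Finset.coe_union, Set.mem_union, Finset.mem_coe]
    exact Or.inl (Finset.mem_image_of_mem _ hs)))
  obtain ⟨q', hq'⟩ := hcoef q (fun s hs => Algebra.subset_adjoin (by
    simp only [S, Finset.coe_union, Set.mem_union, Finset.mem_coe]
    exact Or.inr (Finset.mem_image_of_mem _ hs)))
  have hinj : Function.Injective (map (σ := σ) A.val.toRingHom) :=
    map_injective _ Subtype.val_injective
  have h1 : map (algebraMap K A) f = p' * p' * q' := by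
    apply hinj
    rw [map_mul, map_mul, hp', hq', ← hq, map_map]
    rfl
  have h2 := congrArg (map π) h1
  rw [map_map, map_mul, map_mul] at h2
  have h3 : π.comp (algebraMap K A) = RingHom.id K := RingHom.ext hπ
  rw [h3, map_id] at h2
  have h4 : IsUnit (map π p') := hf _ ⟨_, h2⟩
  have h5 : coeff μ (map π p') = 1 := by
    rw [coeff_map]
    have h6 : coeff μ p' = 1 := by
      apply Subtype.val_injective
      have := congrArg (coeff μ) hp'
      rw [coeff_map, hμ] at this
      exact this
    rw [h6, map_one]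
  rw [MvPolynomial.isUnit_iff_eq_C_of_isReduced] at h4
  obtain ⟨c, -, hc⟩ := h4
  rw [hc, coeff_C, if_neg (Ne.symm hμ0)] at h5
  exact zero_ne_one h5

end Pool.Agent.TH167.SM
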